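import Pool.Agent.W_MP_733b23_lc.Main

set_option autoImplicit false

/-!
Translation between the frozen statement and `Good`.
-/

namespace Pool.Agent.W_MP_733b23_lc

variable {α : Type}

theorem LL_pow {X : Language α} (n : ℕ) {w : List α} (h : w ∈ LL (X : Set (List α)) n) :
    ∃ u ∈ X ^ n, ∃ s, u ++ s = w := by
  induction n generalizing w with
  | zero => exact ⟨[], by simp, w, rfl⟩
  | succ n ih =>
    obtain ⟨x, hx, l, hl, rfl⟩ := h
    obtain ⟨u, hu, s, rfl⟩ := ih hl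
    refine ⟨x ++ u, ?_, s, by simp⟩
    rw [pow_succ']
    exact Language.mem_mul.2 ⟨x, hx, u, hu, rfl⟩

theorem RR_pow {X : Language α} (n : ℕ) {w : List α} (h : w ∈ RR (X : Set (List α)) n) :
    ∃ u ∈ X ^ n, ∃ s, s ++ u = w := by
  induction n generalizing w with
  | zero => exact ⟨[], by simp, w, by simp⟩
  | succ n ih =>
    obtain ⟨l, hl, x, hx, rfl⟩ := h
    obtain ⟨u, hu, s, rfl⟩ := ih hl
    refine ⟨u ++ x, ?_, s, by simp⟩
    rw [pow_succ]
    exact Language.mem_mul.2 ⟨u, hu, x, hx, rfl⟩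

theorem pow_LL {X : Language α} (n : ℕ) {u : List α} (h : u ∈ X ^ n) (s : List α) :
    u ++ s ∈ LL (X : Set (List α)) n := by
  induction n generalizing u with
  | zero => trivial
  | succ n ih =>
    rw [pow_succ'] at h
    obtain ⟨x, hx, v, hv, rfl⟩ := Language.mem_mul.1 h
    exact ⟨x, hx, v ++ s, ih hv, by simp⟩

theorem pow_RR {X : Language α} (n : ℕ) {u : List α} (h : u ∈ X ^ n) (s : List α) :
    s ++ u ∈ RR (X : Set (List α)) n := by
  induction n generalizing u with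
  | zero => trivial
  | succ n ih =>
    rw [pow_succ] at h
    obtain ⟨v, hv, x, hx, rfl⟩ := Language.mem_mul.1 h
    exact ⟨s ++ v, ih hv, x, hx, by simp⟩

theorem pow_kstar {X : Language α} (n : ℕ) {u : List α} (h : u ∈ X ^ n) :
    u ∈ KStar.kstar X := by
  rw [Language.kstar_eq_iSup_pow]
  exact Language.mem_iSup.2 ⟨n, h⟩

theorem kstar_LL {Y : Language α} (n : ℕ) {u t : List α} (h : u ∈ KStar.kstar Y)
    (ht : t ∈ LL (Y : Set (List α)) n) : u ++ t ∈ LL (Y : Set (List α)) n := by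
  obtain ⟨S, rfl, hS⟩ := Language.mem_kstar.1 h
  clear h
  induction S with
  | nil => simpa using ht
  | cons y S ih =>
    have h1 := ih (fun z hz => hS z (List.mem_cons_of_mem _ hz))
    have h2 := LL_succ_sub (Y : Set (List α)) n
      ⟨y, hS y List.mem_cons_self, _, h1, rfl⟩
    simpa using h2

theorem kstar_RR {Y : Language α} (n : ℕ) {u t : List α} (h : u ∈ KStar.kstar Y)
    (ht : t ∈ RR (Y : Set (List α)) n) : t ++ u ∈ RR (Y : Set (List α)) n := by
  obtain ⟨S, rfl, hS⟩ := Language.mem_kstar.1 h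
  clear h
  induction S generalizing t with
  | nil => simpa using ht
  | cons y S ih =>
    have h1 : t ++ y ∈ RR (Y : Set (List α)) n :=
      RR_succ_sub (Y : Set (List α)) n ⟨t, ht, y, hS y List.mem_cons_self, rfl⟩
    have h2 := ih h1 (fun z hz => hS z (List.mem_cons_of_mem _ hz))
    simpa using h2

/-- from the frozen hypotheses to `Good` -/
theorem good_of_frozen {X : Language α} {d d' : ℕ}
    (hreg : ∃ (σ : Type) (_ : Fintype σ) (M : DFA α σ), M.accepts = X)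
    (hnil : [] ∉ X)
    (hL : ∀ x ∈ X, ∀ x' ∈ X, ∀ y ∈ X ^ d, ∀ y' ∈ KStar.kstar X, x ++ y <+: x' ++ y' → x = x')
    (hR : ∀ x ∈ X, ∀ x' ∈ X, ∀ y ∈ X ^ d', ∀ y' ∈ KStar.kstar X, y ++ x <:+ y' ++ x' → x = x') :
    Good (X : Set (List α)) d d' X := by
  refine ⟨le_rfl, hnil, (FC.reg_iff_dfa _).2 hreg, rfl, rfl, ?_, ?_⟩
  · intro y hy y' hy' l hl l' hl' he
    obtain ⟨u, hu, s, rfl⟩ := LL_pow d hl
    obtain ⟨u', hu', s', rfl⟩ := LL_pow d hl'
    rw [← List.append_assoc, ← List.append_assoc] at he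
    rcases List.append_eq_append_iff.1 he with ⟨r, h5, h6⟩ | ⟨r, h5, h6⟩
    · exact hL y hy y' hy' u hu u' (pow_kstar d hu') ⟨r, h5.symm⟩
    · exact (hL y' hy' y hy u' hu' u (pow_kstar d hu) ⟨r, h5.symm⟩).symm
  · intro y hy y' hy' l hl l' hl' he
    obtain ⟨u, hu, s, rfl⟩ := RR_pow d' hl
    obtain ⟨u', hu', s', rfl⟩ := RR_pow d' hl'
    rw [List.append_assoc, List.append_assoc] at he
    rcases List.append_eq_append_iff.1 he with ⟨r, h5, h6⟩ | ⟨r, h5, h6⟩
    · exact (hR y' hy' y hy u' hu' u (pow_kstar d' hu) ⟨r, h6.symm⟩).symm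
    · exact hR y hy y' hy' u hu u' (pow_kstar d' hu') ⟨r, h6.symm⟩

theorem frozen_of_good_L {X : Set (List α)} {Y : Language α} {d d' : ℕ} (hne : X.Nonempty)
    (hY : Good X d d' Y) :
    ∀ x ∈ Y, ∀ x' ∈ Y, ∀ y ∈ Y ^ d, ∀ y' ∈ KStar.kstar Y, x ++ y <+: x' ++ y' → x = x' := by
  rintro x hx x' hx' y hy y' hy' ⟨s, hs⟩
  obtain ⟨t, ht⟩ := LL_nonempty hne d
  rw [← hY.eL] at ht
  have h1 : y ++ (s ++ t) ∈ LL X d := by rw [← hY.eL]; exact pow_LL d hy _
  have h2 : y' ++ t ∈ LL X d := by rw [← hY.eL]; exact kstar_LL d hy' ht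
  refine hY.dL x hx x' hx' _ h1 _ h2 ?_
  rw [← List.append_assoc, ← List.append_assoc, hs]
  simp

theorem frozen_of_good_R {X : Set (List α)} {Y : Language α} {d d' : ℕ} (hne : X.Nonempty)
    (hY : Good X d d' Y) :
    ∀ x ∈ Y, ∀ x' ∈ Y, ∀ y ∈ Y ^ d', ∀ y' ∈ KStar.kstar Y, y ++ x <:+ y' ++ x' → x = x' := by
  rintro x hx x' hx' y hy y' hy' ⟨s, hs⟩
  obtain ⟨t, ht⟩ := RR_nonempty hne d'
  rw [← hY.eR] at ht
  have h1 : (t ++ s) ++ y ∈ RR X d' := by rw [← hY.eR]; exact pow_RR d' hy _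
  have h2 : t ++ y' ∈ RR X d' := by rw [← hY.eR]; exact kstar_RR d' hy' ht
  refine hY.dR x hx x' hx' _ h1 _ h2 ?_
  rw [List.append_assoc, List.append_assoc, hs]
  simp

/-- the set of letters is regular -/
theorem reg_letters : ∃ (τ : Type) (_ : Fintype τ) (N : DFA α τ),
    N.accepts = {w : List α | w.length = 1} := by
  refine (FC.reg_iff_dfa _).1 ⟨⟨Fin 3, inferInstance, fun u => ⟨min u.length 2, by omega⟩,
    fun x y => ⟨min (x.1 + y.1) 2, by omega⟩, ?_⟩, ?_⟩
  · intro u v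
    refine Fin.ext ?_
    simp only [List.length_append]
    omega
  · intro u v e hu
    have h1 : min u.length 2 = min v.length 2 := congrArg Fin.val e
    have h2 : u.length = 1 := hu
    show v.length = 1
    omega

end Pool.Agent.W_MP_733b23_lc
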