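import Pool.Agent.W_MP_733b23_lc.Defs

set_option autoImplicit false

/-!
Adding words to a good code, completeness of a good code with boundedly many start positions.
-/

namespace Pool.Agent.W_MP_733b23_lc

variable {α : Type}

theorem LL_mono {X Y : Set (List α)} (h : X ⊆ Y) (n : ℕ) : LL X n ⊆ LL Y n := by
  induction n with
  | zero => intro w _; trivial
  | succ n ih => exact cat_mono h ih

theorem RR_mono {X Y : Set (List α)} (h : X ⊆ Y) (n : ℕ) : RR X n ⊆ RR Y n := by
  induction n with
  | zero => intro w _; trivial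
  | succ n ih => exact cat_mono ih h

theorem LL_anti (X : Set (List α)) {m n : ℕ} (h : m ≤ n) : LL X n ⊆ LL X m := by
  induction n, h using Nat.le_induction with
  | base => exact le_refl _
  | succ n _ ih => exact (LL_succ_sub X n).trans ih

theorem RR_anti (X : Set (List α)) {m n : ℕ} (h : m ≤ n) : RR X n ⊆ RR X m := by
  induction n, h using Nat.le_induction with
  | base => exact le_refl _
  | succ n _ ih => exact (RR_succ_sub X n).trans ih

theorem LL_nonempty {X : Set (List α)} (hX : X.Nonempty) (n : ℕ) : (LL X n).Nonempty := by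
  induction n with
  | zero => exact ⟨[], trivial⟩
  | succ n ih =>
    obtain ⟨x, hx⟩ := hX
    obtain ⟨y, hy⟩ := ih
    exact ⟨x ++ y, x, hx, y, hy, rfl⟩

theorem RR_nonempty {X : Set (List α)} (hX : X.Nonempty) (n : ℕ) : (RR X n).Nonempty := by
  induction n with
  | zero => exact ⟨[], trivial⟩
  | succ n ih =>
    obtain ⟨x, hx⟩ := hX
    obtain ⟨y, hy⟩ := ih
    exact ⟨y ++ x, y, hy, x, hx, rfl⟩

theorem Good.union {X : Set (List α)} {d d' : ℕ} {Y Z : Set (List α)} (hX : X.Nonempty)
    (hY : Good X d d' Y) (hZ : FC.Reg Z) (hZL : Z ⊆ LL X d) (hZR : Z ⊆ RR X d')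
    (h1 : ∀ z ∈ Z, ∀ s, z ++ s ∉ cat Y (LL X d))
    (h2 : ∀ z ∈ Z, ∀ s, s ++ z ∉ cat (RR X d') Y)
    (CL : ∀ z g, z ∈ Z → z ++ g ∈ Z → g ≠ [] → g ∉ quoR (LL X d))
    (CR : ∀ z g, z ∈ Z → g ++ z ∈ Z → g ≠ [] → g ∉ quoL (RR X d')) :
    Good X d d' (Y ∪ Z) := by
  constructor
  · exact hY.sub.trans Set.subset_union_left
  · rintro (h | h)
    · exact hY.nil h
    · obtain ⟨x, hx⟩ := hX
      obtain ⟨l, hl⟩ := LL_nonempty ⟨x, hx⟩ d
      exact h1 [] h (x ++ l) ⟨x, hY.sub hx, l, hl, rfl⟩
  · exact hY.reg.union hZ
  · apply Set.Subset.antisymm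
    · have key : ∀ i, i ≤ d → LL (Y ∪ Z) i ⊆ LL Y i := by
        intro i
        induction i with
        | zero => intro _ w _; trivial
        | succ i ih =>
          rintro hi w ⟨a, ha, b, hb, rfl⟩
          have hb' := ih (by omega) hb
          rcases ha with ha | ha
          · exact ⟨a, ha, b, hb', rfl⟩
          · have h3 := hZL ha
            rw [← hY.eL] at h3
            exact LL_ext Y (i + 1) (LL_anti Y hi h3)
      rw [← hY.eL]
      exact key d le_rfl
    · have := LL_mono (Set.subset_union_left (s := Y) (t := Z)) d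
      rw [hY.eL] at this
      exact this
  · apply Set.Subset.antisymm
    · have key : ∀ i, i ≤ d' → RR (Y ∪ Z) i ⊆ RR Y i := by
        intro i
        induction i with
        | zero => intro _ w _; trivial
        | succ i ih =>
          rintro hi w ⟨a, ha, b, hb, rfl⟩
          have ha' := ih (by omega) ha
          rcases hb with hb | hb
          · exact ⟨a, ha', b, hb, rfl⟩
          · have h3 := hZR hb
            rw [← hY.eR] at h3
            exact RR_ext Y (i + 1) (RR_anti Y hi h3)
      rw [← hY.eR]
      exact key d' le_rfl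
    · have := RR_mono (Set.subset_union_left (s := Y) (t := Z)) d'
      rw [hY.eR] at this
      exact this
  · intro y hy y' hy' l hl l' hl' e
    rcases hy with hy | hy
    · rcases hy' with hy' | hy'
      · exact hY.dL y hy y' hy' l hl l' hl' e
      · exact absurd ⟨y, hy, l, hl, e⟩ (h1 y' hy' l')
    · rcases hy' with hy' | hy'
      · exact absurd ⟨y', hy', l', hl', e.symm⟩ (h1 y hy l)
      · rcases List.append_eq_append_iff.1 e with ⟨c, hc1, hc2⟩ | ⟨c, hc1, hc2⟩
        · by_cases hc : c = []
          · rw [hc1, hc, List.append_nil]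
          · rw [hc1] at hy'
            refine absurd ⟨l', ?_⟩ (CL y c hy hy' hc)
            rw [← hc2]; exact hl
        · by_cases hc : c = []
          · rw [hc1, hc, List.append_nil]
          · rw [hc1] at hy
            refine absurd ⟨l, ?_⟩ (CL y' c hy' hy hc)
            rw [← hc2]; exact hl'
  · intro y hy y' hy' r hr r' hr' e
    rcases hy with hy | hy
    · rcases hy' with hy' | hy'
      · exact hY.dR y hy y' hy' r hr r' hr' e
      · exact absurd ⟨r, hr, y, hy, e⟩ (h2 y' hy' r')
    · rcases hy' with hy' | hy'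
      · exact absurd ⟨r', hr', y', hy', e.symm⟩ (h2 y hy r)
      · rcases List.append_eq_append_iff.1 e with ⟨c, hc1, hc2⟩ | ⟨c, hc1, hc2⟩
        · by_cases hc : c = []
          · rw [hc2, hc, List.nil_append]
          · rw [hc2] at hy
            refine absurd ⟨r, ?_⟩ (CR y' c hy' hy hc)
            rw [← hc1]; exact hr'
        · by_cases hc : c = []
          · rw [hc2, hc, List.nil_append]
          · rw [hc2] at hy'
            refine absurd ⟨r', ?_⟩ (CR y c hy hy' hc)
            rw [← hc1]; exact hr

theorem Good.complete {X : Set (List α)} {d d' : ℕ} {Y : Set (List α)} (hX : X.Nonempty)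
    (hY : Good X d d' Y) (n : ℕ) (hn : ∀ w, AtMost n (isS (LL X d) (RR X d') Y w)) (w : List α) :
    ∃ (u v : List α) (S : List (List α)), S.flatten = u ++ w ++ v ∧ ∀ y ∈ S, y ∈ Y := by
  classical
  have key : ∀ l ∈ LL X d, ∃ s, l ++ s ∈ cat Y (LL X d) := by
    by_contra hcon
    push Not at hcon
    obtain ⟨l, hl, hdead⟩ := hcon
    obtain ⟨r, hr⟩ := RR_nonempty hX d'
    set z := l ++ r with hz
    have hz0 : 0 < z.length := by
      rw [List.length_pos_iff]
      intro h0
      have hl0 : l = [] := (List.append_eq_nil_iff.1 (hz ▸ h0)).1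
      obtain ⟨x, hx⟩ := hX
      obtain ⟨l', hl'⟩ := LL_nonempty ⟨x, hx⟩ d
      refine hdead (x ++ l') ?_
      rw [hl0, List.nil_append]
      exact ⟨x, hY.sub hx, l', hl', rfl⟩
    have hlen : ∀ i, (List.replicate i z).flatten.length = i * z.length := by
      intro i
      simp
    have hsplit : ∀ i j, (List.replicate (i + j) z).flatten =
        (List.replicate i z).flatten ++ (List.replicate j z).flatten := by
      intro i j
      rw [← List.flatten_append, List.replicate_append_replicate]
    have h1 := hn (List.replicate (n + 2) z).flatten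
      ((Finset.range (n + 1)).image fun i => (i + 1) * z.length) (by
        intro x hx
        obtain ⟨i, hi, rfl⟩ := Finset.mem_image.1 hx
        rw [Finset.mem_range] at hi
        obtain ⟨j, hj⟩ : ∃ j, n + 2 = (i + 1) + (j + 1) := ⟨n - i, by omega⟩
        have ht : (List.replicate (n + 2) z).flatten.take ((i + 1) * z.length) =
            (List.replicate (i + 1) z).flatten := by
          rw [hj, hsplit, ← hlen, List.take_left]
        have hd : (List.replicate (n + 2) z).flatten.drop ((i + 1) * z.length) =
            (List.replicate (j + 1) z).flatten := by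
          rw [hj, hsplit, ← hlen, List.drop_left]
        refine ⟨?_, ?_, ?_, ?_⟩
        · rw [hlen]
          exact Nat.mul_le_mul_right _ (by omega)
        · rw [ht, hsplit i 1]
          simp only [List.replicate_one, List.flatten_singleton]
          rw [hz, ← List.append_assoc]
          exact RR_ext X d' hr
        · rw [hd, List.replicate_succ, List.flatten_cons]
          rw [hz, List.append_assoc]
          exact LL_ext X d hl
        · rw [hd, List.replicate_succ, List.flatten_cons]
          rw [hz, List.append_assoc]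
          exact hdead _)
    rw [Finset.card_image_of_injective, Finset.card_range] at h1
    · omega
    · intro i j hij
      have := Nat.eq_of_mul_eq_mul_right hz0 hij
      omega
  have main : ∀ (k : ℕ) (v t : List α), v.length ≤ k → v ++ t ∈ LL X d →
      ∃ (u : List α) (S : List (List α)), S.flatten = v ++ u ∧ ∀ y ∈ S, y ∈ Y := by
    intro k
    induction k with
    | zero =>
      intro v t hv _
      have : v = [] := List.length_eq_zero_iff.1 (by omega)
      subst this
      exact ⟨[], [], by simp, by simp⟩
    | succ k ih =>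
      intro v t hv hvt
      obtain ⟨s, y, hy, l, hl, e⟩ := key _ hvt
      rw [List.append_assoc] at e
      rcases List.append_eq_append_iff.1 e with ⟨c, hc1, hc2⟩ | ⟨c, hc1, hc2⟩
      · have hy0 : 0 < y.length := by
          rw [List.length_pos_iff]
          intro h0
          exact hY.nil (h0 ▸ hy)
        have hcl : c.length ≤ k := by
          have := congrArg List.length hc1
          rw [List.length_append] at this
          omega
        obtain ⟨u, S, hS1, hS2⟩ := ih c (t ++ s) hcl (by rw [← hc2]; exact hl)
        refine ⟨u, y :: S, ?_, ?_⟩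
        · rw [List.flatten_cons, hS1, hc1, List.append_assoc]
        · intro y' hy'
          rcases List.mem_cons.1 hy' with rfl | h
          · exact hy
          · exact hS2 y' h
      · refine ⟨c, [y], ?_, ?_⟩
        · rw [List.flatten_singleton, hc1]
        · intro y' hy'
          rw [List.mem_singleton] at hy'
          rw [hy']; exact hy
  obtain ⟨x, hx⟩ := LL_nonempty hX d
  obtain ⟨u, S, hS1, hS2⟩ := main (x ++ w).length (x ++ w) [] le_rfl (by
    rw [List.append_nil]
    exact LL_ext X d hx)
  exact ⟨x, u, S, hS1, hS2⟩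

theorem atMost_isE_of_isS {X : Set (List α)} {d d' : ℕ} {Y : Set (List α)}
    (hY : Good X d d' Y) (w : List α) (n : ℕ) (h : AtMost n (isS (LL X d) (RR X d') Y w)) :
    AtMost n (isE (LL X d) (RR X d') Y w) := by
  classical
  set L := LL X d with hL
  set R := RR X d' with hR
  have hRY : ∀ r ∈ R, ∀ y ∈ Y, r ++ y ∈ R := by
    intro r hr y hy
    rw [hR, ← hY.eR] at hr ⊢
    exact RR_succ_sub Y d' ⟨r, hr, y, hy, rfl⟩
  intro T hT
  set G := (Finset.range (w.length + 1)).filter (fun x => w.take x ∈ R ∧ w.drop x ∈ L) with hG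
  set GS := G.filter (fun x => w.drop x ∉ cat Y L) with hGS
  set GS' := G.filter (fun x => ¬ w.drop x ∉ cat Y L) with hGS'
  set GE := G.filter (fun x => w.take x ∉ cat R Y) with hGE
  set GE' := G.filter (fun x => ¬ w.take x ∉ cat R Y) with hGE'
  have memG : ∀ x, x ∈ G ↔ x ≤ w.length ∧ w.take x ∈ R ∧ w.drop x ∈ L := by
    intro x
    rw [hG, Finset.mem_filter, Finset.mem_range, Nat.lt_succ_iff]
  have c1 : GS.card + GS'.card = G.card := Finset.card_filter_add_card_filter_not (s := G) _
  have c2 : GE.card + GE'.card = G.card := Finset.card_filter_add_card_filter_not (s := G) _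
  have c3 : GS.card ≤ n := by
    refine h GS (fun x hx => ?_)
    rw [hGS, Finset.mem_filter, memG] at hx
    exact ⟨hx.1.1, hx.1.2.1, hx.1.2.2, hx.2⟩
  have c4 : T.card ≤ GE.card := by
    refine Finset.card_le_card (fun x hx => ?_)
    obtain ⟨h1, h2, h3, h4⟩ := hT x hx
    rw [hGE, Finset.mem_filter, memG]
    exact ⟨⟨h1, h2, h3⟩, h4⟩
  have hch : ∀ x, ∃ y, x ∈ GS' → y ∈ Y ∧ ∃ l ∈ L, y ++ l = w.drop x := by
    intro x
    by_cases hx : x ∈ GS'
    · have hx' := hx
      rw [hGS', Finset.mem_filter, not_not] at hx'
      obtain ⟨y, hy, l, hl, e⟩ := hx'.2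
      exact ⟨y, fun _ => ⟨hy, l, hl, e⟩⟩
    · exact ⟨[], fun h => absurd h hx⟩
  choose f hf using hch
  have htake : ∀ x ∈ GS', w.take (x + (f x).length) = w.take x ++ f x := by
    intro x hx
    obtain ⟨hy, l, hl, e⟩ := hf x hx
    rw [List.take_add, ← e, List.take_left]
  have hdrop : ∀ x ∈ GS', w.drop (x + (f x).length) ∈ L ∧ x + (f x).length ≤ w.length := by
    intro x hx
    have hx' := hx
    rw [hGS', Finset.mem_filter, memG] at hx'
    obtain ⟨hy, l, hl, e⟩ := hf x hx
    refine ⟨?_, ?_⟩
    · rw [← List.drop_drop, ← e, List.drop_left]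
      exact hl
    · have h5 := congrArg List.length e
      rw [List.length_append, List.length_drop] at h5
      have := hx'.1.1
      omega
  have c5 : GS'.card ≤ GE'.card := by
    refine Finset.card_le_card_of_injOn (fun x => x + (f x).length) ?_ ?_
    · intro x hx
      have hx0 : x ∈ GS' := hx
      have hx' := hx0
      rw [hGS', Finset.mem_filter, memG] at hx'
      obtain ⟨hy, _⟩ := hf x hx0
      obtain ⟨h5, h6⟩ := hdrop x hx0
      show x + (f x).length ∈ GE'
      rw [hGE', Finset.mem_filter, memG, htake x hx0, not_not]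
      exact ⟨⟨h6, hRY _ hx'.1.2.1 _ hy, h5⟩, w.take x, hx'.1.2.1, f x, hy, rfl⟩
    · intro x hx x' hx' e
      have hx0 : x ∈ GS' := hx
      have hx0' : x' ∈ GS' := hx'
      have e' : x + (f x).length = x' + (f x').length := e
      have h5 := htake x hx0
      rw [e', htake x' hx0'] at h5
      have hx1 := hx0
      rw [hGS', Finset.mem_filter, memG] at hx1
      have hx1' := hx0'
      rw [hGS', Finset.mem_filter, memG] at hx1'
      have h6 := hY.dR (f x') (hf x' hx0').1 (f x) (hf x hx0).1 _ hx1'.1.2.1 _ hx1.1.2.1 h5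
      rw [h6] at e'
      omega
  omega

end Pool.Agent.W_MP_733b23_lc
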