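import Pool.Agent.W_MP_733b23_lc.Lane

set_option autoImplicit false

/-!
Boundedness of the index on `Fp` after the addition of `Z`.
-/

namespace Pool.Agent.W_MP_733b23_lc

variable {α : Type}

namespace Ctx

open Classical

variable {c : Ctx α}

/-- the three-term constant -/
def NW (c : Ctx α) : ℕ := c.n + c.NL + c.NR

theorem claimW {w : List α} {y : ℕ} (hy : y ≤ w.length) :
    AtMost c.NW (fun p => isS c.L c.R c.Y w p ∧ p ≤ y ∧ seg w p y ∈ c.F) := by
  intro T hT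
  rcases T.eq_empty_or_nonempty with rfl | hne
  · simp
  set x := T.min' hne with hx
  obtain ⟨hxS, hxy, hxF⟩ := hT x (T.min'_mem hne)
  have A1 : AtMost c.n (fun p => x ≤ p ∧ isS c.L c.R c.Y (seg w x y) (p - x)) :=
    (c.bS _ hxF).map (fun p => p - x) (fun p hp => hp.2) (fun p q hp hq h => by
      have h : p - x = q - x := h
      have := hp.1
      have := hq.1
      omega)
  have A2 := c.bL (w.take y)
  have A3 : AtMost c.NR (fun p => x ≤ p ∧ (p - x ≤ (w.drop x).length ∧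
      (w.drop x).drop (p - x) ∈ c.L ∧ (w.drop x).take (p - x) ∉ c.R ∧
      (w.drop x).take (p - x) ∈ quoL c.R)) :=
    (c.bR (w.drop x)).map (fun p => p - x) (fun p hp => hp.2) (fun p q hp hq h => by
      have h : p - x = q - x := h
      have := hp.1
      have := hq.1
      omega)
  refine ((A1.or A2).or A3).mono (le_of_eq rfl) ?_ T (fun p hp => (⟨hT p hp, T.min'_le p hp⟩ :
    (isS c.L c.R c.Y w p ∧ p ≤ y ∧ seg w p y ∈ c.F) ∧ x ≤ p))
  rintro p ⟨⟨⟨h1, h2, h3, h4⟩, h5, h6⟩, h7⟩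
  have e1 : (w.take y).take p = w.take p := by rw [List.take_take, Nat.min_eq_left h5]
  have e2 : (w.take y).drop p = seg w p y := rfl
  have e3 : (w.drop x).drop (p - x) = w.drop p := by rw [List.drop_drop]; congr 1; omega
  have e4 : (w.drop x).take (p - x) = seg w x p := by
    unfold seg
    rw [List.take_drop]
    congr 2
    omega
  have e5 : seg w p y ++ w.drop y = w.drop p := by
    rw [← seg_len w y, ← seg_len w p, seg_append w h5 hy]
  have e6 : seg w 0 x ++ seg w x p = w.take p := by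
    rw [seg_append w (Nat.zero_le _) h7, seg_zero]
  by_cases hL : seg w p y ∈ c.L
  · by_cases hR : seg w x p ∈ c.R
    · left; left
      refine ⟨h7, ?_, ?_, ?_, ?_⟩
      · rw [seg_length w hy]; omega
      · rw [take_seg w h7 h5]; exact hR
      · rw [drop_seg w h7]; exact hL
      · rw [drop_seg w h7]
        rintro ⟨y', hy', l, hl, he⟩
        exact h4 ⟨y', hy', l ++ w.drop y, c.Lext _ _ hl, by
          rw [← List.append_assoc, he, e5]⟩
    · right
      refine ⟨h7, ?_, ?_, ?_, ?_⟩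
      · simp; omega
      · rw [e3]; exact h3
      · rw [e4]; exact hR
      · rw [e4]; exact ⟨seg w 0 x, by rw [e6]; exact h2⟩
  · left; right
    refine ⟨?_, ?_, ?_, ?_⟩
    · simp; omega
    · rw [e1]; exact h2
    · rw [e2]; exact hL
    · rw [e2]; exact ⟨w.drop y, by rw [e5]; exact h3⟩

theorem claimW' {w : List α} {x : ℕ} :
    AtMost c.NW (fun p => isE c.L c.R c.Y w p ∧ x ≤ p ∧ seg w x p ∈ c.F) := by
  intro T hT
  rcases T.eq_empty_or_nonempty with rfl | hne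
  · simp
  set y := T.max' hne with hy
  obtain ⟨hyS, hxy, hxF⟩ := hT y (T.max'_mem hne)
  have hyw : y ≤ w.length := hyS.1
  have A1 : AtMost c.n (fun p => x ≤ p ∧ isE c.L c.R c.Y (seg w x y) (p - x)) :=
    (c.bE _ hxF).map (fun p => p - x) (fun p hp => hp.2) (fun p q hp hq h => by
      have h : p - x = q - x := h
      have := hp.1
      have := hq.1
      omega)
  have A2 := c.bL (w.take y)
  have A3 : AtMost c.NR (fun p => x ≤ p ∧ (p - x ≤ (w.drop x).length ∧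
      (w.drop x).drop (p - x) ∈ c.L ∧ (w.drop x).take (p - x) ∉ c.R ∧
      (w.drop x).take (p - x) ∈ quoL c.R)) :=
    (c.bR (w.drop x)).map (fun p => p - x) (fun p hp => hp.2) (fun p q hp hq h => by
      have h : p - x = q - x := h
      have := hp.1
      have := hq.1
      omega)
  refine ((A1.or A2).or A3).mono (le_of_eq rfl) ?_ T (fun p hp => (⟨hT p hp, T.le_max' p hp⟩ :
    (isE c.L c.R c.Y w p ∧ x ≤ p ∧ seg w x p ∈ c.F) ∧ p ≤ y))
  rintro p ⟨⟨⟨h1, h2, h3, h4⟩, h7, h6⟩, h5⟩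
  have e1 : (w.take y).take p = w.take p := by rw [List.take_take, Nat.min_eq_left h5]
  have e2 : (w.take y).drop p = seg w p y := rfl
  have e3 : (w.drop x).drop (p - x) = w.drop p := by rw [List.drop_drop]; congr 1; omega
  have e4 : (w.drop x).take (p - x) = seg w x p := by
    unfold seg
    rw [List.take_drop]
    congr 2
    omega
  have e5 : seg w p y ++ w.drop y = w.drop p := by
    rw [← seg_len w y, ← seg_len w p, seg_append w h5 hyw]
  have e6 : seg w 0 x ++ seg w x p = w.take p := by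
    rw [seg_append w (Nat.zero_le _) h7, seg_zero]
  by_cases hL : seg w p y ∈ c.L
  · by_cases hR : seg w x p ∈ c.R
    · left; left
      refine ⟨h7, ?_, ?_, ?_, ?_⟩
      · rw [seg_length w hyw]; omega
      · rw [take_seg w h7 h5]; exact hR
      · rw [drop_seg w h7]; exact hL
      · rw [take_seg w h7 h5]
        rintro ⟨r, hr, y', hy', he⟩
        exact h4 ⟨seg w 0 x ++ r, c.Rext _ _ hr, y', hy', by
          rw [List.append_assoc, he, e6]⟩
    · right
      refine ⟨h7, ?_, ?_, ?_, ?_⟩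
      · simp; omega
      · rw [e3]; exact h3
      · rw [e4]; exact hR
      · rw [e4]; exact ⟨seg w 0 x, by rw [e6]; exact h2⟩
  · left; right
    refine ⟨?_, ?_, ?_, ?_⟩
    · simp; omega
    · rw [e1]; exact h2
    · rw [e2]; exact hL
    · rw [e2]; exact ⟨w.drop y, by rw [e5]; exact h3⟩

theorem atMost_E3 {w : List α} (hw : w ∈ c.Fp) :
    AtMost (c.NW + c.NW) (fun p => isS c.L c.R c.Y w p ∧ seg w p w.length ∉ c.J2) := by
  set N := w.length with hN
  by_cases hex : ∃ x, x ≤ N ∧ seg w x N ∉ c.F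
  · obtain ⟨x0, hx0, hx0F⟩ := hex
    set y := Nat.findGreatest (fun x => seg w x N ∉ c.F) N with hy
    have hyF : seg w y N ∉ c.F := Nat.findGreatest_spec (P := fun x => seg w x N ∉ c.F) hx0 hx0F
    have hyN : y ≤ N := Nat.findGreatest_le N
    refine ((claimW (c := c) (w := w) (y := N) le_rfl).or (claimW (c := c) (w := w) hyN)).mono
      le_rfl ?_
    rintro p ⟨hp, hpJ⟩
    by_cases hpF : seg w p N ∈ c.F
    · exact Or.inl ⟨hp, hp.1, hpF⟩
    · right
      have hpy : p ≤ y := Nat.le_findGreatest (P := fun x => seg w x N ∉ c.F) hp.1 hpF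
      refine ⟨hp, hpy, ?_⟩
      by_contra hcon
      exact hpJ ⟨iFp hw _ _, _, _, hcon, hyF, seg_append w hpy hyN⟩
  · refine (claimW (c := c) (w := w) (y := N) le_rfl).mono (by omega) ?_
    rintro p ⟨hp, hpJ⟩
    refine ⟨hp, hp.1, ?_⟩
    by_contra hcon
    exact hex ⟨p, hp.1, hcon⟩

theorem atMost_E3' {w : List α} (hw : w ∈ c.Fp) :
    AtMost (c.NW + c.NW) (fun p => isE c.L c.R c.Y w p ∧ seg w 0 p ∉ c.J2) := by
  set N := w.length with hN
  by_cases hex : ∃ x, seg w 0 x ∉ c.F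
  · set y := Nat.find hex with hy
    have hyF : seg w 0 y ∉ c.F := Nat.find_spec hex
    refine ((claimW' (c := c) (w := w) (x := 0)).or (claimW' (c := c) (w := w) (x := y))).mono
      le_rfl ?_
    rintro p ⟨hp, hpJ⟩
    by_cases hpF : seg w 0 p ∈ c.F
    · exact Or.inl ⟨hp, Nat.zero_le _, hpF⟩
    · right
      have hpy : y ≤ p := Nat.find_min' hex hpF
      refine ⟨hp, hpy, ?_⟩
      by_contra hcon
      exact hpJ ⟨iFp hw _ _, _, _, hyF, hcon, seg_append w (Nat.zero_le _) hpy⟩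
  · refine (claimW' (c := c) (w := w) (x := 0)).mono (by omega) ?_
    rintro p ⟨hp, hpJ⟩
    refine ⟨hp, Nat.zero_le _, ?_⟩
    by_contra hcon
    exact hex ⟨p, hcon⟩

/-- bound for the useless ends -/
def NE (c : Ctx α) : ℕ := c.N1' + (c.NW + c.NW)

/-- bound for the useless starts -/
def NS (c : Ctx α) : ℕ := c.N1 + (c.NW + c.NW)

theorem atMost_S_St {w : List α} (hw : w ∈ c.Fp) :
    AtMost c.NS (fun p => isS c.L c.R c.Y w p ∧ ¬ c.St w 0 w.length p) := by
  refine ((c.b1 w).or (atMost_E3 hw)).mono le_rfl ?_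
  rintro p ⟨hp, hpS⟩
  by_cases h1 : w.drop p ∈ quoR (cat c.Y c.L)
  · exact Or.inl ⟨hp.1, hp.2.1, hp.2.2.2, h1⟩
  · right
    refine ⟨hp, fun hJ => hpS ⟨Nat.zero_le _, hp.1, hp.2.1, hJ, iFp hw _ _, ?_, ?_⟩⟩
    · rw [seg_len]; exact hp.2.2.1
    · intro s hs
      rw [seg_len] at hs
      exact h1 ⟨s, hs⟩

theorem atMost_E_En {w : List α} (hw : w ∈ c.Fp) :
    AtMost c.NE (fun p => isE c.L c.R c.Y w p ∧ ¬ c.En w 0 w.length p) := by
  refine ((c.b1' w).or (atMost_E3' hw)).mono le_rfl ?_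
  rintro p ⟨hp, hpS⟩
  by_cases h1 : w.take p ∈ quoL (cat c.R c.Y)
  · exact Or.inl ⟨hp.1, hp.2.2.1, hp.2.2.2, h1⟩
  · right
    refine ⟨hp, fun hJ => hpS ⟨Nat.zero_le _, hp.1, by rw [seg_len]; exact hp.2.2.1, hJ,
      iFp hw _ _, hp.2.1, ?_⟩⟩
    intro s hs
    exact h1 ⟨s, hs⟩

theorem St_isS {w : List α} {p : ℕ} (h : c.St w 0 w.length p) : isS c.L c.R c.Y w p := by
  obtain ⟨h1, h2, h3, h4, h5⟩ := h
  rw [seg_len] at h5
  refine ⟨h2, h3, h5.2.1, fun h => h5.2.2 [] (by simpa using h)⟩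

theorem cnt_S_E (w : List α) {x y : ℕ} (hxy : x ≤ y) (hy : y ≤ w.length) :
    cntIco (isS c.L c.R c.Y w) x y ≤ cntIco (isE c.L c.R c.Y w) x y + c.NP := by
  -- all cutting positions
  set G : ℕ → Prop := fun p => p ≤ w.length ∧ w.take p ∈ c.R ∧ w.drop p ∈ c.L with hG
  have hSG : ∀ p, isS c.L c.R c.Y w p ↔ G p ∧ w.drop p ∉ cat c.Y c.L := by
    intro p; simp only [hG, isS]; tauto
  have hEG : ∀ p, isE c.L c.R c.Y w p ↔ G p ∧ w.take p ∉ cat c.R c.Y := by
    intro p; simp only [hG, isE]; tauto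
  have hpred : ∀ g, ∃ b, (G g ∧ w.take g ∈ cat c.R c.Y) →
      b ≤ g ∧ seg w b g ∈ c.Y ∧ w.take b ∈ c.R := by
    intro g
    by_cases h : G g ∧ w.take g ∈ cat c.R c.Y
    · obtain ⟨h1, r, hr, y', hy', he⟩ := h
      have hlen := congrArg List.length he
      rw [List.length_append, List.length_take, Nat.min_eq_left h1.1] at hlen
      have htk : w.take r.length = r := by
        have : (w.take g).take r.length = r := by rw [← he]; simp
        rwa [List.take_take, Nat.min_eq_left (by omega)] at this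
      refine ⟨r.length, fun _ => ⟨by omega, ?_, ?_⟩⟩
      · have : seg w r.length g = y' := by
          unfold seg
          rw [← he]; simp
        rw [this]; exact hy'
      · rw [htk]; exact hr
    · exact ⟨0, fun h' => absurd h' h⟩
  choose pd hpd using hpred
  have hinj : ∀ g g', (G g ∧ w.take g ∈ cat c.R c.Y) → (G g' ∧ w.take g' ∈ cat c.R c.Y) →
      pd g = pd g' → g = g' := by
    intro g g' h h' he
    obtain ⟨h1, h2, h3⟩ := hpd g h
    obtain ⟨h1', h2', h3'⟩ := hpd g' h'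
    have e1 : seg w (pd g) g ++ w.drop g = w.drop (pd g) := by
      rw [← seg_len w g, ← seg_len w (pd g), seg_append w h1 h.1.1]
    have e2 : seg w (pd g') g' ++ w.drop g' = w.drop (pd g') := by
      rw [← seg_len w g', ← seg_len w (pd g'), seg_append w h1' h'.1.1]
    have e3 := c.dL _ h2 _ h2' _ h.1.2.2 _ h'.1.2.2 (by rw [e1, e2, he])
    have e4 := congrArg List.length e3
    rw [seg_length w h.1.1, seg_length w h'.1.1] at e4
    omega
  have hkey : ((Finset.Ico x y).filter (fun g => G g ∧ w.take g ∈ cat c.R c.Y)).card ≤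
      ((Finset.Ico x y).filter (fun g => G g ∧ w.drop g ∈ cat c.Y c.L)).card + c.NP := by
    have h1 := Finset.card_filter_add_card_filter_not
      (s := (Finset.Ico x y).filter (fun g => G g ∧ w.take g ∈ cat c.R c.Y)) (fun g => x ≤ pd g)
    have h2 : (((Finset.Ico x y).filter (fun g => G g ∧ w.take g ∈ cat c.R c.Y)).filter
        (fun g => x ≤ pd g)).card ≤
        ((Finset.Ico x y).filter (fun g => G g ∧ w.drop g ∈ cat c.Y c.L)).card := by
      refine Finset.card_le_card_of_injOn pd ?_ ?_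
      · intro g hg
        simp only [Finset.coe_filter, Finset.mem_filter, Finset.mem_Ico, Set.mem_ofPred_eq] at hg ⊢
        obtain ⟨⟨⟨h3, h4⟩, h5⟩, h6⟩ := hg
        obtain ⟨h7, h8, h9⟩ := hpd g h5
        have e1 : seg w (pd g) g ++ w.drop g = w.drop (pd g) := by
          rw [← seg_len w g, ← seg_len w (pd g), seg_append w h7 h5.1.1]
        have h10 : w.drop (pd g) ∈ cat c.Y c.L := ⟨_, h8, _, h5.1.2.2, e1⟩
        refine ⟨⟨h6, by omega⟩, ⟨h7.trans h5.1.1, h9, ?_⟩, h10⟩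
        rw [← e1]
        exact c.YL _ h8 _ h5.1.2.2
      · intro g hg g' hg' he
        simp only [Finset.coe_filter, Finset.mem_filter, Set.mem_ofPred_eq] at hg hg'
        exact hinj g g' hg.1.2 hg'.1.2 he
    have h3 : (((Finset.Ico x y).filter (fun g => G g ∧ w.take g ∈ cat c.R c.Y)).filter
        (fun g => ¬ x ≤ pd g)).card ≤ c.NP := by
      refine ((c.bP (w.take x)).map (P := fun g => (x ≤ g ∧ (G g ∧ w.take g ∈ cat c.R c.Y)) ∧
        ¬ x ≤ pd g) pd ?_ ?_) _ ?_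
      · rintro g ⟨⟨h4, h5⟩, h6⟩
        obtain ⟨h7, h8, h9⟩ := hpd g h5
        refine ⟨?_, ?_, seg w x g, ?_⟩
        · rw [List.length_take, Nat.min_eq_left (hxy.trans hy)]; omega
        · rw [List.take_take, Nat.min_eq_left (by omega)]; exact h9
        · have : (w.take x).drop (pd g) = seg w (pd g) x := rfl
          rw [this, seg_append w (by omega) h4]
          exact h8
      · intro g g' hg hg' he
        exact hinj g g' hg.1.2 hg'.1.2 he
      · intro g hg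
        simp only [Finset.mem_filter, Finset.mem_Ico] at hg
        exact ⟨⟨hg.1.1.1, hg.1.2⟩, hg.2⟩
    omega
  -- two decompositions of the cutting positions
  have d1 := Finset.card_filter_add_card_filter_not (s := (Finset.Ico x y).filter G)
    (fun g => w.drop g ∈ cat c.Y c.L)
  have d2 := Finset.card_filter_add_card_filter_not (s := (Finset.Ico x y).filter G)
    (fun g => w.take g ∈ cat c.R c.Y)
  simp only [Finset.filter_filter] at d1 d2
  have e1 : cntIco (isS c.L c.R c.Y w) x y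
      = ((Finset.Ico x y).filter (fun g => G g ∧ ¬ w.drop g ∈ cat c.Y c.L)).card := by
    unfold cntIco
    congr 1
    exact Finset.filter_congr fun g _ => hSG g
  have e2 : cntIco (isE c.L c.R c.Y w) x y
      = ((Finset.Ico x y).filter (fun g => G g ∧ ¬ w.take g ∈ cat c.R c.Y)).card := by
    unfold cntIco
    congr 1
    exact Finset.filter_congr fun g _ => hEG g
  rw [e1, e2]
  omega

/-- the bound on the balance -/
def CC (c : Ctx α) : ℕ := c.NP + 1 + c.NE

theorem Dsum_le {w : List α} (hw : w ∈ c.Fp) {x y : ℕ} (hxy : x ≤ y) (hy : y ≤ w.length) :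
    Dsum (c.St w 0 w.length) (c.En w 0 w.length) x y ≤ c.CC := by
  rw [Dsum_eq _ _ hxy]
  have h1 : cntIco (c.St w 0 w.length) x y ≤ cntIco (isS c.L c.R c.Y w) x y :=
    cntIco_mono fun p _ _ h => St_isS h
  have h2 := cnt_S_E (c := c) w hxy hy
  have h3 := cntIco_cntIoc (isE c.L c.R c.Y w) hxy
  have h4 : cntIoc (isE c.L c.R c.Y w) x y ≤ cntIoc (c.En w 0 w.length) x y + c.NE :=
    cntIoc_le_of_atMost (atMost_E_En hw)
  have h5 : (if isE c.L c.R c.Y w x then 1 else 0) ≤ 1 := by split_ifs <;> omega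
  unfold CC
  push_cast
  omega

/-- the covering lemma -/
theorem cover {w : List α} (hw : w ∈ c.Fp) {p a b q : ℕ}
    (hp : c.St w 0 w.length p)
    (hpa : p < a) (haN : a ≤ w.length) (ha : c.St w 0 w.length a)
    (haφ : c.φ.f (seg w a w.length) = c.φ.f (seg w p w.length))
    (hak : cntIoc (fun x => c.St w 0 w.length x ∧
      c.φ.f (seg w x w.length) = c.φ.f (seg w p w.length)) p a = 2 * c.mm)
    (hab : a < b) (hbN : b ≤ w.length)
    (hD : Dsum (c.St w 0 w.length) (c.En w 0 w.length) a b = 0)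
    (hD1 : ∀ v, a < v → v < b → 1 ≤ Dsum (c.St w 0 w.length) (c.En w 0 w.length) a v)
    (hb : c.En w 0 w.length b)
    (hbq : b < q) (hqN : q ≤ w.length) (hq : c.En w 0 w.length q)
    (hqφ : c.φ.f (seg w 0 q) = c.φ.f (seg w 0 b))
    (hqk : cntIoc (fun x => c.En w 0 w.length x ∧
      c.φ.f (seg w 0 x) = c.φ.f (seg w 0 b)) b q = 2 * c.mm) :
    c.Zi c.CC w p q := by
  set N := w.length with hN
  have hm1 : 1 ≤ c.mm := by unfold mm; omega
  obtain ⟨p1, p2, p3, p4, p5⟩ := hp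
  obtain ⟨q1, q2, q3, q4, q5⟩ := hq
  -- the two long lanes
  have hJa : seg w p a ∈ c.J2 := by
    refine laneJ2 hw (i' := 0) (i := p) (k := a) (j := N) (Nat.zero_le _) haN le_rfl p5
      ((Finset.Ioc p a).filter (fun x => c.St w 0 N x ∧
        c.φ.f (seg w x N) = c.φ.f (seg w p N))) ?_ (by
          have := hak.symm
          unfold cntIoc at this
          refine le_of_eq ?_
          convert this)
    intro x hx
    simp only [Finset.mem_filter, Finset.mem_Ioc] at hx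
    obtain ⟨⟨h1, h2⟩, ⟨h3, h4, h5, h6, h7⟩, h8⟩ := hx
    exact ⟨h1, h2, h5, h7, h8⟩
  have hcq : cntIco (fun x => c.En w 0 N x ∧
      c.φ.f (seg w 0 x) = c.φ.f (seg w 0 b)) b q = 2 * c.mm := by
    have h1 := cntIco_cntIoc (fun x => c.En w 0 N x ∧
      c.φ.f (seg w 0 x) = c.φ.f (seg w 0 b)) hbq.le
    rw [if_pos ⟨⟨q1, q2, q3, q4, q5⟩, hqφ⟩, if_pos ⟨hb, rfl⟩] at h1
    omega
  have hJb : seg w b q ∈ c.J2 := by
    refine laneJ2' hw (i := 0) (k := b) (j := q) (j' := N) (Nat.zero_le _) hqN hqN q5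
      ((Finset.Ico b q).filter (fun x => c.En w 0 N x ∧
        c.φ.f (seg w 0 x) = c.φ.f (seg w 0 b))) ?_ (by
          have := hcq.symm
          unfold cntIco at this
          refine le_of_eq ?_
          convert this)
    intro x hx
    simp only [Finset.mem_filter, Finset.mem_Ico] at hx
    obtain ⟨⟨h1, h2⟩, ⟨h3, h4, h5, h6, h7⟩, h8⟩ := hx
    exact ⟨h1, h2, h5, h7, h8.trans hqφ.symm⟩
  have hJl : ∀ x, a ≤ x → seg w p x ∈ c.J2 := fun x hx => iJ2 hw le_rfl hpa.le hx hJa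
  have hJr : ∀ x, x ≤ b → seg w x q ∈ c.J2 := fun x hx => iJ2 hw hx hbq.le le_rfl hJb
  have hzJ : seg w p q ∈ c.J2 := hJl q (by omega)
  have hzS : seg w p q ∈ c.Sg := i4 (by omega) hqN hzJ p5
  have hzS' : seg w p q ∈ c.Sg' := i4' (Nat.zero_le _) (by omega) hzJ q5
  -- lanes
  have hLam : ∀ x, p ≤ x → x ≤ b → (c.Lam w p q x ↔ p < x ∧ (c.St w 0 N x ∧
      c.φ.f (seg w x N) = c.φ.f (seg w p N))) := by
    intro x hx hxb
    constructor
    · rintro ⟨h1, ⟨h2, h3, h4, h5, h6⟩, h7⟩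
      exact ⟨h1, ⟨Nat.zero_le _, by omega, iR (Nat.zero_le _) hx h4, iJ2 hw le_rfl h3 hqN h5,
        iSg hw h3 hqN h6⟩, icR h3 (by omega) hqN h7⟩
    · rintro ⟨h1, ⟨h2, h3, h4, h5, h6⟩, h7⟩
      refine ⟨h1, ⟨hx, by omega, ?_, hJr x hxb, i4 (by omega) hqN (hJr x hxb) h6⟩, ?_⟩
      · exact laneR (Nat.zero_le _) h1 h3 h3 p5 h6 h7 h4
      · exact igR hw h1.le (by omega) hqN (J2_notF (hJr x hxb)) h7
  have hLam' : ∀ x, a ≤ x → x ≤ q → (c.Lam' w p q x ↔ x < q ∧ (c.En w 0 N x ∧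
      c.φ.f (seg w 0 x) = c.φ.f (seg w 0 b))) := by
    intro x hx hxq
    constructor
    · rintro ⟨h1, ⟨h2, h3, h4, h5, h6⟩, h7⟩
      exact ⟨h1, ⟨Nat.zero_le _, by omega, iL h3 hqN h4, iJ2 hw (Nat.zero_le _) h2 le_rfl h5,
        iSg' hw (Nat.zero_le _) h2 h6⟩,
        (icL (Nat.zero_le _) h2 (by omega) h7).trans hqφ⟩
    · rintro ⟨h1, ⟨h2, h3, h4, h5, h6⟩, h7⟩
      have hJx := hJl x hx
      refine ⟨h1, ⟨by omega, by omega, ?_, hJx, i4' (Nat.zero_le _) (by omega) hJx h6⟩, ?_⟩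
      · exact laneL (Nat.zero_le _) h1 hqN hqN q5 h6 (h7.trans hqφ.symm) h4
      · exact igL hw (Nat.zero_le _) (by omega) (by omega) (J2_notF hJx) (h7.trans hqφ.symm)
  have hSt : ∀ x, a ≤ x → x ≤ b → (c.St w p q x ↔ c.St w 0 N x) := by
    intro x hx hxb
    constructor
    · rintro ⟨h2, h3, h4, h5, h6⟩
      exact ⟨Nat.zero_le _, by omega, iR (Nat.zero_le _) h2 h4, iJ2 hw le_rfl h3 hqN h5,
        iSg hw h3 hqN h6⟩
    · rintro ⟨h2, h3, h4, h5, h6⟩
      exact ⟨by omega, by omega, ifrzR hw (Nat.zero_le _) (by omega) (J2_notF (hJl x hx)) h4,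
        hJr x hxb, i4 (by omega) hqN (hJr x hxb) h6⟩
  have hEn : ∀ x, a ≤ x → x ≤ b → (c.En w p q x ↔ c.En w 0 N x) := by
    intro x hx hxb
    constructor
    · rintro ⟨h2, h3, h4, h5, h6⟩
      exact ⟨Nat.zero_le _, by omega, iL h3 hqN h4, iJ2 hw (Nat.zero_le _) h2 le_rfl h5,
        iSg' hw (Nat.zero_le _) h2 h6⟩
    · rintro ⟨h2, h3, h4, h5, h6⟩
      exact ⟨by omega, by omega, ifrzL hw (by omega) hqN (J2_notF (hJr x hxb)) h4,
        hJl x hx, i4' (Nat.zero_le _) (by omega) (hJl x hx) h6⟩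
  have hDD : ∀ v, a ≤ v → v ≤ b → Dsum (c.St w p q) (c.En w p q) a v
      = Dsum (c.St w 0 N) (c.En w 0 N) a v := by
    intro v hv hv'
    exact Dsum_congr (fun x hx hx' => hSt x hx (by omega)) (fun x hx hx' => hEn x (by omega) (by omega))
  refine ⟨iFp hw _ _, hzS, hzS', a, b, hpa.le, hab, hbq.le, ?_, ?_, ?_, ?_, ?_, ?_, ?_⟩
  · exact (hLam a hpa.le hab.le).2 ⟨hpa, ha, haφ⟩
  · exact (hLam' b hab.le hbq.le).2 ⟨hbq, hb, rfl⟩
  · have h1 : cntIco (c.Lam w p q) p a = cntIco (fun x => p < x ∧ (c.St w 0 N x ∧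
        c.φ.f (seg w x N) = c.φ.f (seg w p N))) p a :=
      cntIco_congr fun x hx hx' => hLam x hx (by omega)
    have h2 := cntIco_cntIoc (fun x => p < x ∧ (c.St w 0 N x ∧
        c.φ.f (seg w x N) = c.φ.f (seg w p N))) hpa.le
    rw [if_pos ⟨hpa, ha, haφ⟩, if_neg (fun h => lt_irrefl _ h.1)] at h2
    have h3 : cntIoc (fun x => p < x ∧ (c.St w 0 N x ∧
        c.φ.f (seg w x N) = c.φ.f (seg w p N))) p a = 2 * c.mm := by
      rw [← hak]
      exact cntIoc_congr fun x hx hx' => ⟨fun h => h.2, fun h => ⟨hx, h⟩⟩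
    omega
  · have h1 : cntIoc (c.Lam' w p q) b q = cntIoc (fun x => x < q ∧ (c.En w 0 N x ∧
        c.φ.f (seg w 0 x) = c.φ.f (seg w 0 b))) b q :=
      cntIoc_congr fun x hx hx' => hLam' x (by omega) hx'
    have h2 := cntIco_cntIoc (fun x => x < q ∧ (c.En w 0 N x ∧
        c.φ.f (seg w 0 x) = c.φ.f (seg w 0 b))) hbq.le
    rw [if_neg (fun h => lt_irrefl _ h.1), if_pos ⟨hbq, hb, rfl⟩] at h2
    have h3 : cntIco (fun x => x < q ∧ (c.En w 0 N x ∧
        c.φ.f (seg w 0 x) = c.φ.f (seg w 0 b))) b q = 2 * c.mm := by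
      rw [← hcq]
      exact cntIco_congr fun x hx hx' => ⟨fun h => h.2, fun h => ⟨hx', h⟩⟩
    omega
  · rw [hDD b hab.le le_rfl, hD]
  · intro v hv hv'
    rw [hDD v hv.le hv'.le]
    exact hD1 v hv hv'
  · intro v hv hv'
    rw [hDD v hv hv']
    exact Dsum_le hw hv (by omega)

/-- transport along a relation -/
theorem _root_.Pool.Agent.W_MP_733b23_lc.AtMost.rel {N : ℕ} {P Q : ℕ → Prop} (h : AtMost N Q)
    (r : ℕ → ℕ → Prop) (hf : ∀ x, P x → ∃ y, Q y ∧ r x y)
    (hi : ∀ x x' y, P x → P x' → r x y → r x' y → x = x') : AtMost N P := by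
  have hex : ∀ x, ∃ y, P x → Q y ∧ r x y := by
    intro x
    by_cases hx : P x
    · obtain ⟨y, hy⟩ := hf x hx
      exact ⟨y, fun _ => hy⟩
    · exact ⟨0, fun h => absurd h hx⟩
  choose f hf' using hex
  refine h.map f (fun x hx => (hf' x hx).1) ?_
  intro x y hx hy e
  exact hi x y (f x) hx hy (hf' x hx).2 (by rw [e]; exact (hf' y hy).2)

/-- the new index bound -/
noncomputable def nn (c : Ctx α) : ℕ :=
  c.NS + (2 * c.mm * Nat.card c.φ.M + ((c.CC + 1) + 2 * c.mm * Nat.card c.φ.M))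

theorem bounded {w : List α} (hw : w ∈ c.Fp) :
    AtMost c.nn (isS c.L c.R (c.Y ∪ c.Z c.CC) w) := by
  set N := w.length with hN
  have hm1 : 1 ≤ c.mm := by unfold mm; omega
  -- lanes
  let ln : ℕ → ℕ → Prop := fun p x => c.St w 0 N x ∧ c.φ.f (seg w x N) = c.φ.f (seg w p N)
  let ln' : ℕ → ℕ → Prop := fun b x => c.En w 0 N x ∧ c.φ.f (seg w 0 x) = c.φ.f (seg w 0 b)
  let S := c.St w 0 N
  let E := c.En w 0 N
  -- relation between a start and its lane successor
  let r1 : ℕ → ℕ → Prop := fun p a => S p ∧ p < a ∧ a ≤ N ∧ ln p a ∧ cntIoc (ln p) p a = 2 * c.mm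
  let r2 : ℕ → ℕ → Prop := fun a b => a < b ∧ b ≤ N ∧ Dsum S E a b = 0 ∧
    (∀ v, a < v → v < b → 1 ≤ Dsum S E a v) ∧ E b
  let r3 : ℕ → ℕ → Prop := fun b q => b < q ∧ q ≤ N ∧ ln' b q ∧ cntIoc (ln' b) b q = 2 * c.mm
  have hr1 : ∀ x x' y, r1 x y → r1 x' y → x = x' := by
    rintro x x' y ⟨h1, h2, h3, h4, h5⟩ ⟨h1', h2', h3', h4', h5'⟩
    have he : c.φ.f (seg w x N) = c.φ.f (seg w x' N) := h4.2.symm.trans h4'.2
    have hln : ln x = ln x' := by
      funext z
      show (c.St w 0 N z ∧ c.φ.f (seg w z N) = c.φ.f (seg w x N)) = _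
      rw [he]
    rw [hln] at h5
    refine cntIoc_unique (A := ln x') h2.le h2'.le ⟨h1, he⟩ ⟨h1', rfl⟩ (h5.trans h5'.symm)
  have hr2 : ∀ x x' y, r2 x y → r2 x' y → x = x' := by
    rintro x x' y ⟨h1, h2, h3, h4, h5⟩ ⟨h1', h2', h3', h4', h5'⟩
    exact match_unique_left h1 h1' h3 h4 h3' h4'
  -- three families of failures
  have F1 : AtMost (2 * c.mm * Nat.card c.φ.M) (fun p => S p ∧ cntIoc (ln p) p N < 2 * c.mm) := by
    refine AtMost.lanes (fun p => c.φ.f (seg w p N)) (fun d => ?_)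
    refine (atMost_few (fun x => S x ∧ c.φ.f (seg w x N) = d) (2 * c.mm) N).mono le_rfl ?_
    rintro p ⟨⟨h1, h2⟩, rfl⟩
    exact ⟨⟨h1, rfl⟩, h1.2.1, h2⟩
  have F2 : AtMost (c.CC + 1) (fun p => ∃ a, r1 p a ∧ ∀ v, a < v → v ≤ N → 1 ≤ Dsum S E a v) := by
    refine (atMost_unmatched (s := S) (e := E) (N := N) (C := c.CC) ?_).rel r1 ?_ ?_
    · intro x hx
      exact Dsum_le hw hx le_rfl
    · rintro p ⟨a, h1, h2⟩
      exact ⟨a, ⟨h1.2.2.1, h2⟩, h1⟩
    · intro x x' y _ _ h h'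
      exact hr1 x x' y h h'
  have F3 : AtMost (2 * c.mm * Nat.card c.φ.M) (fun p => ∃ a b, r1 p a ∧ r2 a b ∧
      cntIoc (ln' b) b N < 2 * c.mm) := by
    have h0 : AtMost (2 * c.mm * Nat.card c.φ.M)
        (fun b => E b ∧ cntIoc (ln' b) b N < 2 * c.mm) := by
      refine AtMost.lanes (fun p => c.φ.f (seg w 0 p)) (fun d => ?_)
      refine (atMost_few (fun x => E x ∧ c.φ.f (seg w 0 x) = d) (2 * c.mm) N).mono le_rfl ?_
      rintro p ⟨⟨h1, h2⟩, rfl⟩
      exact ⟨⟨h1, rfl⟩, h1.2.1, h2⟩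
    refine h0.rel (fun p b => ∃ a, r1 p a ∧ r2 a b) ?_ ?_
    · rintro p ⟨a, b, h1, h2, h3⟩
      exact ⟨b, ⟨h2.2.2.2.2, h3⟩, a, h1, h2⟩
    · rintro x x' y _ _ ⟨a, h1, h2⟩ ⟨a', h1', h2'⟩
      have := hr2 _ _ _ h2 h2'
      subst this
      exact hr1 _ _ _ h1 h1'
  refine ((atMost_S_St hw).or (F1.or (F2.or F3))).mono le_rfl ?_
  intro p hp
  have hp' : isS c.L c.R c.Y w p := by
    refine ⟨hp.1, hp.2.1, hp.2.2.1, fun h => hp.2.2.2 ?_⟩
    exact cat_mono Set.subset_union_left (le_refl _) h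
  by_cases hS : S p
  · right
    by_cases h1 : cntIoc (ln p) p N < 2 * c.mm
    · exact Or.inl ⟨hS, h1⟩
    right
    obtain ⟨a, ha1, ha2, ha3, ha4⟩ := kth (A := ln p) (k := 2 * c.mm) (p := p) (N := N)
      (by omega) (by omega)
    have hra : r1 p a := ⟨hS, ha1, ha2, ha3, ha4⟩
    by_cases h2 : ∀ v, a < v → v ≤ N → 1 ≤ Dsum S E a v
    · exact Or.inl ⟨a, hra, h2⟩
    right
    have h2' : ∃ v, a < v ∧ v ≤ N ∧ Dsum S E a v ≤ 0 := by
      push Not at h2
      obtain ⟨v, hv1, hv2, hv3⟩ := h2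
      exact ⟨v, hv1, hv2, by omega⟩
    obtain ⟨b, hb1, hb2, hb3, hb4, hb5⟩ := first_return ha3.1 h2'
    have hrb : r2 a b := ⟨hb1, hb2, hb3, hb4, hb5⟩
    by_contra hcon
    have h3 : 2 * c.mm ≤ cntIoc (ln' b) b N := by
      by_contra h
      exact hcon ⟨a, b, hra, hrb, by omega⟩
    obtain ⟨q, hq1, hq2, hq3, hq4⟩ := kth (A := ln' b) (k := 2 * c.mm) (p := b) (N := N)
      (by omega) h3
    have hz := cover hw hS ha1 ha2 ha3.1 ha3.2 ha4 hb1 hb2 hb3 hb4 hb5 hq1 hq2 hq3.1 hq3.2 hq4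
    rw [Zi_iff (by omega) hq2] at hz
    refine hp.2.2.2 ⟨seg w p q, Or.inr hz, seg w q N, hq3.1.2.2.1, ?_⟩
    rw [seg_append w (by omega) hq2, seg_len]
  · exact Or.inl ⟨hp', hS⟩

end Ctx

end Pool.Agent.W_MP_733b23_lc
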