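import Pool.Agent.W_MP_733b23_lc.Defs

set_option autoImplicit false

/-!
Bounds on the number of positions of a word at which a factorization fails.
-/

namespace Pool.Agent.W_MP_733b23_lc

variable {α : Type}

/-- positions where the right part is a prefix of a word of `V` -/
theorem atMost_prefix {V R : Set (List α)} (φ : FC α) (hφ : φ.Rec V)
    (hd : ∀ y ∈ V, ∀ y' ∈ V, ∀ r ∈ R, ∀ r' ∈ R, r ++ y = r' ++ y' → y = y') (w : List α) :
    AtMost (Nat.card φ.M) (fun x => x ≤ w.length ∧ w.take x ∈ R ∧ ∃ t, w.drop x ++ t ∈ V) := by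
  refine AtMost.label (M := φ.M) (fun x => φ.f (w.drop x)) ?_
  rintro x y ⟨hx, hxR, t, ht⟩ ⟨hy, hyR, -⟩ e
  have e' : φ.f (w.drop x) = φ.f (w.drop y) := e
  have h1 : w.drop y ++ t ∈ V := hφ _ _ (φ.congr e' rfl) ht
  have h2 : w.take x ++ (w.drop x ++ t) = w.take y ++ (w.drop y ++ t) := by
    rw [← List.append_assoc, ← List.append_assoc, List.take_append_drop, List.take_append_drop]
  have h3 := hd _ ht _ h1 _ hxR _ hyR h2
  have h4 := congrArg List.length (List.append_cancel_right h3)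
  simp only [List.length_drop] at h4
  omega

theorem atMost_suffix {V L : Set (List α)} (φ : FC α) (hφ : φ.Rec V)
    (hd : ∀ y ∈ V, ∀ y' ∈ V, ∀ l ∈ L, ∀ l' ∈ L, y ++ l = y' ++ l' → y = y') (w : List α) :
    AtMost (Nat.card φ.M) (fun x => x ≤ w.length ∧ w.drop x ∈ L ∧ ∃ t, t ++ w.take x ∈ V) := by
  refine AtMost.label (M := φ.M) (fun x => φ.f (w.take x)) ?_
  rintro x y ⟨hx, hxR, t, ht⟩ ⟨hy, hyR, -⟩ e
  have e' : φ.f (w.take x) = φ.f (w.take y) := e
  have h1 : t ++ w.take y ∈ V := hφ _ _ (φ.congr rfl e') ht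
  have h2 : (t ++ w.take x) ++ w.drop x = (t ++ w.take y) ++ w.drop y := by
    rw [List.append_assoc, List.append_assoc, List.take_append_drop, List.take_append_drop]
  have h3 := hd _ ht _ h1 _ hxR _ hyR h2
  have h4 := congrArg List.length (List.append_cancel_left h3)
  simp only [List.length_take] at h4
  omega

theorem atMost_stepL {V R Q : Set (List α)} (φ : FC α) (hφ : φ.Rec V)
    (hd : ∀ y ∈ V, ∀ y' ∈ V, ∀ r ∈ R, ∀ r' ∈ R, r ++ y = r' ++ y' → y = y')
    (hR : ∀ r ∈ R, ∀ y ∈ V, r ++ y ∈ R) (N : ℕ)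
    (hQ : ∀ w : List α, AtMost N (fun x => x ≤ w.length ∧ w.take x ∈ R ∧ w.drop x ∉ Q ∧
      w.drop x ∈ quoR Q)) (w : List α) :
    AtMost (Nat.card φ.M + N) (fun x => x ≤ w.length ∧ w.take x ∈ R ∧ w.drop x ∉ cat V Q ∧
      w.drop x ∈ quoR (cat V Q)) := by
  classical
  -- second family: `drop x = y ++ u` with `y ∈ V`, `u ∉ Q`, `u ∈ quoR Q`
  let P2 : ℕ → Prop := fun x => x ≤ w.length ∧ w.take x ∈ R ∧
    ∃ y u, y ∈ V ∧ y ++ u = w.drop x ∧ u ∉ Q ∧ u ∈ quoR Q
  have h2 : AtMost N P2 := by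
    let f : ℕ → ℕ := fun x => if h : P2 x then x + (h.2.2.choose).length else 0
    refine (hQ w).map f ?_ ?_
    · intro x hx
      have hf : f x = x + (hx.2.2.choose).length := dif_pos hx
      obtain ⟨hxw, hxR, hex⟩ := hx
      obtain ⟨u, hyV, hyu, huQ, huq⟩ := hex.choose_spec
      set y := hex.choose with hy
      have hlen : y.length + u.length = w.length - x := by
        have := congrArg List.length hyu
        simpa using this
      have hdrop : w.drop (x + y.length) = u := by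
        rw [← List.drop_drop, ← hyu]
        simp
      have htake : w.take (x + y.length) = w.take x ++ y := by
        rw [List.take_add, ← hyu]
        simp
      rw [hf]
      refine ⟨by omega, ?_, ?_, ?_⟩
      · rw [htake]; exact hR _ hxR _ hyV
      · rw [hdrop]; exact huQ
      · rw [hdrop]; exact huq
    · intro x x' hx hx' e
      have hf : f x = x + (hx.2.2.choose).length := dif_pos hx
      have hf' : f x' = x' + (hx'.2.2.choose).length := dif_pos hx'
      obtain ⟨hxw, hxR, hex⟩ := hx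
      obtain ⟨hxw', hxR', hex'⟩ := hx'
      obtain ⟨u, hyV, hyu, huQ, huq⟩ := hex.choose_spec
      obtain ⟨u', hyV', hyu', huQ', huq'⟩ := hex'.choose_spec
      rw [hf, hf'] at e
      set y := hex.choose with hy
      set y' := hex'.choose with hy'
      have htake : w.take (x + y.length) = w.take x ++ y := by
        rw [List.take_add, ← hyu]
        simp
      have htake' : w.take (x' + y'.length) = w.take x' ++ y' := by
        rw [List.take_add, ← hyu']
        simp
      have h3 : w.take x ++ y = w.take x' ++ y' := by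
        rw [← htake, ← htake', e]
      have h4 := hd _ hyV _ hyV' _ hxR _ hxR' h3
      rw [h4] at e
      omega
  refine ((atMost_prefix φ hφ hd w).or h2).mono le_rfl ?_
  rintro x ⟨hxw, hxR, hn, t, y, hyV, q, hqQ, hyq⟩
  rcases List.append_eq_append_iff.1 hyq with ⟨c, h1, h2⟩ | ⟨c, h1, h2⟩
  · -- drop x = y ++ c, q = c ++ t
    right
    refine ⟨hxw, hxR, y, c, hyV, h1.symm, ?_, ?_⟩
    · intro hc
      exact hn ⟨y, hyV, c, hc, h1.symm⟩
    · exact ⟨t, by rw [← h2]; exact hqQ⟩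
  · -- y = drop x ++ c
    left
    exact ⟨hxw, hxR, c, by rw [← h1]; exact hyV⟩

theorem atMost_stepR {V L Q : Set (List α)} (φ : FC α) (hφ : φ.Rec V)
    (hd : ∀ y ∈ V, ∀ y' ∈ V, ∀ l ∈ L, ∀ l' ∈ L, y ++ l = y' ++ l' → y = y')
    (hL : ∀ l ∈ L, ∀ y ∈ V, y ++ l ∈ L) (N : ℕ)
    (hQ : ∀ w : List α, AtMost N (fun x => x ≤ w.length ∧ w.drop x ∈ L ∧ w.take x ∉ Q ∧
      w.take x ∈ quoL Q)) (w : List α) :
    AtMost (Nat.card φ.M + N) (fun x => x ≤ w.length ∧ w.drop x ∈ L ∧ w.take x ∉ cat Q V ∧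
      w.take x ∈ quoL (cat Q V)) := by
  classical
  let P2 : ℕ → Prop := fun x => x ≤ w.length ∧ w.drop x ∈ L ∧
    ∃ y u, y ∈ V ∧ u ++ y = w.take x ∧ u ∉ Q ∧ u ∈ quoL Q
  have h2 : AtMost N P2 := by
    let f : ℕ → ℕ := fun x => if h : P2 x then x - (h.2.2.choose).length else 0
    have key : ∀ x (y u : List α), x ≤ w.length → u ++ y = w.take x →
        y.length ≤ x ∧ w.take (x - y.length) = u ∧ w.drop (x - y.length) = y ++ w.drop x := by
      intro x y u hx hyu
      have hlen : u.length + y.length = x := by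
        have := congrArg List.length hyu
        simp only [List.length_append, List.length_take] at this
        omega
      have hw : w = u ++ (y ++ w.drop x) := by
        rw [← List.append_assoc, hyu, List.take_append_drop]
      have hxu : x - y.length = u.length := by omega
      refine ⟨by omega, ?_, ?_⟩
      · rw [hxu]
        conv_lhs => rw [hw]
        simp
      · rw [hxu]
        conv_lhs => rw [hw]
        simp
    refine (hQ w).map f ?_ ?_
    · intro x hx
      have hf : f x = x - (hx.2.2.choose).length := dif_pos hx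
      obtain ⟨hxw, hxR, hex⟩ := hx
      obtain ⟨u, hyV, hyu, huQ, huq⟩ := hex.choose_spec
      set y := hex.choose with hy
      obtain ⟨k1, k2, k3⟩ := key x y u hxw hyu
      rw [hf]
      refine ⟨by omega, ?_, ?_, ?_⟩
      · rw [k3]; exact hL _ hxR _ hyV
      · rw [k2]; exact huQ
      · rw [k2]; exact huq
    · intro x x' hx hx' e
      have hf : f x = x - (hx.2.2.choose).length := dif_pos hx
      have hf' : f x' = x' - (hx'.2.2.choose).length := dif_pos hx'
      obtain ⟨hxw, hxR, hex⟩ := hx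
      obtain ⟨hxw', hxR', hex'⟩ := hx'
      obtain ⟨u, hyV, hyu, huQ, huq⟩ := hex.choose_spec
      obtain ⟨u', hyV', hyu', huQ', huq'⟩ := hex'.choose_spec
      rw [hf, hf'] at e
      set y := hex.choose with hy
      set y' := hex'.choose with hy'
      obtain ⟨k1, k2, k3⟩ := key x y u hxw hyu
      obtain ⟨k1', k2', k3'⟩ := key x' y' u' hxw' hyu'
      have h3 : y ++ w.drop x = y' ++ w.drop x' := by
        rw [← k3, ← k3', e]
      have h4 := hd _ hyV _ hyV' _ hxR _ hxR' h3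
      rw [h4] at e k1
      omega
  refine ((atMost_suffix φ hφ hd w).or h2).mono le_rfl ?_
  rintro x ⟨hxw, hxR, hn, t, q, hqQ, y, hyV, hyq⟩
  rcases List.append_eq_append_iff.1 hyq with ⟨c, h1, h2⟩ | ⟨c, h1, h2⟩
  · -- t = q ++ c, y = c ++ take x
    left
    exact ⟨hxw, hxR, c, by rw [← h2]; exact hyV⟩
  · -- q = t ++ c, take x = c ++ y
    right
    refine ⟨hxw, hxR, y, c, hyV, h2.symm, ?_, ?_⟩
    · intro hc
      exact hn ⟨c, hc, y, hyV, h2.symm⟩
    · exact ⟨t, by rw [← h1]; exact hqQ⟩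

theorem Good.rR {X Y : Set (List α)} {d d' : ℕ} (hY : Good X d d' Y) :
    ∀ r ∈ RR X d', ∀ y ∈ Y, r ++ y ∈ RR X d' := by
  intro r hr y hy
  rw [← hY.eR] at hr ⊢
  exact RR_succ_sub Y d' ⟨r, hr, y, hy, rfl⟩

theorem Good.lL {X Y : Set (List α)} {d d' : ℕ} (hY : Good X d d' Y) :
    ∀ l ∈ LL X d, ∀ y ∈ Y, y ++ l ∈ LL X d := by
  intro l hl y hy
  rw [← hY.eL] at hl ⊢
  exact LL_succ_sub Y d ⟨y, hy, l, hl, rfl⟩

/- consequences of the above for X itself and for good Y -/
theorem exists_NL {X : Set (List α)} {d d' : ℕ} (hX : Good X d d' X) :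
    ∃ N, ∀ w : List α, AtMost N (fun x => x ≤ w.length ∧ w.take x ∈ RR X d' ∧
      w.drop x ∉ LL X d ∧ w.drop x ∈ quoR (LL X d)) := by
  obtain ⟨φ, hφ⟩ := hX.reg
  have key : ∀ i : ℕ, ∃ N, ∀ w : List α, AtMost N (fun x => x ≤ w.length ∧ w.take x ∈ RR X d' ∧
      w.drop x ∉ LL X i ∧ w.drop x ∈ quoR (LL X i)) := by
    intro i
    induction i with
    | zero =>
      refine ⟨0, fun w => AtMost.false.mono le_rfl ?_⟩
      rintro x ⟨-, -, h, -⟩
      exact h trivial
    | succ i ih =>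
      obtain ⟨N, hN⟩ := ih
      exact ⟨Nat.card φ.M + N, fun w => atMost_stepL φ hφ hX.dR hX.rR N hN w⟩
  exact key d

theorem exists_NR {X : Set (List α)} {d d' : ℕ} (hX : Good X d d' X) :
    ∃ N, ∀ w : List α, AtMost N (fun x => x ≤ w.length ∧ w.drop x ∈ LL X d ∧
      w.take x ∉ RR X d' ∧ w.take x ∈ quoL (RR X d')) := by
  obtain ⟨φ, hφ⟩ := hX.reg
  have key : ∀ i : ℕ, ∃ N, ∀ w : List α, AtMost N (fun x => x ≤ w.length ∧ w.drop x ∈ LL X d ∧
      w.take x ∉ RR X i ∧ w.take x ∈ quoL (RR X i)) := by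
    intro i
    induction i with
    | zero =>
      refine ⟨0, fun w => AtMost.false.mono le_rfl ?_⟩
      rintro x ⟨-, -, h, -⟩
      exact h trivial
    | succ i ih =>
      obtain ⟨N, hN⟩ := ih
      exact ⟨Nat.card φ.M + N, fun w => atMost_stepR φ hφ hX.dL hX.lL N hN w⟩
  exact key d'

theorem exists_N1 {X Y : Set (List α)} {d d' : ℕ} (hX : Good X d d' X) (hY : Good X d d' Y) :
    ∃ N, ∀ w : List α, AtMost N (fun x => x ≤ w.length ∧ w.take x ∈ RR X d' ∧
      w.drop x ∉ cat Y (LL X d) ∧ w.drop x ∈ quoR (cat Y (LL X d))) := by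
  obtain ⟨φ, hφ⟩ := hY.reg
  obtain ⟨N, hN⟩ := exists_NL hX
  exact ⟨Nat.card φ.M + N, fun w => atMost_stepL φ hφ hY.dR hY.rR N hN w⟩

theorem exists_N1' {X Y : Set (List α)} {d d' : ℕ} (hX : Good X d d' X) (hY : Good X d d' Y) :
    ∃ N, ∀ w : List α, AtMost N (fun x => x ≤ w.length ∧ w.drop x ∈ LL X d ∧
      w.take x ∉ cat (RR X d') Y ∧ w.take x ∈ quoL (cat (RR X d') Y)) := by
  obtain ⟨φ, hφ⟩ := hY.reg
  obtain ⟨N, hN⟩ := exists_NR hX
  exact ⟨Nat.card φ.M + N, fun w => atMost_stepR φ hφ hY.dL hY.lL N hN w⟩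

end Pool.Agent.W_MP_733b23_lc
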