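import Pool.Agent.W_MP_733b23_lc.Defs

set_option autoImplicit false

/-!
Finite colouring of words by a right-to-left (or left-to-right) automaton.
-/

namespace Pool.Agent.W_MP_733b23_lc

variable {α : Type}

namespace Coloring

variable (ψ : FC α) (Gt St : Set ψ.M) (N : ℕ)

/-- a colour which is not excluded -/
noncomputable def kap (T : Set (ψ.M × Fin (N + 1))) : Fin (N + 1) := by
  classical
  exact if h : ∃ c, ∀ t ∈ Gt, (t, c) ∉ T then h.choose else 0

theorem kap_spec {T : Set (ψ.M × Fin (N + 1))} (h : ∃ c, ∀ t ∈ Gt, (t, c) ∉ T) {t : ψ.M}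
    (ht : t ∈ Gt) : (t, kap ψ Gt N T) ∉ T := by
  unfold kap
  rw [dif_pos h]
  exact h.choose_spec t ht

/-- one step of the automaton -/
noncomputable def step (a : α) (s : ψ.M × Set (ψ.M × Fin (N + 1))) :
    ψ.M × Set (ψ.M × Fin (N + 1)) :=
  (ψ.m (ψ.f [a]) s.1,
    {p | (∃ q ∈ s.2, p = (ψ.m (ψ.f [a]) q.1, q.2)) ∨ (s.1 ∈ St ∧ p = (ψ.f [a], kap ψ Gt N s.2))})

/-- the state reached after reading a word from right to left -/
noncomputable def st (u : List α) : ψ.M × Set (ψ.M × Fin (N + 1)) :=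
  u.foldr (step ψ Gt St N) (ψ.f [], ∅)

theorem st_cons (a : α) (u : List α) :
    st ψ Gt St N (a :: u) = step ψ Gt St N a (st ψ Gt St N u) := rfl

theorem st_fst (u : List α) : (st ψ Gt St N u).1 = ψ.f u := by
  induction u with
  | nil => rfl
  | cons a u ih =>
    rw [st_cons]
    change ψ.m (ψ.f [a]) (st ψ Gt St N u).1 = _
    rw [ih, ← ψ.map_append]
    rfl

theorem st_snd (u : List α) (p : ψ.M × Fin (N + 1)) : p ∈ (st ψ Gt St N u).2 ↔
    ∃ g v, u = g ++ v ∧ g ≠ [] ∧ ψ.f v ∈ St ∧ p = (ψ.f g, kap ψ Gt N (st ψ Gt St N v).2) := by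
  induction u generalizing p with
  | nil =>
    constructor
    · intro h
      exact absurd h (Set.notMem_empty _)
    · rintro ⟨g, v, h, hg, _, _⟩
      have := congrArg List.length h
      simp only [List.length_nil, List.length_append] at this
      exact absurd (List.length_eq_zero_iff.1 (by omega)) hg
  | cons a u ih =>
    rw [st_cons]
    constructor
    · rintro (⟨q, hq, rfl⟩ | ⟨h1, rfl⟩)
      · obtain ⟨g, v, h1, h2, h3, h4⟩ := (ih q).1 hq
        refine ⟨a :: g, v, by rw [h1]; rfl, by simp, h3, ?_⟩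
        rw [h4]
        have : ψ.f (a :: g) = ψ.m (ψ.f [a]) (ψ.f g) := by
          rw [← ψ.map_append]; rfl
        rw [this]
      · rw [st_fst] at h1
        exact ⟨[a], u, rfl, by simp, h1, rfl⟩
    · rintro ⟨g, v, h, hg, hv, rfl⟩
      cases g with
      | nil => exact absurd rfl hg
      | cons b g =>
        rw [List.cons_append, List.cons.injEq] at h
        obtain ⟨rfl, h⟩ := h
        by_cases hg' : g = []
        · subst hg'
          right
          rw [List.nil_append] at h
          subst h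
          refine ⟨?_, rfl⟩
          rw [st_fst]
          exact hv
        · left
          refine ⟨(ψ.f g, kap ψ Gt N (st ψ Gt St N v).2), (ih _).2 ⟨g, v, h, hg', hv, rfl⟩, ?_⟩
          have : ψ.f (a :: g) = ψ.m (ψ.f [a]) (ψ.f g) := by
            rw [← ψ.map_append]; rfl
          rw [this]

end Coloring

open Coloring in
theorem exists_coloring {S G : Set (List α)} (hS : FC.Reg S) (hG : FC.Reg G) (N : ℕ)
    (hN : ∀ u : List α, AtMost N (fun x => x ≤ u.length ∧ u.take x ∈ G ∧ u.drop x ∈ S)) :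
    ∃ φ : FC α, ∀ g v, g ≠ [] → g ∈ G → v ∈ S → g ++ v ∈ S → φ.f (g ++ v) ≠ φ.f v := by
  classical
  obtain ⟨ψ, h1, h2⟩ := FC.Reg.common hS hG
  have hSt : ∀ v, ψ.f v ∈ ψ.f '' S ↔ v ∈ S := by
    intro v
    constructor
    · rintro ⟨w, hw, he⟩
      exact h1 w v he hw
    · intro hv
      exact ⟨v, hv, rfl⟩
  have hGt : ∀ v, ψ.f v ∈ ψ.f '' G ↔ v ∈ G := by
    intro v
    constructor
    · rintro ⟨w, hw, he⟩
      exact h2 w v he hw
    · intro hv
      exact ⟨v, hv, rfl⟩
  refine ⟨FC.ofFoldr (step ψ (ψ.f '' G) (ψ.f '' S) N), ?_⟩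
  intro g v hg hgG hv _ he
  have he' : st ψ (ψ.f '' G) (ψ.f '' S) N (g ++ v) = st ψ (ψ.f '' G) (ψ.f '' S) N v :=
    congrFun he (ψ.f [], ∅)
  set k : List α → Fin (N + 1) := fun u => kap ψ (ψ.f '' G) N
    (st ψ (ψ.f '' G) (ψ.f '' S) N u).2 with hk
  have hkk : k (g ++ v) = k v := by
    rw [hk]
    simp only [he']
  have hmem : (ψ.f g, k v) ∈ (st ψ (ψ.f '' G) (ψ.f '' S) N (g ++ v)).2 :=
    (st_snd ψ (ψ.f '' G) (ψ.f '' S) N (g ++ v) _).2 ⟨g, v, rfl, hg, (hSt v).2 hv, rfl⟩
  have hex : ∃ c, ∀ t ∈ ψ.f '' G, (t, c) ∉ (st ψ (ψ.f '' G) (ψ.f '' S) N (g ++ v)).2 := by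
    by_contra hno
    push Not at hno
    choose t ht htc using hno
    have hdec : ∀ c, ∃ x : ℕ, (x ≤ (g ++ v).length ∧ (g ++ v).take x ∈ G ∧
        (g ++ v).drop x ∈ S) ∧ k ((g ++ v).drop x) = c := by
      intro c
      obtain ⟨g', v', e1, _, e3, e4⟩ := (st_snd ψ (ψ.f '' G) (ψ.f '' S) N (g ++ v) _).1 (htc c)
      have e5 : t c = ψ.f g' := congrArg Prod.fst e4
      have e6 : c = k v' := congrArg Prod.snd e4
      refine ⟨g'.length, ⟨?_, ?_, ?_⟩, ?_⟩
      · rw [e1, List.length_append]; omega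
      · rw [e1, List.take_left]
        exact (hGt g').1 (e5 ▸ ht c)
      · rw [e1, List.drop_left]
        exact (hSt v').1 e3
      · rw [e1, List.drop_left]
        exact e6.symm
    choose x hx hxc using hdec
    have hinj : Function.Injective x := by
      intro c c' h
      rw [← hxc c, ← hxc c', h]
    have := hN (g ++ v) (Finset.univ.image x) (by
      intro y hy
      obtain ⟨c, _, rfl⟩ := Finset.mem_image.1 hy
      exact hx c)
    rw [Finset.card_image_of_injective _ hinj, Finset.card_univ, Fintype.card_fin] at this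
    omega
  have := kap_spec ψ (ψ.f '' G) N hex (t := ψ.f g) ⟨g, hgG, rfl⟩
  apply this
  change (ψ.f g, k (g ++ v)) ∈ _
  rw [hkk]
  exact hmem

/-- the reversed congruence -/
def FC.rev (φ : FC α) : FC α where
  M := φ.M
  fin := inferInstance
  f u := φ.f u.reverse
  m x y := φ.m y x
  map_append u v := by rw [List.reverse_append, φ.map_append]

theorem FC.Reg.rev {S : Set (List α)} (hS : FC.Reg S) : FC.Reg {u : List α | u.reverse ∈ S} := by
  obtain ⟨φ, h⟩ := hS
  exact ⟨φ.rev, fun u v e hu => h _ _ e hu⟩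

theorem exists_coloring' {S G : Set (List α)} (hS : FC.Reg S) (hG : FC.Reg G) (N : ℕ)
    (hN : ∀ u : List α, AtMost N (fun x => x ≤ u.length ∧ u.drop x ∈ G ∧ u.take x ∈ S)) :
    ∃ φ : FC α, ∀ g v, g ≠ [] → g ∈ G → v ∈ S → v ++ g ∈ S → φ.f (v ++ g) ≠ φ.f v := by
  obtain ⟨φ, hφ⟩ := exists_coloring hS.rev hG.rev N (by
    intro u
    refine (hN u.reverse).map (fun x => u.length - x) ?_ ?_
    · rintro x ⟨h1, h2, h3⟩
      refine ⟨by simp, ?_, ?_⟩
      · have : u.reverse.drop (u.length - x) = (u.take x).reverse := by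
          rw [List.drop_reverse]
          congr 2
          omega
        rw [this]
        exact h2
      · have : u.reverse.take (u.length - x) = (u.drop x).reverse := by
          rw [List.take_reverse]
          congr 2
          omega
        rw [this]
        exact h3
    · rintro x y ⟨h1, _⟩ ⟨h2, _⟩ h
      omega)
  refine ⟨φ.rev, ?_⟩
  intro g v hg hgG hv hvg
  change φ.f (v ++ g).reverse ≠ φ.f v.reverse
  rw [List.reverse_append]
  apply hφ
  · simpa using hg
  · change g.reverse.reverse ∈ G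
    rw [List.reverse_reverse]; exact hgG
  · change v.reverse.reverse ∈ S
    rw [List.reverse_reverse]; exact hv
  · change (g.reverse ++ v.reverse).reverse ∈ S
    rw [List.reverse_append, List.reverse_reverse, List.reverse_reverse]; exact hvg

end Pool.Agent.W_MP_733b23_lc
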