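import Pool.Agent.W_MP_733b23_lc.Defs

set_option autoImplicit false

/-!
Counting and matching of positions.
-/

namespace Pool.Agent.W_MP_733b23_lc

open Classical

theorem exists_split_low (T : Finset ℕ) (m : ℕ) (hm : 1 ≤ m) (h : m ≤ T.card) :
    ∃ c ∈ T, (T.filter (fun x => x ≤ c)).card = m := by
  induction m, hm using Nat.le_induction generalizing T with
  | base =>
    have hT : T.Nonempty := Finset.card_pos.1 (by omega)
    refine ⟨T.min' hT, T.min'_mem hT, ?_⟩
    rw [Finset.card_eq_one]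
    refine ⟨T.min' hT, ?_⟩
    ext x
    simp only [Finset.mem_filter, Finset.mem_singleton]
    constructor
    · rintro ⟨h1, h2⟩
      exact le_antisymm h2 (T.min'_le x h1)
    · rintro rfl
      exact ⟨T.min'_mem hT, le_rfl⟩
  | succ m hm ih =>
    have hT : T.Nonempty := Finset.card_pos.1 (by omega)
    obtain ⟨c, hc, hc'⟩ := ih (T.erase (T.min' hT)) (by
      rw [Finset.card_erase_of_mem (T.min'_mem hT)]; omega)
    have hcT := Finset.mem_of_mem_erase hc
    refine ⟨c, hcT, ?_⟩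
    have : T.filter (fun x => x ≤ c)
        = insert (T.min' hT) ((T.erase (T.min' hT)).filter (fun x => x ≤ c)) := by
      ext x
      simp only [Finset.mem_filter, Finset.mem_insert, Finset.mem_erase]
      constructor
      · rintro ⟨h1, h2⟩
        by_cases hx : x = T.min' hT
        · exact Or.inl hx
        · exact Or.inr ⟨⟨hx, h1⟩, h2⟩
      · rintro (rfl | ⟨⟨_, h1⟩, h2⟩)
        · exact ⟨T.min'_mem hT, T.min'_le c hcT⟩
        · exact ⟨h1, h2⟩
    rw [this, Finset.card_insert_of_notMem (by simp), hc']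

theorem exists_split_high (T : Finset ℕ) (m : ℕ) (hm : 1 ≤ m) (h : m ≤ T.card) :
    ∃ c ∈ T, (T.filter (fun x => c ≤ x)).card = m := by
  induction m, hm using Nat.le_induction generalizing T with
  | base =>
    have hT : T.Nonempty := Finset.card_pos.1 (by omega)
    refine ⟨T.max' hT, T.max'_mem hT, ?_⟩
    rw [Finset.card_eq_one]
    refine ⟨T.max' hT, ?_⟩
    ext x
    simp only [Finset.mem_filter, Finset.mem_singleton]
    constructor
    · rintro ⟨h1, h2⟩
      exact le_antisymm (T.le_max' x h1) h2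
    · rintro rfl
      exact ⟨T.max'_mem hT, le_rfl⟩
  | succ m hm ih =>
    have hT : T.Nonempty := Finset.card_pos.1 (by omega)
    obtain ⟨c, hc, hc'⟩ := ih (T.erase (T.max' hT)) (by
      rw [Finset.card_erase_of_mem (T.max'_mem hT)]; omega)
    have hcT := Finset.mem_of_mem_erase hc
    refine ⟨c, hcT, ?_⟩
    have : T.filter (fun x => c ≤ x)
        = insert (T.max' hT) ((T.erase (T.max' hT)).filter (fun x => c ≤ x)) := by
      ext x
      simp only [Finset.mem_filter, Finset.mem_insert, Finset.mem_erase]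
      constructor
      · rintro ⟨h1, h2⟩
        by_cases hx : x = T.max' hT
        · exact Or.inl hx
        · exact Or.inr ⟨⟨hx, h1⟩, h2⟩
      · rintro (rfl | ⟨⟨_, h1⟩, h2⟩)
        · exact ⟨T.max'_mem hT, T.le_max' c hcT⟩
        · exact ⟨h1, h2⟩
    rw [this, Finset.card_insert_of_notMem (by simp), hc']

/-! ### counts -/

theorem cntIco_congr {A B : ℕ → Prop} {a b : ℕ} (h : ∀ x, a ≤ x → x < b → (A x ↔ B x)) :
    cntIco A a b = cntIco B a b := by
  unfold cntIco
  congr 1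
  refine Finset.filter_congr fun x hx => ?_
  rw [Finset.mem_Ico] at hx
  exact h x hx.1 hx.2

theorem cntIoc_congr {A B : ℕ → Prop} {a b : ℕ} (h : ∀ x, a < x → x ≤ b → (A x ↔ B x)) :
    cntIoc A a b = cntIoc B a b := by
  unfold cntIoc
  congr 1
  refine Finset.filter_congr fun x hx => ?_
  rw [Finset.mem_Ioc] at hx
  exact h x hx.1 hx.2

theorem cntIco_self (A : ℕ → Prop) (a : ℕ) : cntIco A a a = 0 := by simp [cntIco]

theorem cntIoc_self (A : ℕ → Prop) (a : ℕ) : cntIoc A a a = 0 := by simp [cntIoc]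

theorem cntIco_add (A : ℕ → Prop) {a b c : ℕ} (h : a ≤ b) (h' : b ≤ c) :
    cntIco A a c = cntIco A a b + cntIco A b c := by
  unfold cntIco
  rw [← Finset.Ico_union_Ico_eq_Ico h h', Finset.filter_union, Finset.card_union_of_disjoint]
  exact Finset.disjoint_filter_filter (Finset.Ico_disjoint_Ico_consecutive a b c)

theorem cntIoc_add (A : ℕ → Prop) {a b c : ℕ} (h : a ≤ b) (h' : b ≤ c) :
    cntIoc A a c = cntIoc A a b + cntIoc A b c := by
  unfold cntIoc
  rw [← Finset.Ioc_union_Ioc_eq_Ioc h h', Finset.filter_union, Finset.card_union_of_disjoint]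
  refine Finset.disjoint_left.2 fun x hx hx' => ?_
  simp only [Finset.mem_filter, Finset.mem_Ioc] at hx hx'
  omega

theorem cntIco_succ (A : ℕ → Prop) {a b : ℕ} (h : a ≤ b) :
    cntIco A a (b + 1) = cntIco A a b + (if A b then 1 else 0) := by
  rw [cntIco_add A h (Nat.le_succ b)]
  congr 1
  unfold cntIco
  rw [Nat.Ico_succ_singleton, Finset.filter_singleton]
  split_ifs <;> simp

theorem cntIoc_succ (A : ℕ → Prop) {a b : ℕ} (h : a ≤ b) :
    cntIoc A a (b + 1) = cntIoc A a b + (if A (b + 1) then 1 else 0) := by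
  rw [cntIoc_add A h (Nat.le_succ b)]
  congr 1
  unfold cntIoc
  rw [Nat.Ioc_succ_singleton, Finset.filter_singleton]
  split_ifs <;> simp

theorem cntIoc_pos {A : ℕ → Prop} {a b : ℕ} (h : a < b) (hb : A b) : 1 ≤ cntIoc A a b := by
  unfold cntIoc
  exact Finset.card_pos.2 ⟨b, Finset.mem_filter.2 ⟨Finset.mem_Ioc.2 ⟨h, le_rfl⟩, hb⟩⟩

theorem cntIco_pos {A : ℕ → Prop} {a b : ℕ} (h : a < b) (hb : A a) : 1 ≤ cntIco A a b := by
  unfold cntIco
  exact Finset.card_pos.2 ⟨a, Finset.mem_filter.2 ⟨Finset.mem_Ico.2 ⟨le_rfl, h⟩, hb⟩⟩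

/-- `[a,b)` versus `(a,b]` -/
theorem cntIco_cntIoc (A : ℕ → Prop) {a b : ℕ} (h : a ≤ b) :
    cntIco A a b + (if A b then 1 else 0) = cntIoc A a b + (if A a then 1 else 0) := by
  induction b, h using Nat.le_induction with
  | base => simp [cntIco_self, cntIoc_self]
  | succ b h ih =>
    rw [cntIco_succ A h, cntIoc_succ A h]
    omega

theorem cntIco_mono {A B : ℕ → Prop} {a b : ℕ} (h : ∀ x, a ≤ x → x < b → A x → B x) :
    cntIco A a b ≤ cntIco B a b := by
  unfold cntIco
  refine Finset.card_le_card fun x hx => ?_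
  simp only [Finset.mem_filter, Finset.mem_Ico] at hx ⊢
  exact ⟨hx.1, h x hx.1.1 hx.1.2 hx.2⟩

theorem cntIoc_le_of_atMost {A B : ℕ → Prop} {N a b : ℕ} (h : AtMost N (fun x => A x ∧ ¬ B x)) :
    cntIoc A a b ≤ cntIoc B a b + N := by
  unfold cntIoc
  have h1 := Finset.card_filter_add_card_filter_not (s := (Finset.Ioc a b).filter A) B
  have h2 := h (((Finset.Ioc a b).filter A).filter (fun x => ¬ B x)) (fun x hx => by
    simp only [Finset.mem_filter] at hx
    exact ⟨hx.1.2, hx.2⟩)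
  have h3 : (((Finset.Ioc a b).filter A).filter B).card ≤ ((Finset.Ioc a b).filter B).card := by
    refine Finset.card_le_card fun x hx => ?_
    simp only [Finset.mem_filter] at hx ⊢
    exact ⟨hx.1.1, hx.2⟩
  omega

theorem kth {A : ℕ → Prop} {k p N : ℕ} (hk : 1 ≤ k) (h : k ≤ cntIoc A p N) :
    ∃ a, p < a ∧ a ≤ N ∧ A a ∧ cntIoc A p a = k := by
  obtain ⟨a, ha, hc⟩ := exists_split_low _ k hk h
  simp only [Finset.mem_filter, Finset.mem_Ioc] at ha
  refine ⟨a, ha.1.1, ha.1.2, ha.2, ?_⟩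
  rw [← hc]
  unfold cntIoc
  congr 1
  ext x
  simp only [Finset.mem_filter, Finset.mem_Ioc]
  constructor
  · rintro ⟨⟨h1, h2⟩, h3⟩
    exact ⟨⟨⟨h1, h2.trans ha.1.2⟩, h3⟩, h2⟩
  · rintro ⟨⟨⟨h1, _⟩, h3⟩, h2⟩
    exact ⟨⟨h1, h2⟩, h3⟩

theorem cntIco_unique {A : ℕ → Prop} {i a a' : ℕ} (hi : i ≤ a) (hi' : i ≤ a') (ha : A a)
    (ha' : A a') (h : cntIco A i a = cntIco A i a') : a = a' := by
  rcases lt_trichotomy a a' with h1 | h1 | h1
  · have h2 := cntIco_add A hi h1.le
    have h3 := cntIco_pos h1 ha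
    omega
  · exact h1
  · have h2 := cntIco_add A hi' h1.le
    have h3 := cntIco_pos h1 ha'
    omega

theorem cntIoc_unique {A : ℕ → Prop} {a a' j : ℕ} (hi : a ≤ j) (hi' : a' ≤ j) (ha : A a)
    (ha' : A a') (h : cntIoc A a j = cntIoc A a' j) : a = a' := by
  rcases lt_trichotomy a a' with h1 | h1 | h1
  · have h2 := cntIoc_add A h1.le hi'
    have h3 := cntIoc_pos h1 ha'
    omega
  · exact h1
  · have h2 := cntIoc_add A h1.le hi
    have h3 := cntIoc_pos h1 ha
    omega

/-- from the left end: `p ↦` number in `(p,a]` -/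
theorem cntIoc_unique' {A : ℕ → Prop} {p p' a : ℕ} (hi : p ≤ a) (hi' : p' ≤ a) (ha : A p)
    (ha' : A p') (h : cntIoc A p a = cntIoc A p' a) : p = p' := cntIoc_unique hi hi' ha ha' h

theorem atMost_lt (k : ℕ) : AtMost k (fun x => x < k) := by
  intro T hT
  have : T ⊆ Finset.range k := fun x hx => Finset.mem_range.2 (hT x hx)
  simpa using Finset.card_le_card this

theorem atMost_few (A : ℕ → Prop) (k N : ℕ) :
    AtMost k (fun p => A p ∧ p ≤ N ∧ cntIoc A p N < k) := by
  refine (atMost_lt k).map (fun p => cntIoc A p N) (fun x hx => hx.2.2) ?_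
  intro x y hx hy h
  exact cntIoc_unique hx.2.1 hy.2.1 hx.1 hy.1 h

/-! ### the balance -/

theorem Dsum_self (s e : ℕ → Prop) (a : ℕ) : Dsum s e a a = 0 := by simp [Dsum]

theorem Dsum_add (s e : ℕ → Prop) {a b c : ℕ} (h : a ≤ b) (h' : b ≤ c) :
    Dsum s e a c = Dsum s e a b + Dsum s e b c := by
  unfold Dsum
  rw [Finset.sum_Ico_consecutive _ h h']

theorem Dsum_succ (s e : ℕ → Prop) {a b : ℕ} (h : a ≤ b) :
    Dsum s e a (b + 1) = Dsum s e a b + ((if s b then 1 else 0) - (if e (b + 1) then 1 else 0)) := by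
  unfold Dsum
  rw [Finset.sum_Ico_succ_top h]

theorem Dsum_eq (s e : ℕ → Prop) {a b : ℕ} (h : a ≤ b) :
    Dsum s e a b = (cntIco s a b : ℤ) - cntIoc e a b := by
  induction b, h using Nat.le_induction with
  | base => simp [Dsum_self, cntIco_self, cntIoc_self]
  | succ b h ih =>
    rw [Dsum_succ s e h, cntIco_succ s h, cntIoc_succ e h, ih]
    push_cast
    ring

theorem Dsum_congr {s e s' e' : ℕ → Prop} {a b : ℕ} (hs : ∀ x, a ≤ x → x < b → (s x ↔ s' x))
    (he : ∀ x, a < x → x ≤ b → (e x ↔ e' x)) : Dsum s e a b = Dsum s' e' a b := by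
  unfold Dsum
  refine Finset.sum_congr rfl fun x hx => ?_
  rw [Finset.mem_Ico] at hx
  have h1 := hs x hx.1 hx.2
  have h2 := he (x + 1) (by omega) (by omega)
  simp only [h1, h2]

/-- first return -/
theorem first_return {s e : ℕ → Prop} {a N : ℕ} (ha : s a)
    (h : ∃ v, a < v ∧ v ≤ N ∧ Dsum s e a v ≤ 0) :
    ∃ b, a < b ∧ b ≤ N ∧ Dsum s e a b = 0 ∧ (∀ v, a < v → v < b → 1 ≤ Dsum s e a v) ∧ e b := by
  have hex : ∃ v, a < v ∧ v ≤ N ∧ Dsum s e a v ≤ 0 := h
  let b := Nat.find hex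
  obtain ⟨h1, h2, h3⟩ : a < b ∧ b ≤ N ∧ Dsum s e a b ≤ 0 := Nat.find_spec hex
  have hmin : ∀ v, a < v → v < b → 1 ≤ Dsum s e a v := by
    intro v hv hvb
    by_contra hcon
    exact Nat.find_min hex hvb ⟨hv, by omega, by omega⟩
  obtain ⟨v, hv⟩ : ∃ v, b = v + 1 := ⟨b - 1, by omega⟩
  have h4 : a ≤ v := by omega
  have h5 := Dsum_succ s e h4
  rw [← hv] at h5
  have h6 : 1 ≤ Dsum s e a v + (if s v then 1 else 0) := by
    rcases h4.eq_or_lt with h7 | h7
    · rw [← h7, Dsum_self, if_pos ha]; norm_num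
    · have := hmin v h7 (by omega)
      split_ifs <;> omega
  refine ⟨b, h1, h2, ?_, hmin, ?_⟩
  · split_ifs at h5 h6 <;> omega
  · by_contra hcon
    rw [if_neg hcon] at h5
    omega

theorem match_unique_left {s e : ℕ → Prop} {a a' b : ℕ} (h : a < b) (h' : a' < b)
    (h0 : Dsum s e a b = 0) (h1 : ∀ v, a < v → v < b → 1 ≤ Dsum s e a v)
    (h0' : Dsum s e a' b = 0) (h1' : ∀ v, a' < v → v < b → 1 ≤ Dsum s e a' v) : a = a' := by
  rcases lt_trichotomy a a' with h2 | h2 | h2
  · have h3 := Dsum_add s e h2.le h'.le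
    have h4 := h1 a' h2 h'
    omega
  · exact h2
  · have h3 := Dsum_add s e h2.le h.le
    have h4 := h1' a h2 h
    omega

theorem match_unique_right {s e : ℕ → Prop} {a b b' : ℕ} (h : a < b) (h' : a < b')
    (h0 : Dsum s e a b = 0) (h1 : ∀ v, a < v → v < b → 1 ≤ Dsum s e a v)
    (h0' : Dsum s e a b' = 0) (h1' : ∀ v, a < v → v < b' → 1 ≤ Dsum s e a v) : b = b' := by
  rcases lt_trichotomy b b' with h2 | h2 | h2
  · have h4 := h1' b h h2
    omega
  · exact h2
  · have h4 := h1 b' h' h2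
    omega

theorem atMost_unmatched {s e : ℕ → Prop} {N C : ℕ}
    (hC : ∀ x, x ≤ N → Dsum s e x N ≤ C) :
    AtMost (C + 1) (fun a => a ≤ N ∧ ∀ v, a < v → v ≤ N → 1 ≤ Dsum s e a v) := by
  have h0 : ∀ a, (a ≤ N ∧ ∀ v, a < v → v ≤ N → 1 ≤ Dsum s e a v) → 0 ≤ Dsum s e a N := by
    rintro a ⟨h1, h2⟩
    rcases h1.eq_or_lt with h3 | h3
    · rw [h3, Dsum_self]
    · have := h2 N h3 le_rfl
      omega
  refine (atMost_lt (C + 1)).map (fun a => (Dsum s e a N).toNat) ?_ ?_
  · intro a ha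
    have h1 := hC a ha.1
    have h2 := h0 a ha
    show (Dsum s e a N).toNat < C + 1
    omega
  · intro a a' ha ha' h
    have h1 := h0 a ha
    have h2 := h0 a' ha'
    have h3 : Dsum s e a N = Dsum s e a' N := by
      have h : (Dsum s e a N).toNat = (Dsum s e a' N).toNat := h
      omega
    rcases lt_trichotomy a a' with h4 | h4 | h4
    · have h5 := Dsum_add s e h4.le ha'.1
      have h6 := ha.2 a' h4 ha'.1
      omega
    · exact h4
    · have h5 := Dsum_add s e h4.le ha.1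
      have h6 := ha'.2 a h4 ha.1
      omega

/-! ### congruence and translation for `ZCond` -/

theorem ZCond_congr {s e A B s' e' A' B' : ℕ → Prop} {i j K H : ℕ}
    (hs : ∀ x, i ≤ x → x ≤ j → (s x ↔ s' x)) (he : ∀ x, i ≤ x → x ≤ j → (e x ↔ e' x))
    (hA : ∀ x, i ≤ x → x ≤ j → (A x ↔ A' x)) (hB : ∀ x, i ≤ x → x ≤ j → (B x ↔ B' x))
    (h : ZCond s e A B i j K H) : ZCond s' e' A' B' i j K H := by
  obtain ⟨a, b, h1, h2, h3, h4, h5, h6, h7, h8, h9, h10⟩ := h
  have hD : ∀ v, a ≤ v → v ≤ b → Dsum s' e' a v = Dsum s e a v := fun v hv hv' =>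
    (Dsum_congr (fun x hx hx' => hs x (by omega) (by omega))
      (fun x hx hx' => he x (by omega) (by omega))).symm
  refine ⟨a, b, h1, h2, h3, (hA a h1 (by omega)).1 h4, (hB b (by omega) h3).1 h5, ?_, ?_, ?_, ?_, ?_⟩
  · rw [← h6]
    exact (cntIco_congr fun x hx hx' => hA x (by omega) (by omega)).symm
  · rw [← h7]
    exact (cntIoc_congr fun x hx hx' => hB x (by omega) (by omega)).symm
  · rw [hD b h2.le le_rfl, h8]
  · intro v hv hv'
    rw [hD v hv.le hv'.le]
    exact h9 v hv hv'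
  · intro v hv hv'
    rw [hD v hv hv']
    exact h10 v hv hv'

theorem cntIco_shift (A : ℕ → Prop) (i a b : ℕ) :
    cntIco (fun x => A (i + x)) a b = cntIco A (i + a) (i + b) := by
  unfold cntIco
  rw [← Finset.card_map (addLeftEmbedding i)]
  congr 1
  ext x
  simp only [Finset.mem_map, Finset.mem_filter, Finset.mem_Ico, addLeftEmbedding_apply]
  constructor
  · rintro ⟨y, ⟨⟨h1, h2⟩, h3⟩, rfl⟩
    exact ⟨⟨by omega, by omega⟩, h3⟩
  · rintro ⟨⟨h1, h2⟩, h3⟩
    refine ⟨x - i, ⟨⟨by omega, by omega⟩, ?_⟩, by omega⟩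
    rwa [show i + (x - i) = x by omega]

theorem cntIoc_shift (A : ℕ → Prop) (i a b : ℕ) :
    cntIoc (fun x => A (i + x)) a b = cntIoc A (i + a) (i + b) := by
  unfold cntIoc
  rw [← Finset.card_map (addLeftEmbedding i)]
  congr 1
  ext x
  simp only [Finset.mem_map, Finset.mem_filter, Finset.mem_Ioc, addLeftEmbedding_apply]
  constructor
  · rintro ⟨y, ⟨⟨h1, h2⟩, h3⟩, rfl⟩
    exact ⟨⟨by omega, by omega⟩, h3⟩
  · rintro ⟨⟨h1, h2⟩, h3⟩
    refine ⟨x - i, ⟨⟨by omega, by omega⟩, ?_⟩, by omega⟩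
    rwa [show i + (x - i) = x by omega]

theorem Dsum_shift (s e : ℕ → Prop) (i : ℕ) {a b : ℕ} (h : a ≤ b) :
    Dsum (fun x => s (i + x)) (fun x => e (i + x)) a b = Dsum s e (i + a) (i + b) := by
  rw [Dsum_eq _ _ h, Dsum_eq _ _ (by omega : i + a ≤ i + b), cntIco_shift, cntIoc_shift]

theorem ZCond_shift {s e A B : ℕ → Prop} {i j K H : ℕ} (hij : i ≤ j) :
    ZCond (fun x => s (i + x)) (fun x => e (i + x)) (fun x => A (i + x)) (fun x => B (i + x))
      0 (j - i) K H ↔ ZCond s e A B i j K H := by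
  constructor
  · rintro ⟨a, b, h1, h2, h3, h4, h5, h6, h7, h8, h9, h10⟩
    refine ⟨i + a, i + b, by omega, by omega, by omega, h4, h5, ?_, ?_, ?_, ?_, ?_⟩
    · rw [cntIco_shift] at h6
      exact h6
    · rw [cntIoc_shift] at h7
      rwa [show i + (j - i) = j by omega] at h7
    · rwa [Dsum_shift _ _ _ h2.le] at h8
    · intro v hv hv'
      have := h9 (v - i) (by omega) (by omega)
      rwa [Dsum_shift _ _ _ (by omega), show i + (v - i) = v by omega] at this
    · intro v hv hv'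
      have := h10 (v - i) (by omega) (by omega)
      rwa [Dsum_shift _ _ _ (by omega), show i + (v - i) = v by omega] at this
  · rintro ⟨a, b, h1, h2, h3, h4, h5, h6, h7, h8, h9, h10⟩
    refine ⟨a - i, b - i, by omega, by omega, by omega, ?_, ?_, ?_, ?_, ?_, ?_, ?_⟩
    · simpa [show i + (a - i) = a by omega] using h4
    · simpa [show i + (b - i) = b by omega] using h5
    · rw [cntIco_shift, show i + (a - i) = a by omega]
      exact h6
    · rw [cntIoc_shift, show i + (b - i) = b by omega, show i + (j - i) = j by omega]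
      exact h7
    · rw [Dsum_shift _ _ _ (by omega), show i + (b - i) = b by omega,
        show i + (a - i) = a by omega]
      exact h8
    · intro v hv hv'
      rw [Dsum_shift _ _ _ (by omega), show i + (a - i) = a by omega]
      exact h9 _ (by omega) (by omega)
    · intro v hv hv'
      rw [Dsum_shift _ _ _ (by omega), show i + (a - i) = a by omega]
      exact h10 _ (by omega) (by omega)

end Pool.Agent.W_MP_733b23_lc
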