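import Pool.Agent.W_MP_733b23_lc.Defs

set_option autoImplicit false

/-!
The context of one step of the induction, and the basic facts on factors.
-/

namespace Pool.Agent.W_MP_733b23_lc

variable {α : Type}

/-- the factor of `w` between positions `i` and `j` -/
def seg (w : List α) (i j : ℕ) : List α := (w.take j).drop i

theorem seg_zero (w : List α) (j : ℕ) : seg w 0 j = w.take j := rfl

theorem seg_len (w : List α) (i : ℕ) : seg w i w.length = w.drop i := by simp [seg]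

theorem seg_all (w : List α) : seg w 0 w.length = w := by simp [seg]

theorem seg_self (w : List α) (i : ℕ) : seg w i i = [] := by simp [seg]

theorem seg_length (w : List α) {i j : ℕ} (hj : j ≤ w.length) :
    (seg w i j).length = j - i := by simp [seg, Nat.min_eq_left hj]

theorem seg_append (w : List α) {i j k : ℕ} (h : i ≤ j) (h' : j ≤ k) :
    seg w i j ++ seg w j k = seg w i k := by
  unfold seg
  have h1 : w.take j = (w.take k).take j := by rw [List.take_take, Nat.min_eq_left h']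
  rw [h1]
  generalize w.take k = u
  by_cases hj : j ≤ u.length
  · conv_rhs => rw [← List.take_append_drop j u]
    rw [List.drop_append_of_le_length (by simp [Nat.min_eq_left hj, h])]
  · have : u.take j = u := List.take_of_length_le (by omega)
    have h2 : u.drop j = [] := List.drop_eq_nil_of_le (by omega)
    rw [this, h2, List.append_nil]

theorem seg_seg (w : List α) {i j a b : ℕ} (hb : b ≤ j - i) :
    seg (seg w i j) a b = seg w (i + a) (i + b) := by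
  unfold seg
  by_cases hij : i ≤ j
  · rw [List.take_drop, List.take_take, List.drop_drop, Nat.min_eq_left (by omega)]
  · have h1 : b = 0 := by omega
    subst h1
    simp

theorem seg_sub (w : List α) {i i' j j' : ℕ} (h1 : i' ≤ i) (h2 : i ≤ j) (h3 : j ≤ j') :
    seg w i' i ++ seg w i j ++ seg w j j' = seg w i' j' := by
  rw [seg_append w h1 h2, seg_append w (h1.trans h2) h3]

/-- context of a step -/
structure Ctx (α : Type) where
  X : Set (List α)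
  Y : Set (List α)
  L : Set (List α)
  R : Set (List α)
  F : Set (List α)
  Fp : Set (List α)
  φ : FC α
  n : ℕ
  NL : ℕ
  NR : ℕ
  N1 : ℕ
  N1' : ℕ
  NP : ℕ
  Lext : ∀ u v, u ∈ L → u ++ v ∈ L
  Rext : ∀ u v, u ∈ R → v ++ u ∈ R
  XY : X ⊆ Y
  YL : ∀ y ∈ Y, ∀ l ∈ L, y ++ l ∈ L
  RY : ∀ r ∈ R, ∀ y ∈ Y, r ++ y ∈ R
  dL : ∀ y ∈ Y, ∀ y' ∈ Y, ∀ l ∈ L, ∀ l' ∈ L, y ++ l = y' ++ l' → y = y'
  dR : ∀ y ∈ Y, ∀ y' ∈ Y, ∀ r ∈ R, ∀ r' ∈ R, r ++ y = r' ++ y' → y = y'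
  recL : φ.Rec L
  recR : φ.Rec R
  recXL : φ.Rec (cat X L)
  recRX : φ.Rec (cat R X)
  Ffac : ∀ a v b, a ++ v ++ b ∈ F → v ∈ F
  Fpfac : ∀ a v b, a ++ v ++ b ∈ Fp → v ∈ Fp
  FFp : F ⊆ Fp
  YXF : ∀ y ∈ Y, y ∈ X ∨ y ∈ F
  stabR : ∀ u v, u ∉ F → u ++ v ∈ Fp → ∃ t, φ.f (u ++ v ++ t) = φ.f u
  stabL : ∀ u v, u ∉ F → v ++ u ∈ Fp → ∃ t, φ.f (t ++ v ++ u) = φ.f u
  colR : ∀ g v, g ≠ [] → v ∈ L → (∀ s, v ++ s ∉ cat X L) → g ++ v ∈ L →
    (∀ s, g ++ v ++ s ∉ cat X L) → g ∈ quoL R → φ.f (g ++ v) = φ.f v → g ∈ R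
  colL : ∀ g v, g ≠ [] → v ∈ R → (∀ s, s ++ v ∉ cat R X) → v ++ g ∈ R →
    (∀ s, s ++ (v ++ g) ∉ cat R X) → g ∈ quoR L → φ.f (v ++ g) = φ.f v → g ∈ L
  bS : ∀ w ∈ F, AtMost n (isS L R Y w)
  bE : ∀ w ∈ F, AtMost n (isE L R Y w)
  bL : ∀ w : List α, AtMost NL (fun x => x ≤ w.length ∧ w.take x ∈ R ∧
      w.drop x ∉ L ∧ w.drop x ∈ quoR L)
  bR : ∀ w : List α, AtMost NR (fun x => x ≤ w.length ∧ w.drop x ∈ L ∧
      w.take x ∉ R ∧ w.take x ∈ quoL R)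
  b1 : ∀ w : List α, AtMost N1 (fun x => x ≤ w.length ∧ w.take x ∈ R ∧
      w.drop x ∉ cat Y L ∧ w.drop x ∈ quoR (cat Y L))
  b1' : ∀ w : List α, AtMost N1' (fun x => x ≤ w.length ∧ w.drop x ∈ L ∧
      w.take x ∉ cat R Y ∧ w.take x ∈ quoL (cat R Y))
  bP : ∀ w : List α, AtMost NP (fun x => x ≤ w.length ∧ w.take x ∈ R ∧ ∃ t, w.drop x ++ t ∈ Y)

namespace Ctx

variable (c : Ctx α)

/-- products of two factors outside `F`, inside `Fp` -/
def J2 : Set (List α) := {u | u ∈ c.Fp ∧ ∃ a b, a ∉ c.F ∧ b ∉ c.F ∧ a ++ b = u}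

/-- words of `Fp ∩ L` which stay outside `YL` -/
def Sg : Set (List α) := {u | u ∈ c.Fp ∧ u ∈ c.L ∧ ∀ s, u ++ s ∉ cat c.Y c.L}

/-- words of `Fp ∩ R` which stay outside `RY` -/
def Sg' : Set (List α) := {u | u ∈ c.Fp ∧ u ∈ c.R ∧ ∀ s, s ++ u ∉ cat c.R c.Y}

variable {c}

theorem Fp_left {u v : List α} (h : u ++ v ∈ c.Fp) : u ∈ c.Fp := c.Fpfac [] u v (by simpa using h)

theorem Fp_right {u v : List α} (h : u ++ v ∈ c.Fp) : v ∈ c.Fp := c.Fpfac u v [] (by simpa using h)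

theorem F_left {u v : List α} (h : u ++ v ∈ c.F) : u ∈ c.F := c.Ffac [] u v (by simpa using h)

theorem F_right {u v : List α} (h : u ++ v ∈ c.F) : v ∈ c.F := c.Ffac u v [] (by simpa using h)

theorem J2_notF {u : List α} (h : u ∈ c.J2) : u ∉ c.F := by
  obtain ⟨_, a, b, ha, _, rfl⟩ := h
  exact fun h => ha (F_left h)

/-- Fact 4 -/
theorem fact4 {u v : List α} (hu : u ∈ c.J2) (h : u ++ v ∈ c.Sg) : u ∈ c.Sg := by
  obtain ⟨hF, hL, hY⟩ := h
  have huF := J2_notF hu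
  obtain ⟨hup, u1, u2, h1, h2, rfl⟩ := hu
  obtain ⟨t, ht⟩ := c.stabR _ v huF hF
  refine ⟨hup, c.recL _ _ ht (c.Lext _ _ hL), ?_⟩
  rintro s ⟨y, hy, l, hl, he⟩
  rcases c.YXF y hy with hx | hyF
  · have h3 : u1 ++ u2 ++ s ∈ cat c.X c.L := ⟨y, hx, l, hl, he⟩
    have h4 : u1 ++ u2 ++ v ++ t ++ s ∈ cat c.X c.L :=
      c.recXL _ _ (c.φ.congr ht.symm rfl) h3
    obtain ⟨x, hx, l', hl', he'⟩ := h4
    exact hY (t ++ s) ⟨x, c.XY hx, l', hl', by rw [he']; simp⟩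
  · have h3 : ¬ ∃ r, y = u1 ++ r := by
      rintro ⟨r, rfl⟩
      exact h1 (F_left hyF)
    have h4 : ∃ r, u1 = y ++ r ∧ l = r ++ (u2 ++ s) := by
      rw [List.append_assoc] at he
      rcases List.append_eq_append_iff.1 he with ⟨r, h5, h6⟩ | ⟨r, h5, h6⟩
      · exact ⟨r, h5, h6⟩
      · exact absurd ⟨r, h5⟩ h3
    obtain ⟨r, rfl, rfl⟩ := h4
    have h5 : r ++ u2 ∉ c.F := fun h => h2 (F_right h)
    have h6 : r ++ u2 ++ v ∈ c.Fp := by
      have : y ++ (r ++ u2 ++ v) ∈ c.Fp := by simpa using hF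
      exact Fp_right this
    obtain ⟨t', ht'⟩ := c.stabR _ v h5 h6
    have h7 : r ++ u2 ++ v ++ t' ++ s ∈ c.L :=
      c.recL _ _ (c.φ.congr ht'.symm rfl) (by simpa using hl)
    exact hY (t' ++ s) ⟨y, hy, _, h7, by simp⟩

/-- Fact 4, mirror -/
theorem fact4' {u v : List α} (hu : u ∈ c.J2) (h : v ++ u ∈ c.Sg') : u ∈ c.Sg' := by
  obtain ⟨hF, hR, hY⟩ := h
  have huF := J2_notF hu
  obtain ⟨hup, u1, u2, h1, h2, rfl⟩ := hu
  obtain ⟨t, ht⟩ := c.stabL _ v huF hF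
  refine ⟨hup, c.recR _ _ ht (by rw [List.append_assoc]; exact c.Rext _ _ hR), ?_⟩
  rintro s ⟨r0, hr0, y, hy, he⟩
  rcases c.YXF y hy with hx | hyF
  · have h3 : s ++ (u1 ++ u2) ∈ cat c.R c.X := ⟨r0, hr0, y, hx, he⟩
    have h4 : s ++ (t ++ v ++ (u1 ++ u2)) ∈ cat c.R c.X :=
      c.recRX _ _ (c.φ.congr rfl ht.symm) h3
    obtain ⟨r', hr', x, hx, he'⟩ := h4
    exact hY (s ++ t) ⟨r', hr', x, c.XY hx, by rw [he']; simp⟩
  · have h3 : ¬ ∃ r, y = r ++ u2 := by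
      rintro ⟨r, rfl⟩
      exact h2 (F_right hyF)
    have h4 : ∃ r, u2 = r ++ y ∧ r0 = s ++ u1 ++ r := by
      rw [← List.append_assoc] at he
      rcases List.append_eq_append_iff.1 he with ⟨r, h5, h6⟩ | ⟨r, h5, h6⟩
      · exact absurd ⟨r, h6⟩ h3
      · exact ⟨r, h6, h5⟩
    obtain ⟨r, rfl, rfl⟩ := h4
    have h5 : u1 ++ r ∉ c.F := fun h => h1 (F_left h)
    have h6 : v ++ (u1 ++ r) ∈ c.Fp := by
      have : v ++ (u1 ++ r) ++ y ∈ c.Fp := by simpa using hF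
      exact Fp_left this
    obtain ⟨t', ht'⟩ := c.stabL _ v h5 h6
    have h7 : s ++ (t' ++ v ++ (u1 ++ r)) ∈ c.R :=
      c.recR _ _ (c.φ.congr rfl ht'.symm) (by simpa using hr0)
    exact hY (s ++ t') ⟨_, h7, y, hy, by simp⟩

theorem Sg_right {u v : List α} (h : u ∈ c.Sg) (hF : u ++ v ∈ c.Fp) : u ++ v ∈ c.Sg :=
  ⟨hF, c.Lext _ _ h.2.1, fun s hs => h.2.2 (v ++ s) (by simpa using hs)⟩

theorem Sg'_left {u v : List α} (h : u ∈ c.Sg') (hF : v ++ u ∈ c.Fp) : v ++ u ∈ c.Sg' :=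
  ⟨hF, c.Rext _ _ h.2.1, fun s hs => h.2.2 (s ++ v) (by simpa using hs)⟩

theorem J2_right {u v : List α} (h : u ∈ c.J2) (hF : u ++ v ∈ c.Fp) : u ++ v ∈ c.J2 := by
  obtain ⟨_, a, b, ha, hb, rfl⟩ := h
  exact ⟨hF, a, b ++ v, ha, fun h => hb (F_left h), by simp⟩

theorem J2_left {u v : List α} (h : u ∈ c.J2) (hF : v ++ u ∈ c.Fp) : v ++ u ∈ c.J2 := by
  obtain ⟨_, a, b, ha, hb, rfl⟩ := h
  exact ⟨hF, v ++ a, b, fun h => ha (F_right h), hb, by simp⟩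

theorem frzR {u v : List α} (hu : u ∉ c.F) (hF : v ++ u ∈ c.Fp) (h : v ++ u ∈ c.R) : u ∈ c.R := by
  obtain ⟨t, ht⟩ := c.stabL u v hu hF
  exact c.recR _ _ ht (by rw [List.append_assoc]; exact c.Rext _ _ h)

theorem frzL {u v : List α} (hu : u ∉ c.F) (hF : u ++ v ∈ c.Fp) (h : u ++ v ∈ c.L) : u ∈ c.L := by
  obtain ⟨t, ht⟩ := c.stabR u v hu hF
  exact c.recL _ _ ht (c.Lext _ _ h)

/-- Green's lemma, right version -/
theorem greenR {b d v : List α} (hb : b ∉ c.F) (hF : b ++ v ∈ c.Fp)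
    (h : c.φ.f (d ++ b ++ v) = c.φ.f (b ++ v)) : c.φ.f (d ++ b) = c.φ.f b := by
  obtain ⟨t, ht⟩ := c.stabR b v hb hF
  have h1 : c.φ.f (d ++ b) = c.φ.f (d ++ (b ++ v ++ t)) := c.φ.congr rfl ht.symm
  have h2 : c.φ.f (d ++ b ++ v ++ t) = c.φ.f (b ++ v ++ t) := c.φ.congr h rfl
  rw [h1, ← ht, ← h2]
  simp

/-- Green's lemma, left version -/
theorem greenL {b d v : List α} (hb : b ∉ c.F) (hF : v ++ b ∈ c.Fp)
    (h : c.φ.f (v ++ (b ++ d)) = c.φ.f (v ++ b)) : c.φ.f (b ++ d) = c.φ.f b := by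
  obtain ⟨t, ht⟩ := c.stabL b v hb hF
  have h1 : c.φ.f (b ++ d) = c.φ.f ((t ++ v ++ b) ++ d) := c.φ.congr ht.symm rfl
  have h2 : c.φ.f (t ++ (v ++ (b ++ d))) = c.φ.f (t ++ (v ++ b)) := c.φ.congr rfl h
  rw [h1, ← ht]
  simpa using h2

/-! ### interval versions -/

section Interval

variable {w : List α} (hw : w ∈ c.Fp)

include hw in
theorem iFp (i j : ℕ) : seg w i j ∈ c.Fp := by
  have h1 : w.take j ∈ c.Fp := by
    have := hw
    rw [← List.take_append_drop j w] at this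
    exact Fp_left this
  have h2 : (w.take j).take i ++ (w.take j).drop i ∈ c.Fp := by
    rw [List.take_append_drop]; exact h1
  exact Fp_right h2

include hw in
theorem iJ2 {i i' j j' : ℕ} (h1 : i' ≤ i) (h2 : i ≤ j) (h3 : j ≤ j') (h : seg w i j ∈ c.J2) :
    seg w i' j' ∈ c.J2 := by
  have h4 : seg w i' j ∈ c.J2 := by
    rw [← seg_append w h1 h2]
    exact J2_left h (by rw [seg_append w h1 h2]; exact iFp hw _ _)
  rw [← seg_append w (h1.trans h2) h3]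
  exact J2_right h4 (by rw [seg_append w (h1.trans h2) h3]; exact iFp hw _ _)

theorem iF {i i' j j' : ℕ} (h1 : i' ≤ i) (h2 : i ≤ j) (h3 : j ≤ j') (h : seg w i j ∉ c.F) :
    seg w i' j' ∉ c.F := by
  rw [← seg_sub w h1 h2 h3]
  exact fun h' => h (c.Ffac _ _ _ h')

include hw in
theorem iSg {i j j' : ℕ} (h2 : i ≤ j) (h3 : j ≤ j') (h : seg w i j ∈ c.Sg) :
    seg w i j' ∈ c.Sg := by
  rw [← seg_append w h2 h3]
  exact Sg_right h (by rw [seg_append w h2 h3]; exact iFp hw _ _)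

include hw in
theorem iSg' {i i' j : ℕ} (h1 : i' ≤ i) (h2 : i ≤ j) (h : seg w i j ∈ c.Sg') :
    seg w i' j ∈ c.Sg' := by
  rw [← seg_append w h1 h2]
  exact Sg'_left h (by rw [seg_append w h1 h2]; exact iFp hw _ _)

theorem i4 {i j j' : ℕ} (h2 : i ≤ j) (h3 : j ≤ j') (h : seg w i j ∈ c.J2)
    (h' : seg w i j' ∈ c.Sg) : seg w i j ∈ c.Sg := by
  rw [← seg_append w h2 h3] at h'
  exact fact4 h h'

theorem i4' {i i' j : ℕ} (h1 : i' ≤ i) (h2 : i ≤ j) (h : seg w i j ∈ c.J2)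
    (h' : seg w i' j ∈ c.Sg') : seg w i j ∈ c.Sg' := by
  rw [← seg_append w h1 h2] at h'
  exact fact4' h h'

theorem iR {i i' j : ℕ} (h1 : i' ≤ i) (h2 : i ≤ j) (h : seg w i j ∈ c.R) : seg w i' j ∈ c.R := by
  rw [← seg_append w h1 h2]
  exact c.Rext _ _ h

theorem iL {i j j' : ℕ} (h2 : i ≤ j) (h3 : j ≤ j') (h : seg w i j ∈ c.L) : seg w i j' ∈ c.L := by
  rw [← seg_append w h2 h3]
  exact c.Lext _ _ h

include hw in
theorem ifrzR {i i' j : ℕ} (h1 : i' ≤ i) (h2 : i ≤ j) (h : seg w i j ∉ c.F)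
    (h' : seg w i' j ∈ c.R) : seg w i j ∈ c.R := by
  have h3 := iFp hw i' j
  rw [← seg_append w h1 h2] at h' h3
  exact frzR h h3 h'

include hw in
theorem ifrzL {i j j' : ℕ} (h2 : i ≤ j) (h3 : j ≤ j') (h : seg w i j ∉ c.F)
    (h' : seg w i j' ∈ c.L) : seg w i j ∈ c.L := by
  have h4 := iFp hw i j'
  rw [← seg_append w h2 h3] at h' h4
  exact frzL h h4 h'

/-- congruence -/
theorem icR {i i' j j' : ℕ} (h1 : i ≤ j) (h2 : i' ≤ j) (h3 : j ≤ j')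
    (h : c.φ.f (seg w i j) = c.φ.f (seg w i' j)) :
    c.φ.f (seg w i j') = c.φ.f (seg w i' j') := by
  rw [← seg_append w h1 h3, ← seg_append w h2 h3]
  exact c.φ.congr h rfl

theorem icL {i i' j j' : ℕ} (h1 : i' ≤ i) (h2 : i ≤ j) (h3 : i ≤ j')
    (h : c.φ.f (seg w i j) = c.φ.f (seg w i j')) :
    c.φ.f (seg w i' j) = c.φ.f (seg w i' j') := by
  rw [← seg_append w h1 h2, ← seg_append w h1 h3]
  exact c.φ.congr rfl h

include hw in
theorem igR {i x j j' : ℕ} (h1 : i ≤ x) (h2 : x ≤ j) (h3 : j ≤ j') (hF : seg w x j ∉ c.F)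
    (h : c.φ.f (seg w x j') = c.φ.f (seg w i j')) :
    c.φ.f (seg w x j) = c.φ.f (seg w i j) := by
  have h5 : c.φ.f (seg w i x ++ seg w x j) = c.φ.f (seg w x j) := by
    refine greenR hF (v := seg w j j') ?_ ?_
    · rw [seg_append w h2 h3]; exact iFp hw _ _
    · rw [seg_append w h1 h2, seg_append w (h1.trans h2) h3, seg_append w h2 h3]
      exact h.symm
  rw [← h5, seg_append w h1 h2]

include hw in
theorem igL {i i' y j : ℕ} (h1 : i' ≤ i) (h2 : i ≤ y) (h3 : y ≤ j) (hF : seg w i y ∉ c.F)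
    (h : c.φ.f (seg w i' y) = c.φ.f (seg w i' j)) :
    c.φ.f (seg w i y) = c.φ.f (seg w i j) := by
  have h5 : c.φ.f (seg w i y ++ seg w y j) = c.φ.f (seg w i y) := by
    refine greenL hF (v := seg w i' i) ?_ ?_
    · rw [seg_append w h1 h2]; exact iFp hw _ _
    · rw [seg_append w h2 h3, seg_append w h1 (h2.trans h3), seg_append w h1 h2]
      exact h.symm
  rw [← h5, seg_append w h2 h3]

theorem Sg_dead {u : List α} (h : u ∈ c.Sg) (s : List α) : u ++ s ∉ cat c.X c.L := by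
  rintro ⟨x, hx, l, hl, he⟩
  exact h.2.2 s ⟨x, c.XY hx, l, hl, he⟩

theorem Sg'_dead {u : List α} (h : u ∈ c.Sg') (s : List α) : s ++ u ∉ cat c.R c.X := by
  rintro ⟨r, hr, x, hx, he⟩
  exact h.2.2 s ⟨r, hr, x, c.XY hx, he⟩

/-- two positions of one lane -/
theorem laneR {i' i x j : ℕ} (h0 : i' ≤ i) (h1 : i < x) (h2 : x ≤ j) (hx : x ≤ w.length)
    (hi : seg w i j ∈ c.Sg) (hx' : seg w x j ∈ c.Sg)
    (he : c.φ.f (seg w x j) = c.φ.f (seg w i j)) (hR : seg w i' x ∈ c.R) : seg w i x ∈ c.R := by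
  have h3 := seg_append w h1.le h2
  rw [← h3] at hi he
  refine c.colR _ _ ?_ hx'.2.1 (Sg_dead hx') hi.2.1 (Sg_dead hi) ⟨seg w i' i, ?_⟩ he.symm
  · intro h
    have := congrArg List.length h
    rw [seg_length w hx] at this
    simp at this
    omega
  · rw [seg_append w h0 h1.le]; exact hR

theorem laneL {i y j j' : ℕ} (h1 : i ≤ y) (h2 : y < j) (h3 : j ≤ j') (hj : j ≤ w.length)
    (hj' : seg w i j ∈ c.Sg') (hy : seg w i y ∈ c.Sg')
    (he : c.φ.f (seg w i y) = c.φ.f (seg w i j)) (hL : seg w y j' ∈ c.L) : seg w y j ∈ c.L := by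
  have h4 := seg_append w h1 h2.le
  rw [← h4] at hj' he
  refine c.colL _ _ ?_ hy.2.1 (Sg'_dead hy) hj'.2.1 (Sg'_dead hj') ⟨seg w j j', ?_⟩ he.symm
  · intro h
    have := congrArg List.length h
    rw [seg_length w hj] at this
    simp at this
    omega
  · rw [seg_append w h2.le h3]; exact hL

end Interval

end Ctx

end Pool.Agent.W_MP_733b23_lc
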