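import Pool.Agent.W_MP_733b23_lc.FC

set_option autoImplicit false

/-!
Definitions for the completion of regular codes with bounded decoding bi-delay.
-/

namespace Pool.Agent.W_MP_733b23_lc

variable {α : Type}

/-- at most `N` naturals satisfy `P` -/
def AtMost (N : ℕ) (P : ℕ → Prop) : Prop := ∀ T : Finset ℕ, (∀ x ∈ T, P x) → T.card ≤ N

theorem AtMost.mono {N N' : ℕ} {P Q : ℕ → Prop} (h : AtMost N Q) (hN : N ≤ N')
    (hPQ : ∀ x, P x → Q x) : AtMost N' P :=
  fun T hT => (h T (fun x hx => hPQ x (hT x hx))).trans hN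

theorem AtMost.or {N N' : ℕ} {P Q : ℕ → Prop} (h : AtMost N P) (h' : AtMost N' Q) :
    AtMost (N + N') (fun x => P x ∨ Q x) := by
  classical
  intro T hT
  have h1 := h (T.filter P) (fun x hx => (Finset.mem_filter.1 hx).2)
  have h2 := h' (T.filter (fun x => ¬ P x)) (fun x hx => by
    have h3 := Finset.mem_filter.1 hx
    exact (hT x h3.1).resolve_left h3.2)
  have h3 := Finset.card_filter_add_card_filter_not (s := T) P
  omega

theorem AtMost.false : AtMost 0 (fun _ => False) := by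
  intro T hT
  have : T = ∅ := Finset.eq_empty_of_forall_notMem (fun x hx => hT x hx)
  simp [this]

/-- injective transport -/
theorem AtMost.map {N : ℕ} {P Q : ℕ → Prop} (h : AtMost N Q) (f : ℕ → ℕ)
    (hf : ∀ x, P x → Q (f x)) (hi : ∀ x y, P x → P y → f x = f y → x = y) : AtMost N P := by
  classical
  intro T hT
  have h1 : (T.image f).card = T.card :=
    Finset.card_image_of_injOn (fun x hx y hy e => hi x y (hT x hx) (hT y hy) e)
  rw [← h1]
  refine h _ (fun y hy => ?_)
  obtain ⟨x, hx, rfl⟩ := Finset.mem_image.1 hy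
  exact hf x (hT x hx)

/-- injective labelling by a finite type -/
theorem AtMost.label {P : ℕ → Prop} {M : Type} [Finite M] (f : ℕ → M)
    (hi : ∀ x y, P x → P y → f x = f y → x = y) : AtMost (Nat.card M) P := by
  classical
  intro T hT
  have := Fintype.ofFinite M
  have h1 : (T.image f).card = T.card :=
    Finset.card_image_of_injOn (fun x hx y hy e => hi x y (hT x hx) (hT y hy) e)
  rw [← h1, Nat.card_eq_fintype_card]
  exact Finset.card_le_univ _

/-- at most `N` elements of each label -/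
theorem AtMost.lanes {N : ℕ} {P : ℕ → Prop} {M : Type} [Finite M] (f : ℕ → M)
    (h : ∀ c, AtMost N (fun x => P x ∧ f x = c)) : AtMost (N * Nat.card M) P := by
  classical
  intro T hT
  have := Fintype.ofFinite M
  rw [Nat.card_eq_fintype_card, mul_comm]
  refine Finset.card_le_mul_card_image_of_maps_to (s := T) (t := Finset.univ) (f := f)
    (fun _ _ => Finset.mem_univ _) N (fun c _ => ?_) |>.trans (le_of_eq ?_)
  · exact h c _ (fun x hx => by
      have := Finset.mem_filter.1 hx
      exact ⟨hT x this.1, this.2⟩)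
  · rw [Finset.card_univ, mul_comm]

/-- `Y` is a code between `X` and the sought completion: same `L = X^d A^*`, same `R = A^* X^{d'}` -/
structure Good (X : Set (List α)) (d d' : ℕ) (Y : Set (List α)) : Prop where
  sub : X ⊆ Y
  nil : [] ∉ Y
  reg : FC.Reg Y
  eL : LL Y d = LL X d
  eR : RR Y d' = RR X d'
  dL : ∀ y ∈ Y, ∀ y' ∈ Y, ∀ l ∈ LL X d, ∀ l' ∈ LL X d, y ++ l = y' ++ l' → y = y'
  dR : ∀ y ∈ Y, ∀ y' ∈ Y, ∀ r ∈ RR X d', ∀ r' ∈ RR X d', r ++ y = r' ++ y' → y = y'

/-- position `x` of `w` cuts `w` as `R * L` and the right part is not in `YL` -/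
def isS (L R Y : Set (List α)) (w : List α) (x : ℕ) : Prop :=
  x ≤ w.length ∧ w.take x ∈ R ∧ w.drop x ∈ L ∧ w.drop x ∉ cat Y L

/-- position `x` of `w` cuts `w` as `R * L` and the left part is not in `RY` -/
def isE (L R Y : Set (List α)) (w : List α) (x : ℕ) : Prop :=
  x ≤ w.length ∧ w.take x ∈ R ∧ w.drop x ∈ L ∧ w.take x ∉ cat R Y

/-- `D(a,b) = #(s ∩ [a,b)) - #(e ∩ (a,b])` -/
noncomputable def Dsum (s e : ℕ → Prop) (a b : ℕ) : ℤ :=
  open Classical in
  ∑ x ∈ Finset.Ico a b, ((if s x then 1 else 0) - (if e (x + 1) then 1 else 0))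

/-- number of `x` in `[a,b)` with `A x` -/
noncomputable def cntIco (A : ℕ → Prop) (a b : ℕ) : ℕ :=
  open Classical in ((Finset.Ico a b).filter A).card

/-- number of `x` in `(a,b]` with `A x` -/
noncomputable def cntIoc (A : ℕ → Prop) (a b : ℕ) : ℕ :=
  open Classical in ((Finset.Ioc a b).filter A).card

/-- the matching condition defining the added words -/
def ZCond (s e A B : ℕ → Prop) (i j K H : ℕ) : Prop :=
  ∃ a b, i ≤ a ∧ a < b ∧ b ≤ j ∧ A a ∧ B b ∧ cntIco A i a = K ∧ cntIoc B b j = K ∧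
    Dsum s e a b = 0 ∧ (∀ v, a < v → v < b → 1 ≤ Dsum s e a v) ∧
    (∀ v, a ≤ v → v ≤ b → Dsum s e a v ≤ (H : ℤ))

end Pool.Agent.W_MP_733b23_lc
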