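import Mathlib

set_option autoImplicit false

/-!
Finite congruences on words, presented as maps to a finite type compatible with concatenation.
-/

namespace Pool.Agent.W_MP_733b23_lc

variable {α : Type}

/-- a finite congruence on words, presented as a map to a finite type compatible with `++` -/
structure FC (α : Type) where
  M : Type
  fin : Finite M
  f : List α → M
  m : M → M → M
  map_append : ∀ u v, f (u ++ v) = m (f u) (f v)

attribute [instance] FC.fin

namespace FC

/-- the language is saturated by the congruence -/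
def Rec (φ : FC α) (L : Set (List α)) : Prop := ∀ u v, φ.f u = φ.f v → u ∈ L → v ∈ L

theorem Rec.iff {φ : FC α} {L : Set (List α)} (h : φ.Rec L) {u v : List α} (e : φ.f u = φ.f v) :
    u ∈ L ↔ v ∈ L := ⟨h u v e, h v u e.symm⟩

theorem congr (φ : FC α) {u u' v v' : List α} (h : φ.f u = φ.f u') (h' : φ.f v = φ.f v') :
    φ.f (u ++ v) = φ.f (u' ++ v') := by
  rw [φ.map_append, φ.map_append, h, h']

/-- product -/
def prod (φ ψ : FC α) : FC α where
  M := φ.M × ψ.M
  fin := inferInstance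
  f u := (φ.f u, ψ.f u)
  m x y := (φ.m x.1 y.1, ψ.m x.2 y.2)
  map_append u v := by simp [φ.map_append, ψ.map_append]

theorem prod_eq {φ ψ : FC α} {u v : List α} :
    (φ.prod ψ).f u = (φ.prod ψ).f v ↔ φ.f u = φ.f v ∧ ψ.f u = ψ.f v := by
  constructor
  · intro h
    exact ⟨congrArg Prod.fst h, congrArg Prod.snd h⟩
  · intro h
    exact Prod.ext h.1 h.2

theorem Rec.left {φ : FC α} (ψ : FC α) {L : Set (List α)} (h : φ.Rec L) : (φ.prod ψ).Rec L :=
  fun u v e => h u v (prod_eq.1 e).1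

theorem Rec.right {ψ : FC α} (φ : FC α) {L : Set (List α)} (h : ψ.Rec L) : (φ.prod ψ).Rec L :=
  fun u v e => h u v (prod_eq.1 e).2

/-- congruence remembering the types of the two halves of all factorizations -/
def cut (φ : FC α) : FC α where
  M := φ.M × Set (φ.M × φ.M)
  fin := inferInstance
  f u := (φ.f u, {p | ∃ a b, a ++ b = u ∧ p = (φ.f a, φ.f b)})
  m x y := (φ.m x.1 y.1, {p | (∃ q ∈ x.2, p = (q.1, φ.m q.2 y.1)) ∨ (∃ q ∈ y.2, p = (φ.m x.1 q.1, q.2))})
  map_append u v := by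
    refine Prod.ext (φ.map_append u v) ?_
    ext p
    simp only [Set.mem_ofPred_eq]
    constructor
    · rintro ⟨a, b, hab, rfl⟩
      rcases List.append_eq_append_iff.1 hab with ⟨c, h1, h2⟩ | ⟨c, h1, h2⟩
      · left
        refine ⟨_, ⟨a, c, h1.symm, rfl⟩, ?_⟩
        rw [h2, φ.map_append]
      · right
        refine ⟨_, ⟨c, b, h2.symm, rfl⟩, ?_⟩
        rw [h1, φ.map_append]
    · rintro (⟨q, ⟨a, c, rfl, rfl⟩, rfl⟩ | ⟨q, ⟨c, b, rfl, rfl⟩, rfl⟩)
      · exact ⟨a, c ++ v, by simp, by simp [φ.map_append]⟩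
      · exact ⟨u ++ c, b, by simp, by simp [φ.map_append]⟩

theorem cut_fst {φ : FC α} {u v : List α} (h : φ.cut.f u = φ.cut.f v) : φ.f u = φ.f v :=
  congrArg Prod.fst h

theorem cut_snd {φ : FC α} {u v : List α} (h : φ.cut.f u = φ.cut.f v) {a b : List α}
    (hab : a ++ b = u) : ∃ a' b', a' ++ b' = v ∧ φ.f a = φ.f a' ∧ φ.f b = φ.f b' := by
  have h2 := congrArg Prod.snd h
  have : (φ.f a, φ.f b) ∈ (φ.cut.f u).2 := ⟨a, b, hab, rfl⟩
  rw [h2] at this
  obtain ⟨a', b', h1, h3⟩ := this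
  exact ⟨a', b', h1, congrArg Prod.fst h3, congrArg Prod.snd h3⟩

theorem Rec.cut {φ : FC α} {L : Set (List α)} (h : φ.Rec L) : φ.cut.Rec L :=
  fun u v e => h u v (cut_fst e)

/-- the trivial congruence -/
def triv (α : Type) : FC α where
  M := Unit
  fin := inferInstance
  f _ := ()
  m _ _ := ()
  map_append _ _ := rfl

theorem rec_univ (φ : FC α) : φ.Rec Set.univ := fun _ _ _ _ => trivial

theorem rec_empty (φ : FC α) : φ.Rec ∅ := fun _ _ _ h => h

theorem Rec.inter {φ : FC α} {L L' : Set (List α)} (h : φ.Rec L) (h' : φ.Rec L') :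
    φ.Rec (L ∩ L') := fun u v e hu => ⟨h u v e hu.1, h' u v e hu.2⟩

theorem Rec.union {φ : FC α} {L L' : Set (List α)} (h : φ.Rec L) (h' : φ.Rec L') :
    φ.Rec (L ∪ L') := fun u v e hu => hu.elim (fun k => Or.inl (h u v e k)) (fun k => Or.inr (h' u v e k))

theorem Rec.compl {φ : FC α} {L : Set (List α)} (h : φ.Rec L) : φ.Rec Lᶜ :=
  fun u v e hu hv => hu (h v u e.symm hv)

/-- congruence from a right-to-left automaton -/
def ofFoldr {σ : Type} [Finite σ] (step : α → σ → σ) : FC α where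
  M := σ → σ
  fin := inferInstance
  f u := fun s => u.foldr step s
  m x y := fun s => x (y s)
  map_append u v := by
    funext s
    simp

/-- congruence from a left-to-right automaton -/
def ofFoldl {σ : Type} [Finite σ] (step : σ → α → σ) : FC α where
  M := σ → σ
  fin := inferInstance
  f u := fun s => u.foldl step s
  m x y := fun s => y (x s)
  map_append u v := by
    funext s
    simp

/-- recognizable languages -/
def Reg (L : Set (List α)) : Prop := ∃ φ : FC α, φ.Rec L

theorem reg_iff_dfa (L : Set (List α)) :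
    Reg L ↔ ∃ (σ : Type) (_ : Fintype σ) (M : DFA α σ), M.accepts = L := by
  classical
  constructor
  · rintro ⟨φ, h⟩
    refine ⟨φ.M, Fintype.ofFinite _, ⟨fun s a => φ.m s (φ.f [a]), φ.f [], {s | ∃ u ∈ L, φ.f u = s}⟩, ?_⟩
    have key : ∀ u : List α, ∀ v : List α,
        List.foldl (fun s a => φ.m s (φ.f [a])) (φ.f v) u = φ.f (v ++ u) := by
      intro u
      induction u with
      | nil => intro v; simp
      | cons a u ih =>
        intro v
        have : φ.m (φ.f v) (φ.f [a]) = φ.f (v ++ [a]) := (φ.map_append _ _).symm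
        simp only [List.foldl_cons, this]
        rw [ih]
        simp
    refine Set.ext fun w => ?_
    have h0 := key w []
    simp only [List.nil_append] at h0
    constructor
    · intro hw
      obtain ⟨u, hu, he⟩ : ∃ u ∈ L, φ.f u = List.foldl (fun s a => φ.m s (φ.f [a])) (φ.f []) w := hw
      rw [h0] at he
      exact h u w he hu
    · intro hw
      exact (show ∃ u ∈ L, φ.f u = List.foldl (fun s a => φ.m s (φ.f [a])) (φ.f []) w from
        ⟨w, hw, h0.symm⟩)
  · rintro ⟨σ, _, M, rfl⟩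
    refine ⟨ofFoldl M.step, ?_⟩
    intro u v e hu
    have h1 : List.foldl M.step M.start u = List.foldl M.step M.start v := congrFun e M.start
    have h2 : List.foldl M.step M.start u ∈ M.accept := hu
    rw [h1] at h2
    exact h2

end FC

/-- concatenation of languages -/
def cat (A B : Set (List α)) : Set (List α) := {w | ∃ a ∈ A, ∃ b ∈ B, a ++ b = w}

theorem FC.Rec.cat {φ : FC α} {A B : Set (List α)} (hA : φ.Rec A) (hB : φ.Rec B) :
    φ.cut.Rec (cat A B) := by
  rintro u v e ⟨a, ha, b, hb, hab⟩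
  obtain ⟨a', b', h1, h2, h3⟩ := FC.cut_snd e hab
  exact ⟨a', hA _ _ h2 ha, b', hB _ _ h3 hb, h1⟩

/-- existence of a common congruence -/
theorem FC.Reg.common {A B : Set (List α)} (hA : FC.Reg A) (hB : FC.Reg B) :
    ∃ φ : FC α, φ.Rec A ∧ φ.Rec B := by
  obtain ⟨φ, h1⟩ := hA
  obtain ⟨ψ, h2⟩ := hB
  exact ⟨φ.prod ψ, h1.left ψ, h2.right φ⟩

theorem FC.Reg.cat {A B : Set (List α)} (hA : FC.Reg A) (hB : FC.Reg B) :
    FC.Reg (cat A B) := by
  obtain ⟨φ, h1, h2⟩ := FC.Reg.common hA hB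
  exact ⟨φ.cut, h1.cat h2⟩

theorem FC.Reg.inter {A B : Set (List α)} (hA : FC.Reg A) (hB : FC.Reg B) :
    FC.Reg (A ∩ B) := by
  obtain ⟨φ, h1, h2⟩ := FC.Reg.common hA hB
  exact ⟨φ, h1.inter h2⟩

theorem FC.Reg.union {A B : Set (List α)} (hA : FC.Reg A) (hB : FC.Reg B) :
    FC.Reg (A ∪ B) := by
  obtain ⟨φ, h1, h2⟩ := FC.Reg.common hA hB
  exact ⟨φ, h1.union h2⟩

theorem FC.Reg.compl {A : Set (List α)} (hA : FC.Reg A) : FC.Reg Aᶜ := by
  obtain ⟨φ, h1⟩ := hA
  exact ⟨φ, h1.compl⟩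

theorem FC.reg_univ : FC.Reg (Set.univ : Set (List α)) := ⟨FC.triv α, FC.rec_univ _⟩

/-- words extendable to the right into the language -/
def quoR (A : Set (List α)) : Set (List α) := {u | ∃ v, u ++ v ∈ A}

/-- words extendable to the left into the language -/
def quoL (A : Set (List α)) : Set (List α) := {u | ∃ v, v ++ u ∈ A}

theorem FC.Rec.quoR {φ : FC α} {A : Set (List α)} (hA : φ.Rec A) : φ.Rec (quoR A) := by
  rintro u v e ⟨s, hs⟩
  exact ⟨s, hA _ _ (φ.congr e rfl) hs⟩

theorem FC.Rec.quoL {φ : FC α} {A : Set (List α)} (hA : φ.Rec A) : φ.Rec (quoL A) := by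
  rintro u v e ⟨s, hs⟩
  exact ⟨s, hA _ _ (φ.congr rfl e) hs⟩

/-- the words `X^n A^*` -/
def LL (X : Set (List α)) : ℕ → Set (List α)
  | 0 => Set.univ
  | n + 1 => cat X (LL X n)

/-- the words `A^* X^n` -/
def RR (X : Set (List α)) : ℕ → Set (List α)
  | 0 => Set.univ
  | n + 1 => cat (RR X n) X

theorem FC.reg_LL {X : Set (List α)} (hX : FC.Reg X) (n : ℕ) : FC.Reg (LL X n) := by
  induction n with
  | zero => exact FC.reg_univ
  | succ n ih => exact FC.Reg.cat hX ih

theorem FC.reg_RR {X : Set (List α)} (hX : FC.Reg X) (n : ℕ) : FC.Reg (RR X n) := by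
  induction n with
  | zero => exact FC.reg_univ
  | succ n ih => exact FC.Reg.cat ih hX

theorem LL_ext (X : Set (List α)) (n : ℕ) {u v : List α} (h : u ∈ LL X n) : u ++ v ∈ LL X n := by
  induction n generalizing u with
  | zero => trivial
  | succ n ih =>
    obtain ⟨a, ha, b, hb, rfl⟩ := h
    exact ⟨a, ha, b ++ v, ih hb, by simp⟩

theorem RR_ext (X : Set (List α)) (n : ℕ) {u v : List α} (h : u ∈ RR X n) : v ++ u ∈ RR X n := by
  induction n generalizing u with
  | zero => trivial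
  | succ n ih =>
    obtain ⟨a, ha, b, hb, rfl⟩ := h
    exact ⟨v ++ a, ih ha, b, hb, by simp⟩

theorem cat_mono {A A' B B' : Set (List α)} (h : A ⊆ A') (h' : B ⊆ B') : cat A B ⊆ cat A' B' := by
  rintro w ⟨a, ha, b, hb, rfl⟩
  exact ⟨a, h ha, b, h' hb, rfl⟩

theorem LL_succ_sub (X : Set (List α)) (n : ℕ) : LL X (n + 1) ⊆ LL X n := by
  induction n with
  | zero => intro w _; trivial
  | succ n ih => exact cat_mono (le_refl _) ih

theorem RR_succ_sub (X : Set (List α)) (n : ℕ) : RR X (n + 1) ⊆ RR X n := by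
  induction n with
  | zero => intro w _; trivial
  | succ n ih => exact cat_mono ih (le_refl _)

end Pool.Agent.W_MP_733b23_lc
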