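import Pool.Agent.W_MP_733b23_lc.Core
import Pool.Agent.W_MP_733b23_lc.Comb

set_option autoImplicit false

/-!
Long lanes leave `F` twice; the added set `Z`; the conditions `C_R` and `C_L`.
-/

namespace Pool.Agent.W_MP_733b23_lc

variable {α : Type}

theorem take_seg (w : List α) {i x k : ℕ} (h : i ≤ x) (h' : x ≤ k) :
    (seg w i k).take (x - i) = seg w i x := by
  have := seg_seg w (i := i) (j := k) (a := 0) (b := x - i) (by omega)
  rw [seg_zero] at this
  rw [this]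
  congr 1
  omega

theorem drop_seg (w : List α) {i x k : ℕ} (h : i ≤ x) :
    (seg w i k).drop (x - i) = seg w x k := by
  unfold seg
  rw [List.drop_drop]
  congr 1
  omega

namespace Ctx

open Classical

variable {c : Ctx α}

/-- the length of half a lane -/
def mm (c : Ctx α) : ℕ := c.n + c.NL + c.NR + 1

theorem lemmaK {w : List α} {i k j : ℕ} (hkj : k ≤ j) (hk : k ≤ w.length) (T : Finset ℕ)
    (hT : ∀ x ∈ T, i ≤ x ∧ x ≤ k ∧ seg w i x ∈ c.R ∧ seg w x j ∈ c.Sg)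
    (hm : c.mm ≤ T.card) : seg w i k ∉ c.F := by
  intro hF
  have h1 := (c.bS _ hF).or (c.bL (seg w i k))
  have h2 : AtMost (c.n + c.NL) (fun x => i ≤ x ∧ x ≤ k ∧ seg w i x ∈ c.R ∧ seg w x j ∈ c.Sg) := by
    refine h1.map (fun x => x - i) ?_ ?_
    · rintro x ⟨hx1, hx2, hx3, hx4⟩
      have hl : x - i ≤ (seg w i k).length := by rw [seg_length w hk]; omega
      have happ := seg_append w hx2 hkj
      by_cases hL : seg w x k ∈ c.L
      · left
        refine ⟨hl, ?_, ?_, ?_⟩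
        · rw [take_seg w hx1 hx2]; exact hx3
        · rw [drop_seg w hx1]; exact hL
        · rw [drop_seg w hx1]
          rintro ⟨y, hy, l, hl', he⟩
          exact hx4.2.2 [] ⟨y, hy, l ++ seg w k j, c.Lext _ _ hl', by
            rw [← List.append_assoc, he, happ]; simp⟩
      · right
        refine ⟨hl, ?_, ?_, ?_⟩
        · rw [take_seg w hx1 hx2]; exact hx3
        · rw [drop_seg w hx1]; exact hL
        · rw [drop_seg w hx1]
          exact ⟨seg w k j, by rw [happ]; exact hx4.2.1⟩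
    · rintro x y ⟨hx1, _⟩ ⟨hy1, _⟩ h
      have h : x - i = y - i := h
      omega
  have := h2 T hT
  unfold mm at hm
  omega

theorem lemmaK' {w : List α} {i k j : ℕ} (hik : i ≤ k) (hj : j ≤ w.length) (T : Finset ℕ)
    (hT : ∀ y ∈ T, k ≤ y ∧ y ≤ j ∧ seg w y j ∈ c.L ∧ seg w i y ∈ c.Sg')
    (hm : c.mm ≤ T.card) : seg w k j ∉ c.F := by
  intro hF
  have h1 := (c.bE _ hF).or (c.bR (seg w k j))
  have h2 : AtMost (c.n + c.NR) (fun y => k ≤ y ∧ y ≤ j ∧ seg w y j ∈ c.L ∧ seg w i y ∈ c.Sg') := by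
    refine h1.map (fun x => x - k) ?_ ?_
    · rintro x ⟨hx1, hx2, hx3, hx4⟩
      have hl : x - k ≤ (seg w k j).length := by rw [seg_length w hj]; omega
      have happ := seg_append w hik hx1
      by_cases hR : seg w k x ∈ c.R
      · left
        refine ⟨hl, ?_, ?_, ?_⟩
        · rw [take_seg w hx1 hx2]; exact hR
        · rw [drop_seg w hx1]; exact hx3
        · rw [take_seg w hx1 hx2]
          rintro ⟨r, hr, y, hy, he⟩
          exact hx4.2.2 [] ⟨seg w i k ++ r, c.Rext _ _ hr, y, hy, by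
            rw [List.append_assoc, he, happ]; simp⟩
      · right
        refine ⟨hl, ?_, ?_, ?_⟩
        · rw [drop_seg w hx1]; exact hx3
        · rw [take_seg w hx1 hx2]; exact hR
        · rw [take_seg w hx1 hx2]
          exact ⟨seg w i k, by rw [happ]; exact hx4.2.1⟩
    · rintro x y ⟨hx1, _⟩ ⟨hy1, _⟩ h
      have h : x - k = y - k := h
      omega
  have := h2 T hT
  unfold mm at hm
  omega

/-- a long lane to the right of `i` -/
theorem laneJ2 {w : List α} (hw : w ∈ c.Fp) {i' i k j : ℕ} (h0 : i' ≤ i) (hkj : k ≤ j)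
    (hj : j ≤ w.length) (hi : seg w i j ∈ c.Sg) (T : Finset ℕ)
    (hT : ∀ x ∈ T, i < x ∧ x ≤ k ∧ seg w i' x ∈ c.R ∧ seg w x j ∈ c.Sg ∧
      c.φ.f (seg w x j) = c.φ.f (seg w i j))
    (hm : 2 * c.mm ≤ T.card) : seg w i k ∈ c.J2 := by
  have hm1 : 1 ≤ c.mm := by unfold mm; omega
  obtain ⟨b, hb, hb'⟩ := exists_split_low T c.mm hm1 (by omega)
  obtain ⟨hb1, hb2, hb3, hb4, hb5⟩ := hT b hb
  have hcard := Finset.card_filter_add_card_filter_not (s := T) (fun x => x ≤ b)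
  have hA : seg w i b ∉ c.F := by
    refine lemmaK (c := c) (w := w) (i := i) (k := b) (j := j) (by omega) (by omega)
      (T.filter (fun x => x ≤ b)) ?_ (by omega)
    intro x hx
    obtain ⟨hx0, hxb⟩ := Finset.mem_filter.1 hx
    obtain ⟨h1, h2, h3, h4, h5⟩ := hT x hx0
    exact ⟨h1.le, hxb, laneR h0 h1 (by omega) (by omega) hi h4 h5 h3, h4⟩
  have hB : seg w b k ∉ c.F := by
    refine lemmaK (c := c) (w := w) (i := b) (k := k) (j := j) (by omega) (by omega)
      (T.filter (fun x => ¬ x ≤ b)) ?_ (by omega)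
    intro x hx
    obtain ⟨hx0, hxb⟩ := Finset.mem_filter.1 hx
    obtain ⟨h1, h2, h3, h4, h5⟩ := hT x hx0
    exact ⟨by omega, h2, laneR (h0.trans hb1.le) (by omega) (by omega) (by omega) hb4 h4
      (h5.trans hb5.symm) h3, h4⟩
  exact ⟨iFp hw _ _, _, _, hA, hB, seg_append w hb1.le hb2⟩

/-- a long lane to the left of `j` -/
theorem laneJ2' {w : List α} (hw : w ∈ c.Fp) {i k j j' : ℕ} (hik : i ≤ k) (h0 : j ≤ j')
    (hj : j ≤ w.length) (hi : seg w i j ∈ c.Sg') (T : Finset ℕ)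
    (hT : ∀ y ∈ T, k ≤ y ∧ y < j ∧ seg w y j' ∈ c.L ∧ seg w i y ∈ c.Sg' ∧
      c.φ.f (seg w i y) = c.φ.f (seg w i j))
    (hm : 2 * c.mm ≤ T.card) : seg w k j ∈ c.J2 := by
  have hm1 : 1 ≤ c.mm := by unfold mm; omega
  obtain ⟨b, hb, hb'⟩ := exists_split_high T c.mm hm1 (by omega)
  obtain ⟨hb1, hb2, hb3, hb4, hb5⟩ := hT b hb
  have hcard := Finset.card_filter_add_card_filter_not (s := T) (fun x => b ≤ x)
  have hA : seg w b j ∉ c.F := by
    refine lemmaK' (c := c) (w := w) (i := i) (k := b) (j := j) (by omega) (by omega)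
      (T.filter (fun x => b ≤ x)) ?_ (by omega)
    intro x hx
    obtain ⟨hx0, hxb⟩ := Finset.mem_filter.1 hx
    obtain ⟨h1, h2, h3, h4, h5⟩ := hT x hx0
    exact ⟨hxb, h2.le, laneL (by omega) h2 h0 hj hi h4 h5 h3, h4⟩
  have hB : seg w k b ∉ c.F := by
    refine lemmaK' (c := c) (w := w) (i := i) (k := k) (j := b) (by omega) (by omega)
      (T.filter (fun x => ¬ b ≤ x)) ?_ (by omega)
    intro x hx
    obtain ⟨hx0, hxb⟩ := Finset.mem_filter.1 hx
    obtain ⟨h1, h2, h3, h4, h5⟩ := hT x hx0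
    exact ⟨h1, by omega, laneL (by omega) (by omega) (by omega : b ≤ j') (by omega) hb4 h4
      (h5.trans hb5.symm) h3, h4⟩
  exact ⟨iFp hw _ _, _, _, hB, hA, seg_append w hb1 hb2.le⟩

/-! ### starts, ends, lanes, the added set -/

/-- starts of the interval `[i,j]` of `w` -/
def St (c : Ctx α) (w : List α) (i j x : ℕ) : Prop :=
  i ≤ x ∧ x ≤ j ∧ seg w i x ∈ c.R ∧ seg w x j ∈ c.J2 ∧ seg w x j ∈ c.Sg

/-- ends of the interval `[i,j]` of `w` -/
def En (c : Ctx α) (w : List α) (i j y : ℕ) : Prop :=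
  i ≤ y ∧ y ≤ j ∧ seg w y j ∈ c.L ∧ seg w i y ∈ c.J2 ∧ seg w i y ∈ c.Sg'

/-- the lane of `i` -/
def Lam (c : Ctx α) (w : List α) (i j x : ℕ) : Prop :=
  i < x ∧ c.St w i j x ∧ c.φ.f (seg w x j) = c.φ.f (seg w i j)

/-- the lane of `j` -/
def Lam' (c : Ctx α) (w : List α) (i j y : ℕ) : Prop :=
  y < j ∧ c.En w i j y ∧ c.φ.f (seg w i y) = c.φ.f (seg w i j)

/-- the interval `[i,j]` of `w` is an added word -/
def Zi (c : Ctx α) (H : ℕ) (w : List α) (i j : ℕ) : Prop :=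
  seg w i j ∈ c.Fp ∧ seg w i j ∈ c.Sg ∧ seg w i j ∈ c.Sg' ∧
    ZCond (c.St w i j) (c.En w i j) (c.Lam w i j) (c.Lam' w i j) i j (2 * c.mm - 1) H

/-- the added words -/
def Z (c : Ctx α) (H : ℕ) : Set (List α) := {z | c.Zi H z 0 z.length}

theorem Zi_iff {H : ℕ} {w : List α} {i j : ℕ} (hij : i ≤ j) (hj : j ≤ w.length) :
    c.Zi H w i j ↔ seg w i j ∈ c.Z H := by
  have hl : (seg w i j).length = j - i := seg_length w hj
  have hs : ∀ a b, b ≤ j - i → seg (seg w i j) a b = seg w (i + a) (i + b) :=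
    fun a b h => seg_seg w h
  have hij' : i + (j - i) = j := by omega
  have hSt : ∀ x, x ≤ j - i → (c.St (seg w i j) 0 (j - i) x ↔ c.St w i j (i + x)) := by
    intro x hx
    unfold St
    rw [hs 0 x hx, hs x (j - i) le_rfl, hij', Nat.add_zero]
    constructor
    · rintro ⟨_, _, h⟩
      exact ⟨by omega, by omega, h⟩
    · rintro ⟨_, _, h⟩
      exact ⟨by omega, by omega, h⟩
  have hEn : ∀ x, x ≤ j - i → (c.En (seg w i j) 0 (j - i) x ↔ c.En w i j (i + x)) := by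
    intro x hx
    unfold En
    rw [hs 0 x hx, hs x (j - i) le_rfl, hij', Nat.add_zero]
    constructor
    · rintro ⟨_, _, h⟩
      exact ⟨by omega, by omega, h⟩
    · rintro ⟨_, _, h⟩
      exact ⟨by omega, by omega, h⟩
  have hLa : ∀ x, x ≤ j - i → (c.Lam (seg w i j) 0 (j - i) x ↔ c.Lam w i j (i + x)) := by
    intro x hx
    unfold Lam
    rw [hSt x hx, hs x (j - i) le_rfl, hs 0 (j - i) le_rfl, hij', Nat.add_zero]
    constructor
    · rintro ⟨_, h⟩
      exact ⟨by omega, h⟩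
    · rintro ⟨_, h⟩
      exact ⟨by omega, h⟩
  have hLa' : ∀ x, x ≤ j - i → (c.Lam' (seg w i j) 0 (j - i) x ↔ c.Lam' w i j (i + x)) := by
    intro x hx
    unfold Lam'
    rw [hEn x hx, hs 0 x hx, hs 0 (j - i) le_rfl, hij', Nat.add_zero]
    constructor
    · rintro ⟨_, h⟩
      exact ⟨by omega, h⟩
    · rintro ⟨_, h⟩
      exact ⟨by omega, h⟩
  have h0 : seg (seg w i j) 0 (j - i) = seg w i j := by
    rw [hs 0 (j - i) le_rfl, hij', Nat.add_zero]
  show c.Zi H w i j ↔ c.Zi H (seg w i j) 0 (seg w i j).length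
  unfold Zi
  rw [hl, h0]
  refine and_congr Iff.rfl (and_congr Iff.rfl (and_congr Iff.rfl ?_))
  rw [← ZCond_shift hij]
  constructor
  · exact ZCond_congr (fun x _ hx => (hSt x hx).symm) (fun x _ hx => (hEn x hx).symm)
      (fun x _ hx => (hLa x hx).symm) (fun x _ hx => (hLa' x hx).symm)
  · exact ZCond_congr (fun x _ hx => (hSt x hx)) (fun x _ hx => (hEn x hx))
      (fun x _ hx => (hLa x hx)) (fun x _ hx => (hLa' x hx))

/-- the part of an added word before the first marked position is in `J2` -/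
theorem Zi_J2 {H : ℕ} {w : List α} (hw : w ∈ c.Fp) {i j a : ℕ} (hj : j ≤ w.length)
    (h : c.Zi H w i j) (ha : i ≤ a) (haj : a ≤ j) (hA : c.Lam w i j a)
    (hK : cntIco (c.Lam w i j) i a = 2 * c.mm - 1) : seg w i a ∈ c.J2 := by
  refine laneJ2 hw (i' := i) (i := i) (k := a) (j := j) le_rfl haj hj h.2.1
    ((Finset.Ico i (a + 1)).filter (c.Lam w i j)) ?_ ?_
  · intro x hx
    simp only [Finset.mem_filter, Finset.mem_Ico] at hx
    obtain ⟨⟨h1, h2⟩, h3, ⟨h4, h5, h6, h7, h8⟩, h9⟩ := hx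
    exact ⟨h3, by omega, h6, h8, h9⟩
  · have h1 : cntIco (c.Lam w i j) i (a + 1) = 2 * c.mm - 1 + 1 := by
      rw [cntIco_succ _ ha, hK, if_pos hA]
    have hm1 : 1 ≤ c.mm := by unfold mm; omega
    unfold cntIco at h1
    rw [h1]
    omega

theorem Zi_J2' {H : ℕ} {w : List α} (hw : w ∈ c.Fp) {i j b : ℕ} (hj : j ≤ w.length)
    (h : c.Zi H w i j) (hb : i ≤ b) (hbj : b < j) (hB : c.Lam' w i j b)
    (hK : cntIoc (c.Lam' w i j) b j = 2 * c.mm - 1) : seg w b j ∈ c.J2 := by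
  have hm1 : 1 ≤ c.mm := by unfold mm; omega
  refine laneJ2' hw (i := i) (k := b) (j := j) (j' := j) hb le_rfl hj h.2.2.1
    (insert b ((Finset.Ioc b j).filter (c.Lam' w i j))) ?_ ?_
  · intro x hx
    have hx' : b ≤ x ∧ c.Lam' w i j x := by
      rcases Finset.mem_insert.1 hx with rfl | hx
      · exact ⟨le_rfl, hB⟩
      · simp only [Finset.mem_filter, Finset.mem_Ioc] at hx
        exact ⟨hx.1.1.le, hx.2⟩
    obtain ⟨h0, h3, ⟨h4, h5, h6, h7, h8⟩, h9⟩ := hx'
    exact ⟨h0, h3, h6, h8, h9⟩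
  · rw [Finset.card_insert_of_notMem (by simp)]
    unfold cntIoc at hK
    rw [hK]
    omega

/-- condition `C_R` -/
theorem CR_core {H : ℕ} {w : List α} (hw : w ∈ c.Fp) {t : ℕ} (ht : 0 < t) (htw : t ≤ w.length)
    (h1 : c.Zi H w t w.length) (h2 : c.Zi H w 0 w.length) (hR : seg w 0 t ∈ quoL c.R) : False := by
  set N := w.length with hN
  obtain ⟨a, b, ha1, ha2, ha3, ha4, ha5, ha6, ha7, ha8, ha9, ha10⟩ := h1.2.2.2
  obtain ⟨a', b', hb1, hb2, hb3, hb4, hb5, hb6, hb7, hb8, hb9, hb10⟩ := h2.2.2.2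
  have hJ : seg w t a ∈ c.J2 := Zi_J2 hw le_rfl h1 ha1 (by omega) ha4 ha6
  have hJx : ∀ x, a ≤ x → seg w t x ∈ c.J2 := fun x hx => iJ2 hw le_rfl ha1 hx hJ
  have hSt : ∀ x, a ≤ x → x ≤ N → (c.St w t N x ↔ c.St w 0 N x) := by
    intro x hx hx'
    constructor
    · rintro ⟨h3, h4, h5, h6, h7⟩
      exact ⟨by omega, h4, iR (by omega) h3 h5, h6, h7⟩
    · rintro ⟨h3, h4, h5, h6, h7⟩
      exact ⟨by omega, h4, ifrzR hw (by omega) (by omega) (J2_notF (hJx x hx)) h5, h6, h7⟩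
  have hEn : ∀ x, a ≤ x → x ≤ N → (c.En w t N x ↔ c.En w 0 N x) := by
    intro x hx hx'
    constructor
    · rintro ⟨h3, h4, h5, h6, h7⟩
      exact ⟨by omega, h4, h5, iJ2 hw (by omega) h3 le_rfl h6, iSg' hw (by omega) h3 h7⟩
    · rintro ⟨h3, h4, h5, h6, h7⟩
      exact ⟨by omega, h4, h5, hJx x hx, i4' (by omega) (by omega) (hJx x hx) h7⟩
  have hLa : ∀ x, a ≤ x → x ≤ N → (c.Lam' w t N x ↔ c.Lam' w 0 N x) := by
    intro x hx hx'
    constructor
    · rintro ⟨h3, h4, h5⟩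
      exact ⟨h3, (hEn x hx hx').1 h4, icL (by omega) (by omega) (by omega) h5⟩
    · rintro ⟨h3, h4, h5⟩
      exact ⟨h3, (hEn x hx hx').2 h4, igL hw (by omega) (by omega) (by omega)
        (J2_notF (hJx x hx)) h5⟩
  have hbb : b = b' := by
    refine cntIoc_unique (A := c.Lam' w 0 N) (j := N) ha3 hb3 ((hLa b (by omega) ha3).1 ha5) hb5 ?_
    rw [hb7, ← ha7]
    exact cntIoc_congr fun x hx hx' => (hLa x (by omega) hx').symm
  subst hbb
  have hD : ∀ v, a ≤ v → v ≤ N →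
      Dsum (c.St w t N) (c.En w t N) a v = Dsum (c.St w 0 N) (c.En w 0 N) a v := by
    intro v hv hv'
    exact Dsum_congr (fun x hx hx' => hSt x hx (by omega)) (fun x hx hx' => hEn x (by omega) (by omega))
  have haa : a = a' := by
    refine match_unique_left (s := c.St w 0 N) (e := c.En w 0 N) ha2 hb2 ?_ ?_ hb8 hb9
    · rw [← hD b ha2.le ha3, ha8]
    · intro v hv hv'
      rw [← hD v hv.le (by omega)]
      exact ha9 v hv hv'
  subst haa
  have hφ : c.φ.f (seg w 0 N) = c.φ.f (seg w t N) := hb4.2.2.symm.trans ha4.2.2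
  have hR' : seg w 0 t ∈ c.R := by
    have h3 := seg_append w ht.le htw
    have h4 := h2.2.1
    have h5 := h1.2.1
    have h6 := hφ
    rw [← h3] at h4 h6
    refine c.colR _ _ ?_ h5.2.1 (Sg_dead h5) h4.2.1 (Sg_dead h4) hR h6
    intro h
    have := congrArg List.length h
    rw [seg_length w htw] at this
    simp at this
    omega
  have htN : t ≤ N := htw
  have hLt : c.Lam w 0 N t := by
    refine ⟨ht, ⟨by omega, htN, hR', iJ2 hw le_rfl ha1 (by omega) hJ, h1.2.1⟩, hφ.symm⟩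
  have hcard : cntIco (c.Lam w t N) t a + 1 ≤ cntIco (c.Lam w 0 N) 0 a := by
    have h3 : cntIco (c.Lam w 0 N) 0 a = cntIco (c.Lam w 0 N) 0 t + cntIco (c.Lam w 0 N) t a :=
      cntIco_add _ (by omega) ha1
    have h4 : cntIco (c.Lam w 0 N) t a = cntIco (c.Lam w 0 N) t (t + 1)
        + cntIco (c.Lam w 0 N) (t + 1) a := cntIco_add _ (by omega) (by have := ha4.1; omega)
    have h5 : cntIco (c.Lam w t N) t a = cntIco (c.Lam w t N) t (t + 1)
        + cntIco (c.Lam w t N) (t + 1) a := cntIco_add _ (by omega) (by have := ha4.1; omega)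
    have h6 : 1 ≤ cntIco (c.Lam w 0 N) t (t + 1) := cntIco_pos (by omega) hLt
    have h7 : cntIco (c.Lam w t N) t (t + 1) = 0 := by
      unfold cntIco
      rw [Finset.card_eq_zero, Finset.filter_eq_empty_iff]
      intro x hx hx'
      rw [Finset.mem_Ico] at hx
      have := hx'.1
      omega
    have h8 : cntIco (c.Lam w t N) (t + 1) a ≤ cntIco (c.Lam w 0 N) (t + 1) a := by
      refine cntIco_mono fun x hx hx' h9 => ?_
      obtain ⟨h10, ⟨h11, h12, h13, h14, h15⟩, h16⟩ := h9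
      exact ⟨by omega, ⟨by omega, h12, iR (by omega) (by omega) h13, h14, h15⟩, h16.trans hφ.symm⟩
    omega
  omega

/-- condition `C_L` -/
theorem CL_core {H : ℕ} {w : List α} (hw : w ∈ c.Fp) {t : ℕ} (ht : t < w.length)
    (h1 : c.Zi H w 0 t) (h2 : c.Zi H w 0 w.length) (hR : seg w t w.length ∈ quoR c.L) : False := by
  set N := w.length with hN
  obtain ⟨a, b, ha1, ha2, ha3, ha4, ha5, ha6, ha7, ha8, ha9, ha10⟩ := h1.2.2.2
  obtain ⟨a', b', hb1, hb2, hb3, hb4, hb5, hb6, hb7, hb8, hb9, hb10⟩ := h2.2.2.2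
  have hbt : b < t := ha5.1
  have hJ : seg w b t ∈ c.J2 := Zi_J2' hw ht.le h1 (by omega) hbt ha5 ha7
  have hJx : ∀ x, x ≤ b → seg w x t ∈ c.J2 := fun x hx => iJ2 hw hx hbt.le le_rfl hJ
  have hSt : ∀ x, x ≤ b → (c.St w 0 t x ↔ c.St w 0 N x) := by
    intro x hx
    constructor
    · rintro ⟨h3, h4, h5, h6, h7⟩
      exact ⟨h3, by omega, h5, iJ2 hw le_rfl h4 ht.le h6, iSg hw h4 ht.le h7⟩
    · rintro ⟨h3, h4, h5, h6, h7⟩
      exact ⟨h3, by omega, h5, hJx x hx, i4 (by omega) ht.le (hJx x hx) h7⟩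
  have hEn : ∀ x, x ≤ b → (c.En w 0 t x ↔ c.En w 0 N x) := by
    intro x hx
    constructor
    · rintro ⟨h3, h4, h5, h6, h7⟩
      exact ⟨h3, by omega, iL h4 ht.le h5, h6, h7⟩
    · rintro ⟨h3, h4, h5, h6, h7⟩
      exact ⟨h3, by omega, ifrzL hw (by omega) ht.le (J2_notF (hJx x hx)) h5, h6, h7⟩
  have hLa : ∀ x, x ≤ b → (c.Lam w 0 t x ↔ c.Lam w 0 N x) := by
    intro x hx
    constructor
    · rintro ⟨h3, h4, h5⟩
      exact ⟨h3, (hSt x hx).1 h4, icR (by omega) (by omega) ht.le h5⟩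
    · rintro ⟨h3, h4, h5⟩
      exact ⟨h3, (hSt x hx).2 h4, igR hw (by omega) (by omega) ht.le
        (J2_notF (hJx x hx)) h5⟩
  have haa : a = a' := by
    refine cntIco_unique (A := c.Lam w 0 N) (i := 0) ha1 hb1 ((hLa a (by omega)).1 ha4) hb4 ?_
    rw [hb6, ← ha6]
    exact cntIco_congr fun x hx hx' => (hLa x (by omega)).symm
  subst haa
  have hD : ∀ v, a ≤ v → v ≤ b →
      Dsum (c.St w 0 t) (c.En w 0 t) a v = Dsum (c.St w 0 N) (c.En w 0 N) a v := by
    intro v hv hv'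
    exact Dsum_congr (fun x hx hx' => hSt x (by omega)) (fun x hx hx' => hEn x (by omega))
  have hbb : b = b' := by
    refine match_unique_right (s := c.St w 0 N) (e := c.En w 0 N) ha2 hb2 ?_ ?_ hb8 hb9
    · rw [← hD b ha2.le le_rfl, ha8]
    · intro v hv hv'
      rw [← hD v hv.le (by omega)]
      exact ha9 v hv hv'
  subst hbb
  have hφ : c.φ.f (seg w 0 N) = c.φ.f (seg w 0 t) := hb5.2.2.symm.trans ha5.2.2
  have hL' : seg w t N ∈ c.L := by
    have h3 := seg_append w (Nat.zero_le t) ht.le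
    have h4 := h2.2.2.1
    have h5 := h1.2.2.1
    have h6 := hφ
    rw [← h3] at h4 h6
    refine c.colL _ _ ?_ h5.2.1 (Sg'_dead h5) h4.2.1 (Sg'_dead h4) hR h6
    intro h
    have := congrArg List.length h
    rw [seg_length w le_rfl] at this
    simp at this
    omega
  have hLt : c.Lam' w 0 N t := by
    refine ⟨ht, ⟨by omega, ht.le, hL', iJ2 hw (by omega) hbt.le le_rfl hJ, h1.2.2.1⟩, hφ.symm⟩
  have hcard : cntIoc (c.Lam' w 0 t) b t + 1 ≤ cntIoc (c.Lam' w 0 N) b N := by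
    have h3 : cntIoc (c.Lam' w 0 N) b N = cntIoc (c.Lam' w 0 N) b t + cntIoc (c.Lam' w 0 N) t N :=
      cntIoc_add _ hbt.le ht.le
    obtain ⟨t', rfl⟩ : ∃ t', t = t' + 1 := ⟨t - 1, by omega⟩
    have h4 := cntIoc_succ (c.Lam' w 0 N) (a := b) (b := t') (by omega)
    have h5 := cntIoc_succ (c.Lam' w 0 (t' + 1)) (a := b) (b := t') (by omega)
    rw [if_pos hLt] at h4
    rw [if_neg (fun h => by have := h.1; omega)] at h5
    have h8 : cntIoc (c.Lam' w 0 (t' + 1)) b t' ≤ cntIoc (c.Lam' w 0 N) b t' := by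
      unfold cntIoc
      refine Finset.card_le_card fun x hx => ?_
      simp only [Finset.mem_filter, Finset.mem_Ioc] at hx ⊢
      refine ⟨hx.1, ?_⟩
      obtain ⟨h10, ⟨h11, h12, h13, h14, h15⟩, h16⟩ := hx.2
      exact ⟨by omega, ⟨by omega, by omega, iL (by omega) ht.le h13, h14, h15⟩,
        h16.trans hφ.symm⟩
    omega
  omega

theorem Z_CR {H : ℕ} {z g : List α} (h1 : z ∈ c.Z H) (h2 : g ++ z ∈ c.Z H) (hg : g ≠ []) :
    g ∉ quoL c.R := by
  intro hR
  have hw : g ++ z ∈ c.Fp := by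
    have := h2.1
    rwa [seg_all] at this
  have hgl : 0 < g.length := List.length_pos_iff.2 hg
  have hle : g.length ≤ (g ++ z).length := by simp
  refine CR_core hw hgl hle ?_ h2 ?_
  · rw [Zi_iff hle le_rfl, seg_len]
    simpa using h1
  · rw [seg_zero]
    simpa using hR

theorem Z_CL {H : ℕ} {z g : List α} (h1 : z ∈ c.Z H) (h2 : z ++ g ∈ c.Z H) (hg : g ≠ []) :
    g ∉ quoR c.L := by
  intro hR
  have hw : z ++ g ∈ c.Fp := by
    have := h2.1
    rwa [seg_all] at this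
  have hgl : 0 < g.length := List.length_pos_iff.2 hg
  have hle : z.length < (z ++ g).length := by simp; omega
  refine CL_core hw hle ?_ h2 ?_
  · rw [Zi_iff (Nat.zero_le _) hle.le, seg_zero]
    simpa using h1
  · rw [seg_len]
    simpa using hR

end Ctx

end Pool.Agent.W_MP_733b23_lc
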