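import Pool.Agent.W_MP_733b23_lc.Defs

set_option autoImplicit false

/-!
Two-sided annotated scans are regular.
-/

namespace Pool.Agent.W_MP_733b23_lc

variable {α : Type}

namespace ScanAux

open Classical in
/-- a representative word of a type -/
noncomputable def rep (ψ : FC α) (x : ψ.M) : List α :=
  if h : ∃ u, ψ.f u = x then h.choose else []

theorem rep_f (ψ : FC α) (u : List α) : ψ.f (rep ψ (ψ.f u)) = ψ.f u := by
  unfold rep
  have h : ∃ v, ψ.f v = ψ.f u := ⟨u, rfl⟩
  rw [dif_pos h]
  exact h.choose_spec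

/-- the run over the cuts of `u` except the last one, in the context `l`, `r` -/
def run (ψ : FC α) {Q : Type} (δ : ψ.M → ψ.M → Q → Q) (u l r : List α) (q : Q) : Q :=
  (List.range u.length).foldl (fun q x => δ (ψ.f (l ++ u.take x)) (ψ.f (u.drop x ++ r)) q) q

theorem run_congr (ψ : FC α) {Q : Type} (δ : ψ.M → ψ.M → Q → Q) (u : List α) {l r l' r' : List α}
    (hl : ψ.f l = ψ.f l') (hr : ψ.f r = ψ.f r') (q : Q) :
    run ψ δ u l r q = run ψ δ u l' r' q := by
  unfold run
  congr 1
  funext q x
  rw [ψ.congr hl rfl, ψ.congr rfl hr]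

theorem foldl_range_add {Q : Type} (g : Q → ℕ → Q) (m n : ℕ) (q : Q) :
    (List.range (m + n)).foldl g q =
      (List.range n).foldl (fun q x => g q (m + x)) ((List.range m).foldl g q) := by
  rw [List.range_add, List.foldl_append, List.foldl_map]

theorem foldl_range_congr {Q : Type} {g g' : Q → ℕ → Q} (n : ℕ) (h : ∀ q, ∀ x < n, g q x = g' q x)
    (q : Q) : (List.range n).foldl g q = (List.range n).foldl g' q := by
  induction n with
  | zero => rfl
  | succ n ih =>
    rw [List.range_succ, List.foldl_append, List.foldl_append,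
      ih (fun q x hx => h q x (by omega))]
    simp only [List.foldl_cons, List.foldl_nil]
    exact h _ n (by omega)

theorem run_append (ψ : FC α) {Q : Type} (δ : ψ.M → ψ.M → Q → Q) (u v l r : List α) (q : Q) :
    run ψ δ (u ++ v) l r q = run ψ δ v (l ++ u) r (run ψ δ u l (v ++ r) q) := by
  unfold run
  rw [List.length_append, foldl_range_add]
  have h1 : (List.range u.length).foldl (fun q x => δ (ψ.f (l ++ (u ++ v).take x))
      (ψ.f ((u ++ v).drop x ++ r)) q) q =
      (List.range u.length).foldl (fun q x => δ (ψ.f (l ++ u.take x))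
      (ψ.f (u.drop x ++ (v ++ r))) q) q := by
    apply foldl_range_congr
    intro q x hx
    rw [List.take_append_of_le_length hx.le, List.drop_append_of_le_length hx.le,
      List.append_assoc]
  rw [h1]
  apply foldl_range_congr
  intro q x _
  rw [List.take_length_add_append, List.drop_length_add_append, List.append_assoc]

/-- the congruence of the scan -/
noncomputable def scanFC (ψ : FC α) {Q : Type} [Finite Q] (δ : ψ.M → ψ.M → Q → Q) : FC α where
  M := ψ.M × (ψ.M → ψ.M → Q → Q)
  fin := inferInstance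
  f u := (ψ.f u, fun l r q => run ψ δ u (rep ψ l) (rep ψ r) q)
  m x y := (ψ.m x.1 y.1, fun l r q =>
    y.2 (ψ.f (rep ψ l ++ rep ψ x.1)) r (x.2 l (ψ.f (rep ψ y.1 ++ rep ψ r)) q))
  map_append u v := by
    refine Prod.ext (ψ.map_append u v) ?_
    funext l r q
    simp only
    rw [run_append]
    have h1 : ψ.f (rep ψ l ++ u) = ψ.f (rep ψ (ψ.f (rep ψ l ++ rep ψ (ψ.f u)))) := by
      rw [rep_f]
      exact ψ.congr rfl (rep_f ψ u).symm
    have h2 : ψ.f (v ++ rep ψ r) = ψ.f (rep ψ (ψ.f (rep ψ (ψ.f v) ++ rep ψ r))) := by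
      rw [rep_f]
      exact ψ.congr (rep_f ψ v).symm rfl
    rw [run_congr ψ δ v h1 rfl, run_congr ψ δ u rfl h2]

end ScanAux

open ScanAux in
theorem reg_scan (ψ : FC α) {Q : Type} [Finite Q] (δ : ψ.M → ψ.M → Q → Q) (q0 : Q) (Acc : Set Q) :
    FC.Reg {w : List α | (List.range (w.length + 1)).foldl
      (fun q x => δ (ψ.f (w.take x)) (ψ.f (w.drop x)) q) q0 ∈ Acc} := by
  refine ⟨scanFC ψ δ, ?_⟩
  have key : ∀ w : List α, (List.range (w.length + 1)).foldl
      (fun q x => δ (ψ.f (w.take x)) (ψ.f (w.drop x)) q) q0 =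
      δ ((scanFC ψ δ).f w).1 (ψ.f []) (((scanFC ψ δ).f w).2 (ψ.f []) (ψ.f []) q0) := by
    intro w
    rw [List.range_succ, List.foldl_append]
    simp only [List.foldl_cons, List.foldl_nil, List.take_length, List.drop_length]
    congr 1
    show _ = run ψ δ w (rep ψ (ψ.f [])) (rep ψ (ψ.f [])) q0
    rw [run_congr ψ δ w (rep_f ψ []) (rep_f ψ [])]
    unfold run
    simp
  intro u v e hu
  have hu' : (List.range (u.length + 1)).foldl
      (fun q x => δ (ψ.f (u.take x)) (ψ.f (u.drop x)) q) q0 ∈ Acc := hu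
  show (List.range (v.length + 1)).foldl
      (fun q x => δ (ψ.f (v.take x)) (ψ.f (v.drop x)) q) q0 ∈ Acc
  rw [key v, ← e, ← key u]
  exact hu'

/-- version with an invariant finite set of states -/
theorem reg_scan_inv (ψ : FC α) {Q : Type} (F : Set Q) (hF : F.Finite) (δ : ψ.M → ψ.M → Q → Q)
    (hδ : ∀ l r, ∀ q ∈ F, δ l r q ∈ F) (q0 : Q) (hq0 : q0 ∈ F) (Acc : Set Q) :
    FC.Reg {w : List α | (List.range (w.length + 1)).foldl
      (fun q x => δ (ψ.f (w.take x)) (ψ.f (w.drop x)) q) q0 ∈ Acc} := by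
  have : Finite F := hF
  obtain ⟨φ, hφ⟩ := reg_scan ψ (Q := F) (fun l r q => ⟨δ l r q.1, hδ l r q.1 q.2⟩) ⟨q0, hq0⟩
    {q | q.1 ∈ Acc}
  refine ⟨φ, ?_⟩
  have key : ∀ (w : List α) (n : ℕ), ((List.range n).foldl
      (fun (q : F) x => (⟨δ (ψ.f (w.take x)) (ψ.f (w.drop x)) q.1,
        hδ (ψ.f (w.take x)) (ψ.f (w.drop x)) q.1 q.2⟩ : F)) ⟨q0, hq0⟩).1 =
      (List.range n).foldl (fun q x => δ (ψ.f (w.take x)) (ψ.f (w.drop x)) q) q0 := by
    intro w n
    induction n with
    | zero => rfl
    | succ n ih =>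
      rw [List.range_succ, List.foldl_append, List.foldl_append]
      simp only [List.foldl_cons, List.foldl_nil]
      rw [ih]
  intro u v e hu
  have h1 := hφ u v e
  have h2 : ((List.range (u.length + 1)).foldl
      (fun (q : F) x => (⟨δ (ψ.f (u.take x)) (ψ.f (u.drop x)) q.1,
        hδ (ψ.f (u.take x)) (ψ.f (u.drop x)) q.1 q.2⟩ : F)) ⟨q0, hq0⟩).1 ∈ Acc := by
    rw [key]; exact hu
  have h3 := h1 h2
  have h4 : ((List.range (v.length + 1)).foldl
      (fun (q : F) x => (⟨δ (ψ.f (v.take x)) (ψ.f (v.drop x)) q.1,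
        hδ (ψ.f (v.take x)) (ψ.f (v.drop x)) q.1 q.2⟩ : F)) ⟨q0, hq0⟩).1 ∈ Acc := h3
  rw [key] at h4
  exact h4

namespace ScanAux

open Classical in
/-- indicator -/
noncomputable def ind (p : Prop) : ℕ := if p then 1 else 0

theorem ind_pos {p : Prop} (h : p) : ind p = 1 := if_pos h
theorem ind_neg {p : Prop} (h : ¬ p) : ind p = 0 := if_neg h
theorem ind_le (p : Prop) : ind p ≤ 1 := by
  by_cases h : p
  · rw [ind_pos h]
  · rw [ind_neg h]; omega

open Classical in
/-- one step of the scan -/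
noncomputable def stp (K H : ℕ) (s e A B : Prop) (q : ℕ × ℕ) : ℕ × ℕ :=
  if q.1 = 0 then
    (if A then (if q.2 = K then (1, ind s) else (0, q.2 + 1)) else q)
  else if q.1 = 1 then
    (if q.2 < ind e then (3, 0)
     else if q.2 - ind e = 0 then (if B then (2, 0) else (3, 0))
     else if H < q.2 - ind e then (3, 0)
     else (1, q.2 - ind e + ind s))
  else if q.1 = 2 then
    (if B then (if q.2 = K then (3, 0) else (2, q.2 + 1)) else q)
  else (3, 0)

/-- the run -/
noncomputable def st (K H : ℕ) (s e A B : ℕ → Prop) (n : ℕ) : ℕ × ℕ :=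
  (List.range n).foldl (fun q x => stp K H (s x) (e x) (A x) (B x) q) (0, 0)

theorem st_zero (K H : ℕ) (s e A B : ℕ → Prop) : st K H s e A B 0 = (0, 0) := rfl

theorem st_succ (K H : ℕ) (s e A B : ℕ → Prop) (n : ℕ) :
    st K H s e A B (n + 1) = stp K H (s n) (e n) (A n) (B n) (st K H s e A B n) := by
  unfold st
  rw [List.range_succ, List.foldl_append]
  rfl

theorem Dsum_self (s e : ℕ → Prop) (a : ℕ) : Dsum s e a a = 0 := by
  unfold Dsum
  simp

theorem Dsum_succ (s e : ℕ → Prop) {a v : ℕ} (h : a ≤ v) :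
    Dsum s e a (v + 1) = Dsum s e a v + ind (s v) - ind (e (v + 1)) := by
  unfold Dsum
  rw [Finset.sum_Ico_succ_top h]
  unfold ind
  push_cast
  ring

theorem cntIco_self (A : ℕ → Prop) (a : ℕ) : cntIco A a a = 0 := by
  unfold cntIco; simp

theorem cntIco_succ (A : ℕ → Prop) {a b : ℕ} (h : a ≤ b) :
    cntIco A a (b + 1) = cntIco A a b + ind (A b) := by
  classical
  unfold cntIco ind
  rw [Finset.card_filter, Finset.sum_Ico_succ_top h, Finset.card_filter]

theorem cntIoc_self (A : ℕ → Prop) (a : ℕ) : cntIoc A a a = 0 := by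
  unfold cntIoc; simp

theorem cntIoc_succ (A : ℕ → Prop) {a b : ℕ} (h : a ≤ b) :
    cntIoc A a (b + 1) = cntIoc A a b + ind (A (b + 1)) := by
  classical
  unfold cntIoc ind
  rw [Finset.card_filter, Finset.sum_Ioc_succ_top h, Finset.card_filter]

theorem cntIco_mono (A : ℕ → Prop) (a : ℕ) {b c : ℕ} (h : b ≤ c) : cntIco A a b ≤ cntIco A a c := by
  classical
  unfold cntIco
  apply Finset.card_le_card
  apply Finset.filter_subset_filter
  exact Finset.Ico_subset_Ico_right h

theorem cntIoc_mono (A : ℕ → Prop) (a : ℕ) {b c : ℕ} (h : b ≤ c) : cntIoc A a b ≤ cntIoc A a c := by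
  classical
  unfold cntIoc
  apply Finset.card_le_card
  apply Finset.filter_subset_filter
  exact Finset.Ioc_subset_Ioc_right h

/-- soundness -/
theorem sound (K H : ℕ) (s e A B : ℕ → Prop) (n : ℕ) :
    ((st K H s e A B n).1 = 0 → (st K H s e A B n).2 = cntIco A 0 n ∧
      (st K H s e A B n).2 ≤ K) ∧
    ((st K H s e A B n).1 = 1 → ∃ a, a < n ∧ A a ∧ cntIco A 0 a = K ∧
      ((st K H s e A B n).2 : ℤ) = Dsum s e a (n - 1) + ind (s (n - 1)) ∧
      ∀ v, a < v → v < n → 1 ≤ Dsum s e a v ∧ Dsum s e a v ≤ H) ∧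
    ((st K H s e A B n).1 = 2 → ∃ a b, a < b ∧ b < n ∧ A a ∧ B b ∧ cntIco A 0 a = K ∧
      Dsum s e a b = 0 ∧ (∀ v, a < v → v < b → 1 ≤ Dsum s e a v ∧ Dsum s e a v ≤ H) ∧
      cntIoc B b (n - 1) = (st K H s e A B n).2) := by
  induction n with
  | zero =>
    rw [st_zero]
    refine ⟨fun _ => ⟨by rw [cntIco_self], by simp⟩, fun h => by simp at h, fun h => by simp at h⟩
  | succ n ih =>
    obtain ⟨ih0, ih1, ih2⟩ := ih
    rw [st_succ]
    obtain ⟨q, hq⟩ : ∃ q, q = st K H s e A B n := ⟨_, rfl⟩
    rw [← hq] at ih0 ih1 ih2 ⊢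
    simp only [Nat.add_sub_cancel]
    unfold stp
    by_cases h0 : q.1 = 0
    · rw [if_pos h0]
      obtain ⟨c1, c2⟩ := ih0 h0
      by_cases hA : A n
      · rw [if_pos hA]
        by_cases hK : q.2 = K
        · rw [if_pos hK]
          refine ⟨fun h => by simp at h, fun _ => ?_, fun h => by simp at h⟩
          refine ⟨n, by omega, hA, by omega, ?_, fun v h1 h2 => by omega⟩
          rw [Dsum_self]; simp
        · rw [if_neg hK]
          refine ⟨fun _ => ?_, fun h => by simp at h, fun h => by simp at h⟩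
          rw [cntIco_succ A (Nat.zero_le n), ind_pos hA]
          simp only
          omega
      · rw [if_neg hA]
        refine ⟨fun _ => ?_, fun h => by omega, fun h => by omega⟩
        rw [cntIco_succ A (Nat.zero_le n), ind_neg hA]
        omega
    · rw [if_neg h0]
      by_cases h1 : q.1 = 1
      · rw [if_pos h1]
        obtain ⟨a, ha, hA, hK, hD, hv⟩ := ih1 h1
        obtain ⟨n', rfl⟩ : ∃ n', n = n' + 1 := ⟨n - 1, by omega⟩
        simp only [Nat.add_sub_cancel] at hD
        by_cases c1 : q.2 < ind (e (n' + 1))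
        · rw [if_pos c1]
          exact ⟨fun h => by simp at h, fun h => by simp at h, fun h => by simp at h⟩
        · rw [if_neg c1]
          have hDn : Dsum s e a (n' + 1) = ((q.2 - ind (e (n' + 1)) : ℕ) : ℤ) := by
            rw [Dsum_succ s e (by omega), Nat.cast_sub (by omega), hD]
          by_cases c2 : q.2 - ind (e (n' + 1)) = 0
          · rw [if_pos c2]
            by_cases hB : B (n' + 1)
            · rw [if_pos hB]
              refine ⟨fun h => by simp at h, fun h => by simp at h, fun _ => ?_⟩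
              refine ⟨a, n' + 1, ha, by omega, hA, hB, hK, by rw [hDn, c2]; rfl, hv, ?_⟩
              rw [cntIoc_self]
            · rw [if_neg hB]
              exact ⟨fun h => by simp at h, fun h => by simp at h, fun h => by simp at h⟩
          · rw [if_neg c2]
            by_cases c3 : H < q.2 - ind (e (n' + 1))
            · rw [if_pos c3]
              exact ⟨fun h => by simp at h, fun h => by simp at h, fun h => by simp at h⟩
            · rw [if_neg c3]
              refine ⟨fun h => by simp at h, fun _ => ?_, fun h => by simp at h⟩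
              refine ⟨a, by omega, hA, hK, ?_, ?_⟩
              · rw [hDn]; push_cast; ring
              · intro v h2 h3
                rcases Nat.lt_or_ge v (n' + 1) with h4 | h4
                · exact hv v h2 h4
                · have : v = n' + 1 := by omega
                  rw [this, hDn]
                  omega
      · rw [if_neg h1]
        by_cases h2 : q.1 = 2
        · rw [if_pos h2]
          obtain ⟨a, b, hab, hbn, hA, hB, hK, hD, hv, hc⟩ := ih2 h2
          obtain ⟨n', rfl⟩ : ∃ n', n = n' + 1 := ⟨n - 1, by omega⟩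
          simp only [Nat.add_sub_cancel] at hc
          by_cases hBn : B (n' + 1)
          · rw [if_pos hBn]
            by_cases hqK : q.2 = K
            · rw [if_pos hqK]
              exact ⟨fun h => by simp at h, fun h => by simp at h, fun h => by simp at h⟩
            · rw [if_neg hqK]
              refine ⟨fun h => by simp at h, fun h => by simp at h, fun _ => ?_⟩
              refine ⟨a, b, hab, by omega, hA, hB, hK, hD, hv, ?_⟩
              rw [cntIoc_succ B (by omega), ind_pos hBn, hc]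
          · rw [if_neg hBn]
            refine ⟨fun h => by omega, fun h => by omega, fun _ => ?_⟩
            refine ⟨a, b, hab, by omega, hA, hB, hK, hD, hv, ?_⟩
            rw [cntIoc_succ B (by omega), ind_neg hBn, hc, Nat.add_zero]
        · rw [if_neg h2]
          exact ⟨fun h => by simp at h, fun h => by simp at h, fun h => by simp at h⟩

/-- completeness -/
theorem complete (K H : ℕ) (s e A B : ℕ → Prop) {a b N : ℕ} (hab : a < b) (hbN : b ≤ N)
    (hA : A a) (hB : B b) (hcA : cntIco A 0 a = K) (hcB : cntIoc B b N = K)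
    (hD : Dsum s e a b = 0) (h1 : ∀ v, a < v → v < b → 1 ≤ Dsum s e a v)
    (h2 : ∀ v, a ≤ v → v ≤ b → Dsum s e a v ≤ (H : ℤ)) :
    st K H s e A B (N + 1) = (2, K) := by
  have p1 : ∀ n, n ≤ a → st K H s e A B n = (0, cntIco A 0 n) := by
    intro n
    induction n with
    | zero => intro _; rw [st_zero, cntIco_self]
    | succ n ih =>
      intro hn
      rw [st_succ, ih (by omega)]
      unfold stp
      rw [if_pos rfl, cntIco_succ A (Nat.zero_le n)]
      by_cases hAn : A n
      · have hlt : cntIco A 0 n ≠ K := by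
          have h3 := cntIco_mono A 0 hn
          rw [cntIco_succ A (Nat.zero_le n), ind_pos hAn] at h3
          omega
        rw [if_pos hAn, if_neg hlt, ind_pos hAn]
      · rw [if_neg hAn, ind_neg hAn]
        rfl
  have p2 : ∀ n, a < n → n ≤ b → (st K H s e A B n).1 = 1 ∧
      ((st K H s e A B n).2 : ℤ) = Dsum s e a (n - 1) + ind (s (n - 1)) := by
    intro n
    induction n with
    | zero => intro h; omega
    | succ n ih =>
      intro hn1 hn2
      rw [st_succ]
      simp only [Nat.add_sub_cancel]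
      rcases Nat.lt_or_ge a n with h3 | h3
      · obtain ⟨i1, i2⟩ := ih h3 (by omega)
        obtain ⟨n', rfl⟩ : ∃ n', n = n' + 1 := ⟨n - 1, by omega⟩
        simp only [Nat.add_sub_cancel] at i2
        have hDn : Dsum s e a (n' + 1) =
            ((st K H s e A B (n' + 1)).2 : ℤ) - ind (e (n' + 1)) := by
          rw [Dsum_succ s e (by omega), i2]
        have g1 := h1 (n' + 1) h3 (by omega)
        have g2 := h2 (n' + 1) (by omega) (by omega)
        rw [hDn] at g1 g2
        obtain ⟨q, hq⟩ : ∃ q, q = st K H s e A B (n' + 1) := ⟨_, rfl⟩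
        rw [← hq] at i1 i2 hDn g1 g2 ⊢
        unfold stp
        rw [if_neg (by omega), if_pos i1, if_neg (by omega), if_neg (by omega),
          if_neg (by omega)]
        refine ⟨rfl, ?_⟩
        simp only
        rw [hDn]
        push_cast
        rw [Nat.cast_sub (by omega)]
      · have : n = a := by omega
        subst this
        rw [p1 n le_rfl]
        unfold stp
        rw [if_pos rfl, if_pos hA, if_pos hcA, Dsum_self]
        simp
  have p3 : ∀ n, b < n → n ≤ N + 1 → st K H s e A B n = (2, cntIoc B b (n - 1)) := by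
    intro n
    induction n with
    | zero => intro h; omega
    | succ n ih =>
      intro hn1 hn2
      rw [st_succ]
      simp only [Nat.add_sub_cancel]
      rcases Nat.lt_or_ge b n with h3 | h3
      · rw [ih h3 (by omega)]
        obtain ⟨n', rfl⟩ : ∃ n', n = n' + 1 := ⟨n - 1, by omega⟩
        simp only [Nat.add_sub_cancel]
        unfold stp
        rw [if_neg (by simp), if_neg (by simp), if_pos rfl]
        rw [cntIoc_succ B (by omega)]
        by_cases hBn : B (n' + 1)
        · have h4 : cntIoc B b n' ≠ K := by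
            have h5 := cntIoc_mono B b (show n' + 1 ≤ N by omega)
            rw [cntIoc_succ B (by omega), ind_pos hBn] at h5
            omega
          rw [if_pos hBn, if_neg h4, ind_pos hBn]
        · rw [if_neg hBn, ind_neg hBn]
          rfl
      · have : n = b := by omega
        subst this
        obtain ⟨i1, i2⟩ := p2 n hab le_rfl
        obtain ⟨n', rfl⟩ : ∃ n', n = n' + 1 := ⟨n - 1, by omega⟩
        simp only [Nat.add_sub_cancel] at i2
        have hDn : Dsum s e a (n' + 1) =
            ((st K H s e A B (n' + 1)).2 : ℤ) - ind (e (n' + 1)) := by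
          rw [Dsum_succ s e (by omega), i2]
        rw [hD] at hDn
        obtain ⟨q, hq⟩ : ∃ q, q = st K H s e A B (n' + 1) := ⟨_, rfl⟩
        rw [← hq] at i1 i2 hDn ⊢
        unfold stp
        rw [if_neg (by omega), if_pos i1, if_neg (by omega), if_pos (by omega),
          if_pos hB, cntIoc_self]
  rw [p3 (N + 1) (by omega) le_rfl]
  simp only [Nat.add_sub_cancel]
  rw [hcB]

theorem ZCond_iff (K H : ℕ) (s e A B : ℕ → Prop) (N : ℕ) :
    ZCond s e A B 0 N K H ↔ st K H s e A B (N + 1) = (2, K) := by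
  constructor
  · rintro ⟨a, b, -, hab, hbN, hA, hB, hcA, hcB, hD, h1, h2⟩
    exact complete K H s e A B hab hbN hA hB hcA hcB hD h1 h2
  · intro h
    obtain ⟨-, -, h3⟩ := sound K H s e A B (N + 1)
    rw [h] at h3
    obtain ⟨a, b, hab, hbN, hA, hB, hK, hD, hv, hc⟩ := h3 rfl
    simp only [Nat.add_sub_cancel] at hc
    refine ⟨a, b, Nat.zero_le _, hab, by omega, hA, hB, hK, hc, hD,
      fun v h4 h5 => (hv v h4 h5).1, ?_⟩
    intro v h4 h5
    rcases Nat.lt_or_ge a v with h6 | h6
    · rcases Nat.lt_or_ge v b with h7 | h7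
      · exact (hv v h6 h7).2
      · have : v = b := by omega
        rw [this, hD]
        positivity
    · have : v = a := by omega
      rw [this, Dsum_self]
      positivity

/-- the finite set of states -/
def FF (K H : ℕ) : Set (ℕ × ℕ) := {q | (q.1 = 0 ∧ q.2 ≤ K) ∨ (q.1 = 1 ∧ q.2 ≤ H + 1) ∨
  (q.1 = 2 ∧ q.2 ≤ K) ∨ (q.1 = 3 ∧ q.2 = 0)}

theorem FF_finite (K H : ℕ) : (FF K H).Finite := by
  apply Set.Finite.subset ((Set.finite_Iic 3).prod (Set.finite_Iic (K + H + 1)))
  rintro q (⟨h1, h2⟩ | ⟨h1, h2⟩ | ⟨h1, h2⟩ | ⟨h1, h2⟩) <;>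
    exact ⟨by rw [Set.mem_Iic]; omega, by rw [Set.mem_Iic]; omega⟩

theorem stp_mem (K H : ℕ) (s e A B : Prop) (q : ℕ × ℕ) (hq : q ∈ FF K H) :
    stp K H s e A B q ∈ FF K H := by
  have hs := ind_le s
  have hq' : (q.1 = 0 ∧ q.2 ≤ K) ∨ (q.1 = 1 ∧ q.2 ≤ H + 1) ∨
    (q.1 = 2 ∧ q.2 ≤ K) ∨ (q.1 = 3 ∧ q.2 = 0) := hq
  show ((stp K H s e A B q).1 = 0 ∧ (stp K H s e A B q).2 ≤ K) ∨
    ((stp K H s e A B q).1 = 1 ∧ (stp K H s e A B q).2 ≤ H + 1) ∨
    ((stp K H s e A B q).1 = 2 ∧ (stp K H s e A B q).2 ≤ K) ∨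
    ((stp K H s e A B q).1 = 3 ∧ (stp K H s e A B q).2 = 0)
  unfold stp
  split_ifs <;> omega

end ScanAux

open ScanAux in
theorem reg_ZCond (ψ : FC α) (s e A B : ψ.M → ψ.M → Prop) (K H : ℕ) :
    FC.Reg {w : List α | ZCond
      (fun x => s (ψ.f (w.take x)) (ψ.f (w.drop x)))
      (fun x => e (ψ.f (w.take x)) (ψ.f (w.drop x)))
      (fun x => A (ψ.f (w.take x)) (ψ.f (w.drop x)))
      (fun x => B (ψ.f (w.take x)) (ψ.f (w.drop x))) 0 w.length K H} := by
  obtain ⟨φ, hφ⟩ := reg_scan_inv ψ (FF K H) (FF_finite K H)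
    (fun l r q => stp K H (s l r) (e l r) (A l r) (B l r) q)
    (fun l r q hq => stp_mem K H _ _ _ _ q hq) (0, 0) (Or.inl ⟨rfl, Nat.zero_le _⟩) {(2, K)}
  refine ⟨φ, ?_⟩
  intro u v h hu
  have hu' := (ZCond_iff K H _ _ _ _ u.length).1 hu
  exact (ZCond_iff K H _ _ _ _ v.length).2 (hφ u v h hu')

end Pool.Agent.W_MP_733b23_lc
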