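import Pool.Agent.W_MP_733b23_lc.Lane
import Pool.Agent.W_MP_733b23_lc.Scan

set_option autoImplicit false

/-!
Regularity of the added set.
-/

namespace Pool.Agent.W_MP_733b23_lc

variable {α : Type}

/-- product of a finite family -/
def FC.pi {ι : Type} [Finite ι] (φ : ι → FC α) : FC α where
  M := ∀ i, (φ i).M
  fin := inferInstance
  f u := fun i => (φ i).f u
  m x y := fun i => (φ i).m (x i) (y i)
  map_append u v := by
    funext i
    exact (φ i).map_append u v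

theorem FC.Reg.iUnion {ι : Type} [Finite ι] {A : ι → Set (List α)} (h : ∀ i, FC.Reg (A i)) :
    FC.Reg {w | ∃ i, w ∈ A i} := by
  choose φ hφ using h
  refine ⟨FC.pi φ, ?_⟩
  rintro u v e ⟨i, hi⟩
  exact ⟨i, hφ i u v (congrFun e i) hi⟩

/-- recognizes the empty word -/
def FC.nil (α : Type) : FC α where
  M := Bool
  fin := inferInstance
  f u := u.isEmpty
  m x y := x && y
  map_append u v := by
    cases u <;> simp

theorem FC.reg_nil : FC.Reg ({[]} : Set (List α)) := by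
  refine ⟨FC.nil α, ?_⟩
  intro u v e hu
  have hu : u = [] := hu
  subst hu
  have e : true = v.isEmpty := e
  show v = []
  exact List.isEmpty_iff.1 e.symm

theorem FC.reg_fiber (φ : FC α) (d : φ.M) : FC.Reg {w | φ.f w = d} :=
  ⟨φ, fun u v e hu => e.symm.trans hu⟩

/-- the type of a saturated set -/
def FC.inn (ψ : FC α) (A : Set (List α)) (μ : ψ.M) : Prop := ∃ u, ψ.f u = μ ∧ u ∈ A

theorem FC.inn_iff {ψ : FC α} {A : Set (List α)} (h : ψ.Rec A) (u : List α) :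
    ψ.inn A (ψ.f u) ↔ u ∈ A := by
  constructor
  · rintro ⟨v, e, hv⟩
    exact h v u e hv
  · intro hu
    exact ⟨u, rfl, hu⟩

namespace Ctx

variable {c : Ctx α}

theorem reg_J2 (hF : FC.Reg c.F) (hFp : FC.Reg c.Fp) : FC.Reg c.J2 := by
  have h : c.J2 = c.Fp ∩ cat c.Fᶜ c.Fᶜ := by
    ext u
    constructor
    · rintro ⟨h1, a, b, ha, hb, rfl⟩
      exact ⟨h1, a, ha, b, hb, rfl⟩
    · rintro ⟨h1, a, ha, b, hb, rfl⟩
      exact ⟨h1, a, b, ha, hb, rfl⟩
  rw [h]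
  exact hFp.inter (hF.compl.cat hF.compl)

theorem reg_Sg (hFp : FC.Reg c.Fp) (hY : FC.Reg c.Y) : FC.Reg c.Sg := by
  have hL : FC.Reg c.L := ⟨c.φ, c.recL⟩
  have h : c.Sg = c.Fp ∩ (c.L ∩ (quoR (cat c.Y c.L))ᶜ) := by
    ext u
    constructor
    · rintro ⟨h1, h2, h3⟩
      exact ⟨h1, h2, fun ⟨s, hs⟩ => h3 s hs⟩
    · rintro ⟨h1, h2, h3⟩
      exact ⟨h1, h2, fun s hs => h3 ⟨s, hs⟩⟩
  rw [h]
  obtain ⟨ψ, hψ⟩ := hY.cat hL
  exact hFp.inter (hL.inter (FC.Reg.compl ⟨ψ, hψ.quoR⟩))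

theorem reg_Sg' (hFp : FC.Reg c.Fp) (hY : FC.Reg c.Y) : FC.Reg c.Sg' := by
  have hR : FC.Reg c.R := ⟨c.φ, c.recR⟩
  have h : c.Sg' = c.Fp ∩ (c.R ∩ (quoL (cat c.R c.Y))ᶜ) := by
    ext u
    constructor
    · rintro ⟨h1, h2, h3⟩
      exact ⟨h1, h2, fun ⟨s, hs⟩ => h3 s hs⟩
    · rintro ⟨h1, h2, h3⟩
      exact ⟨h1, h2, fun s hs => h3 ⟨s, hs⟩⟩
  rw [h]
  obtain ⟨ψ, hψ⟩ := hR.cat hY
  exact hFp.inter (hR.inter (FC.Reg.compl ⟨ψ, hψ.quoL⟩))

theorem reg_Z (hF : FC.Reg c.F) (hFp : FC.Reg c.Fp) (hY : FC.Reg c.Y) (H : ℕ) :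
    FC.Reg (c.Z H) := by
  have hS := reg_Sg hFp hY
  have hS' := reg_Sg' hFp hY
  obtain ⟨ψ1, h1⟩ := reg_J2 hF hFp
  obtain ⟨ψ2, h2⟩ := hS
  obtain ⟨ψ3, h3⟩ := hS'
  obtain ⟨ψ4, h4⟩ := FC.reg_nil (α := α)
  let ψ : FC α := c.φ.prod (ψ1.prod (ψ2.prod (ψ3.prod ψ4)))
  have rR : ψ.Rec c.R := c.recR.left _
  have rL : ψ.Rec c.L := c.recL.left _
  have rJ : ψ.Rec c.J2 := (h1.left _).right _
  have rS : ψ.Rec c.Sg := ((h2.left _).right _).right _
  have rS' : ψ.Rec c.Sg' := (((h3.left _).right _).right _).right _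
  have rN : ψ.Rec {[]} := (((h4.right _).right _).right _).right _
  have rφ : ∀ d : c.φ.M, ψ.Rec {w | c.φ.f w = d} := fun d =>
    FC.Rec.left (φ := c.φ) _ (fun u v e hu => e.symm.trans hu)
  let s : ψ.M → ψ.M → Prop := fun μ ν => ψ.inn c.R μ ∧ ψ.inn c.J2 ν ∧ ψ.inn c.Sg ν
  let e : ψ.M → ψ.M → Prop := fun μ ν => ψ.inn c.L ν ∧ ψ.inn c.J2 μ ∧ ψ.inn c.Sg' μ
  let A : c.φ.M → ψ.M → ψ.M → Prop := fun d μ ν => ¬ ψ.inn {[]} μ ∧ s μ ν ∧
    ψ.inn {w | c.φ.f w = d} ν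
  let B : c.φ.M → ψ.M → ψ.M → Prop := fun d μ ν => ¬ ψ.inn {[]} ν ∧ e μ ν ∧
    ψ.inn {w | c.φ.f w = d} μ
  have key : c.Z H = c.Fp ∩ (c.Sg ∩ (c.Sg' ∩ {w | ∃ d, w ∈ {w | c.φ.f w = d} ∩ {w : List α | ZCond
      (fun x => s (ψ.f (w.take x)) (ψ.f (w.drop x)))
      (fun x => e (ψ.f (w.take x)) (ψ.f (w.drop x)))
      (fun x => A d (ψ.f (w.take x)) (ψ.f (w.drop x)))
      (fun x => B d (ψ.f (w.take x)) (ψ.f (w.drop x))) 0 w.length (2 * c.mm - 1) H}})) := by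
    ext w
    have hSt : ∀ x, x ≤ w.length →
        (c.St w 0 w.length x ↔ s (ψ.f (w.take x)) (ψ.f (w.drop x))) := by
      intro x hx
      simp only [s, St, FC.inn_iff rR, FC.inn_iff rJ, FC.inn_iff rS, seg_zero, seg_len]
      constructor
      · rintro ⟨_, _, h⟩
        exact h
      · intro h
        exact ⟨Nat.zero_le _, hx, h⟩
    have hEn : ∀ x, x ≤ w.length →
        (c.En w 0 w.length x ↔ e (ψ.f (w.take x)) (ψ.f (w.drop x))) := by
      intro x hx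
      simp only [e, En, FC.inn_iff rL, FC.inn_iff rJ, FC.inn_iff rS', seg_zero, seg_len]
      constructor
      · rintro ⟨_, _, h⟩
        exact h
      · intro h
        exact ⟨Nat.zero_le _, hx, h⟩
    have hA : ∀ x, x ≤ w.length →
        (c.Lam w 0 w.length x ↔ A (c.φ.f w) (ψ.f (w.take x)) (ψ.f (w.drop x))) := by
      intro x hx
      simp only [A, Lam, FC.inn_iff rN, FC.inn_iff (rφ _), hSt x hx, seg_len, List.drop_zero,
        Set.mem_singleton_iff, Set.mem_ofPred_eq]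
      refine and_congr_left fun _ => ?_
      rw [List.take_eq_nil_iff]
      constructor
      · rintro h (h' | h')
        · omega
        · rw [h'] at hx
          simp at hx
          omega
      · intro h
        by_contra hc
        exact h (Or.inl (by omega))
    have hB : ∀ x, x ≤ w.length →
        (c.Lam' w 0 w.length x ↔ B (c.φ.f w) (ψ.f (w.take x)) (ψ.f (w.drop x))) := by
      intro x hx
      simp only [B, Lam', FC.inn_iff rN, FC.inn_iff (rφ _), hEn x hx, seg_zero, List.take_length,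
        Set.mem_singleton_iff, Set.mem_ofPred_eq]
      refine and_congr_left fun _ => ?_
      rw [List.drop_eq_nil_iff]
      omega
    have hZC : ZCond (c.St w 0 w.length) (c.En w 0 w.length) (c.Lam w 0 w.length)
        (c.Lam' w 0 w.length) 0 w.length (2 * c.mm - 1) H ↔ ZCond
      (fun x => s (ψ.f (w.take x)) (ψ.f (w.drop x)))
      (fun x => e (ψ.f (w.take x)) (ψ.f (w.drop x)))
      (fun x => A (c.φ.f w) (ψ.f (w.take x)) (ψ.f (w.drop x)))
      (fun x => B (c.φ.f w) (ψ.f (w.take x)) (ψ.f (w.drop x))) 0 w.length (2 * c.mm - 1) H := by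
      constructor
      · exact ZCond_congr (fun x _ hx => hSt x hx) (fun x _ hx => hEn x hx)
          (fun x _ hx => hA x hx) (fun x _ hx => hB x hx)
      · exact ZCond_congr (fun x _ hx => (hSt x hx).symm) (fun x _ hx => (hEn x hx).symm)
          (fun x _ hx => (hA x hx).symm) (fun x _ hx => (hB x hx).symm)
    constructor
    · rintro ⟨h5, h6, h7, h8⟩
      rw [seg_all] at h5 h6 h7
      exact ⟨h5, h6, h7, c.φ.f w, rfl, hZC.1 h8⟩
    · rintro ⟨h5, h6, h7, d, h9, h8⟩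
      have h9 : c.φ.f w = d := h9
      subst h9
      refine ⟨?_, ?_, ?_, hZC.2 h8⟩ <;> rw [seg_all] <;> assumption
  rw [key]
  refine hFp.inter (FC.Reg.inter ⟨ψ2, h2⟩ (FC.Reg.inter ⟨ψ3, h3⟩ ?_))
  exact FC.Reg.iUnion fun d => (FC.reg_fiber c.φ d).inter (reg_ZCond ψ s e (A d) (B d) _ H)

end Ctx

end Pool.Agent.W_MP_733b23_lc
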