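import Pool.Agent.W_MP_733b23_lc.Bdd
import Pool.Agent.W_MP_733b23_lc.RegZ
import Pool.Agent.W_MP_733b23_lc.Add
import Pool.Agent.W_MP_733b23_lc.Bounds
import Pool.Agent.W_MP_733b23_lc.Color

set_option autoImplicit false

/-!
Induction over the J-classes of the congruence.
-/

namespace Pool.Agent.W_MP_733b23_lc

variable {α : Type}

/-! ### stability -/

/-- powers of a word -/
def pw (a : List α) : ℕ → List α
  | 0 => []
  | n + 1 => a ++ pw a n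

theorem pw_add (a : List α) (m n : ℕ) : pw a (m + n) = pw a m ++ pw a n := by
  induction m with
  | zero => simp [pw]
  | succ m ih => rw [Nat.succ_add]; simp [pw, ih]

theorem pw_succ' (a : List α) (n : ℕ) : pw a (n + 1) = pw a n ++ a := by
  rw [pw_add]; simp [pw]

theorem pw_stab (φ : FC α) {u a w : List α} (h : φ.f u = φ.f (a ++ u ++ w)) (n : ℕ) :
    φ.f u = φ.f (pw a n ++ u ++ pw w n) := by
  induction n with
  | zero => simp [pw]
  | succ n ih =>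
    have h1 : φ.f (a ++ u ++ w) = φ.f (a ++ (pw a n ++ u ++ pw w n) ++ w) :=
      φ.congr (φ.congr rfl ih) rfl
    rw [h, h1, pw_succ' w n]
    congr 1
    simp [pw]

theorem pigeon (φ : FC α) (a : List α) : ∃ i p, φ.f (pw a i) = φ.f (pw a (i + (p + 1))) := by
  obtain ⟨x, y, hne, he⟩ := Finite.exists_ne_map_eq_of_infinite (fun n : ℕ => φ.f (pw a n))
  rcases lt_or_gt_of_ne hne with h | h
  · refine ⟨x, y - x - 1, ?_⟩
    rw [show x + (y - x - 1 + 1) = y by omega]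
    exact he
  · refine ⟨y, x - y - 1, ?_⟩
    rw [show y + (x - y - 1 + 1) = x by omega]
    exact he.symm

theorem stabilityR (φ : FC α) {u v a b : List α} (h : φ.f u = φ.f (a ++ (u ++ v) ++ b)) :
    ∃ t, φ.f (u ++ v ++ t) = φ.f u := by
  have h0 : φ.f u = φ.f (a ++ u ++ (v ++ b)) := by rw [h]; simp
  obtain ⟨i, p, hp⟩ := pigeon φ a
  have h1 := pw_stab φ h0 i
  have h2 : φ.f (pw a i ++ u ++ pw (v ++ b) i) = φ.f (pw a (i + (p + 1)) ++ u ++ pw (v ++ b) i) :=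
    φ.congr (φ.congr hp rfl) rfl
  have h3 : φ.f u = φ.f (pw a (p + 1) ++ u) := by
    rw [h1, h2, add_comm i, pw_add]
    have h4 : pw a (p + 1) ++ pw a i ++ u ++ pw (v ++ b) i
        = pw a (p + 1) ++ (pw a i ++ u ++ pw (v ++ b) i) := by simp
    rw [h4]
    exact φ.congr rfl h1.symm
  have h5 := pw_stab φ h0 (p + 1)
  have h6 : φ.f u = φ.f (u ++ pw (v ++ b) (p + 1)) := by
    rw [h5]
    exact φ.congr h3.symm rfl
  refine ⟨b ++ pw (v ++ b) p, ?_⟩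
  rw [h6]
  simp [pw]

theorem stabilityL (φ : FC α) {u v a b : List α} (h : φ.f u = φ.f (a ++ (v ++ u) ++ b)) :
    ∃ t, φ.f (t ++ v ++ u) = φ.f u := by
  have h0 : φ.f u = φ.f ((a ++ v) ++ u ++ b) := by rw [h]; simp
  obtain ⟨i, p, hp⟩ := pigeon φ b
  have h1 := pw_stab φ h0 i
  have h2 : φ.f (pw (a ++ v) i ++ u ++ pw b i) = φ.f (pw (a ++ v) i ++ u ++ pw b (i + (p + 1))) :=
    φ.congr rfl hp
  have h3 : φ.f u = φ.f (u ++ pw b (p + 1)) := by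
    rw [h1, h2, pw_add, ← List.append_assoc]
    exact φ.congr h1.symm rfl
  have h5 := pw_stab φ h0 (p + 1)
  have h6 : φ.f u = φ.f (pw (a ++ v) (p + 1) ++ u) := by
    rw [h5, List.append_assoc]
    exact φ.congr rfl h3.symm
  refine ⟨pw (a ++ v) p ++ a, ?_⟩
  rw [h6, pw_succ']
  simp

/-! ### the induction -/

/-- invariant of the induction -/
structure Inv (X : Set (List α)) (d d' : ℕ) (φ : FC α) (F Y : Set (List α)) (n : ℕ) : Prop where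
  good : Good X d d' Y
  fac : ∀ a v b, a ++ v ++ b ∈ F → v ∈ F
  sat : φ.Rec F
  YXF : ∀ y ∈ Y, y ∈ X ∨ y ∈ F
  bd : ∀ w ∈ F, AtMost n (isS (LL X d) (RR X d') Y w)

/-- properties of the fixed congruence -/
structure Cong (X : Set (List α)) (d d' : ℕ) (φ : FC α) : Prop where
  recL : φ.Rec (LL X d)
  recR : φ.Rec (RR X d')
  recXL : φ.Rec (cat X (LL X d))
  recRX : φ.Rec (cat (RR X d') X)
  colR : ∀ g v, g ≠ [] → v ∈ LL X d → (∀ s, v ++ s ∉ cat X (LL X d)) → g ++ v ∈ LL X d →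
    (∀ s, g ++ v ++ s ∉ cat X (LL X d)) → g ∈ quoL (RR X d') → φ.f (g ++ v) = φ.f v → g ∈ RR X d'
  colL : ∀ g v, g ≠ [] → v ∈ RR X d' → (∀ s, s ++ v ∉ cat (RR X d') X) → v ++ g ∈ RR X d' →
    (∀ s, s ++ (v ++ g) ∉ cat (RR X d') X) → g ∈ quoR (LL X d) → φ.f (v ++ g) = φ.f v →
    g ∈ LL X d

theorem exists_cong {X : Set (List α)} {d d' : ℕ} (hX : Good X d d' X) :
    ∃ φ : FC α, Cong X d d' φ := by
  have rL : FC.Reg (LL X d) := FC.reg_LL hX.reg d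
  have rR : FC.Reg (RR X d') := FC.reg_RR hX.reg d'
  have rXL : FC.Reg (cat X (LL X d)) := hX.reg.cat rL
  have rRX : FC.Reg (cat (RR X d') X) := rR.cat hX.reg
  obtain ⟨NL, hNL⟩ := exists_NL hX
  obtain ⟨NR, hNR⟩ := exists_NR hX
  obtain ⟨φ1, h1⟩ := rL
  obtain ⟨φ2, h2⟩ := rR
  obtain ⟨φ3, h3⟩ := rXL
  obtain ⟨φ4, h4⟩ := rRX
  have q1 : FC.Reg (quoR (cat X (LL X d))) := ⟨φ3, h3.quoR⟩
  have q2 : FC.Reg (quoL (cat (RR X d') X)) := ⟨φ4, h4.quoL⟩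
  have q3 : FC.Reg (quoR (LL X d)) := ⟨φ1, h1.quoR⟩
  have q4 : FC.Reg (quoL (RR X d')) := ⟨φ2, h2.quoL⟩
  obtain ⟨φ5, h5⟩ := exists_coloring (S := LL X d ∩ (quoR (cat X (LL X d)))ᶜ)
    (G := quoL (RR X d') ∩ (RR X d')ᶜ) (FC.Reg.inter ⟨φ1, h1⟩ q1.compl)
    (q4.inter (FC.Reg.compl ⟨φ2, h2⟩)) NR (fun u => (hNR u).mono le_rfl (by
      rintro x ⟨a1, a2, a3⟩
      exact ⟨a1, a3.1, a2.2, a2.1⟩))
  obtain ⟨φ6, h6⟩ := exists_coloring' (S := RR X d' ∩ (quoL (cat (RR X d') X))ᶜ)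
    (G := quoR (LL X d) ∩ (LL X d)ᶜ) (FC.Reg.inter ⟨φ2, h2⟩ q2.compl)
    (q3.inter (FC.Reg.compl ⟨φ1, h1⟩)) NL (fun u => (hNL u).mono le_rfl (by
      rintro x ⟨a1, a2, a3⟩
      exact ⟨a1, a3.1, a2.2, a2.1⟩))
  refine ⟨φ1.prod (φ2.prod (φ3.prod (φ4.prod (φ5.prod φ6)))), ?_, ?_, ?_, ?_, ?_, ?_⟩
  · exact h1.left _
  · exact (h2.left _).right _
  · exact ((h3.left _).right _).right _
  · exact (((h4.left _).right _).right _).right _
  · intro g v hg hv hv' hgv hgv' hq he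
    by_contra hcon
    have he5 : φ5.f (g ++ v) = φ5.f v :=
      (FC.prod_eq.1 (FC.prod_eq.1 (FC.prod_eq.1 (FC.prod_eq.1 (FC.prod_eq.1 he).2).2).2).2).1
    refine h5 g v hg ⟨hq, hcon⟩ ⟨hv, ?_⟩ ⟨hgv, ?_⟩ he5
    · rintro ⟨s, hs⟩
      exact hv' s hs
    · rintro ⟨s, hs⟩
      exact hgv' s hs
  · intro g v hg hv hv' hgv hgv' hq he
    by_contra hcon
    have he6 : φ6.f (v ++ g) = φ6.f v :=
      (FC.prod_eq.1 (FC.prod_eq.1 (FC.prod_eq.1 (FC.prod_eq.1 (FC.prod_eq.1 he).2).2).2).2).2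
    refine h6 g v hg ⟨hq, hcon⟩ ⟨hv, ?_⟩ ⟨hgv, ?_⟩ he6
    · rintro ⟨s, hs⟩
      exact hv' s hs
    · rintro ⟨s, hs⟩
      exact hgv' s hs

/-- words below `j` -/
def low (φ : FC α) (j : List α) : Set φ.M := {d | ∃ a b, d = φ.f (a ++ j ++ b)}

theorem exists_maximal (φ : FC α) {F : Set (List α)} (hF : ∃ j, j ∉ F) :
    ∃ j, j ∉ F ∧ ∀ v, v ∉ F → (∃ a b, φ.f j = φ.f (a ++ v ++ b)) →
      ∃ a b, φ.f v = φ.f (a ++ j ++ b) := by
  by_contra hcon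
  push Not at hcon
  have hstep : ∀ j, j ∉ F → ∃ v, v ∉ F ∧ (low φ j).ncard < (low φ v).ncard := by
    intro j hj
    obtain ⟨v, hv, ⟨a, b, hab⟩, hno⟩ := hcon j hj
    refine ⟨v, hv, Set.ncard_lt_ncard ?_ (Set.toFinite _)⟩
    refine ⟨?_, ?_⟩
    · rintro d ⟨a', b', rfl⟩
      refine ⟨a' ++ a, b ++ b', ?_⟩
      have : φ.f (a' ++ j ++ b') = φ.f (a' ++ (a ++ v ++ b) ++ b') :=
        φ.congr (φ.congr rfl hab) rfl
      rw [this]
      simp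
    · intro hsub
      have h1 : φ.f v ∈ low φ v := ⟨[], [], by simp⟩
      obtain ⟨a', b', h2⟩ := hsub h1
      exact hno a' b' h2
  have hbig : ∀ n, ∃ j, j ∉ F ∧ n ≤ (low φ j).ncard := by
    intro n
    induction n with
    | zero => obtain ⟨j, hj⟩ := hF; exact ⟨j, hj, Nat.zero_le _⟩
    | succ n ih =>
      obtain ⟨j, hj, hn⟩ := ih
      obtain ⟨v, hv, hlt⟩ := hstep j hj
      exact ⟨v, hv, by omega⟩
  obtain ⟨j, _, hn⟩ := hbig (Nat.card φ.M + 1)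
  have := Set.ncard_le_card (low φ j)
  omega

theorem step {X : Set (List α)} {d d' : ℕ} (hX : Good X d d' X) (hne : X.Nonempty) {φ : FC α}
    (hφ : Cong X d d' φ) {F Y : Set (List α)} {n : ℕ} (I : Inv X d d' φ F Y n)
    (hF : ∃ j, j ∉ F) :
    ∃ Fp Y' n', Inv X d d' φ Fp Y' n' ∧ F ⊆ Fp ∧ ∃ j, j ∈ Fp ∧ j ∉ F := by
  obtain ⟨j, hj, hmax⟩ := exists_maximal φ hF
  -- the new factor-closed set
  let Fp : Set (List α) := {u | u ∈ F ∨ ((∃ a b, φ.f u = φ.f (a ++ j ++ b)) ∧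
    (∃ a b, φ.f j = φ.f (a ++ u ++ b)))}
  have hFFp : F ⊆ Fp := fun u hu => Or.inl hu
  have hjFp : j ∈ Fp := Or.inr ⟨⟨[], [], by simp⟩, ⟨[], [], by simp⟩⟩
  have hfac : ∀ a v b, a ++ v ++ b ∈ Fp → v ∈ Fp := by
    rintro a v b (h | ⟨⟨a1, b1, h1⟩, ⟨a2, b2, h2⟩⟩)
    · exact Or.inl (I.fac a v b h)
    · by_cases hv : v ∈ F
      · exact Or.inl hv
      · have h3 : ∃ a b, φ.f j = φ.f (a ++ v ++ b) := ⟨a2 ++ a, b ++ b2, by rw [h2]; simp⟩
        exact Or.inr ⟨hmax v hv h3, h3⟩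
  have hsat : φ.Rec Fp := by
    rintro u v e (h | ⟨⟨a1, b1, h1⟩, ⟨a2, b2, h2⟩⟩)
    · exact Or.inl (I.sat u v e h)
    · refine Or.inr ⟨⟨a1, b1, e.symm.trans h1⟩, ⟨a2, b2, h2.trans ?_⟩⟩
      exact φ.congr (φ.congr rfl e) rfl
  have hJ : ∀ u, u ∈ Fp → u ∉ F → (∃ a b, φ.f u = φ.f (a ++ j ++ b)) ∧
      (∃ a b, φ.f j = φ.f (a ++ u ++ b)) := fun u hu hu' => hu.resolve_left hu'
  have hJJ : ∀ u v, u ∈ Fp → u ∉ F → v ∈ Fp → v ∉ F → ∃ a b, φ.f u = φ.f (a ++ v ++ b) := by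
    intro u v hu hu' hv hv'
    obtain ⟨⟨a1, b1, h1⟩, _⟩ := hJ u hu hu'
    obtain ⟨_, ⟨a2, b2, h2⟩⟩ := hJ v hv hv'
    refine ⟨a1 ++ a2, b2 ++ b1, ?_⟩
    rw [h1]
    have : φ.f (a1 ++ j ++ b1) = φ.f (a1 ++ (a2 ++ v ++ b2) ++ b1) := φ.congr (φ.congr rfl h2) rfl
    rw [this]
    simp
  have hstabR : ∀ u v, u ∉ F → u ++ v ∈ Fp → ∃ t, φ.f (u ++ v ++ t) = φ.f u := by
    intro u v hu huv
    have h1 : u ++ v ∉ F := fun h => hu (I.fac [] u v (by simpa using h))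
    have h2 : u ∈ Fp := hfac [] u v (by simpa using huv)
    obtain ⟨a, b, h⟩ := hJJ u (u ++ v) h2 hu huv h1
    exact stabilityR φ h
  have hstabL : ∀ u v, u ∉ F → v ++ u ∈ Fp → ∃ t, φ.f (t ++ v ++ u) = φ.f u := by
    intro u v hu huv
    have h1 : v ++ u ∉ F := fun h => hu (I.fac v u [] (by simpa using h))
    have h2 : u ∈ Fp := hfac v u [] (by simpa using huv)
    obtain ⟨a, b, h⟩ := hJJ u (v ++ u) h2 hu huv h1
    exact stabilityL φ h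
  obtain ⟨NL, hNL⟩ := exists_NL hX
  obtain ⟨NR, hNR⟩ := exists_NR hX
  obtain ⟨N1, hN1⟩ := exists_N1 hX I.good
  obtain ⟨N1', hN1'⟩ := exists_N1' hX I.good
  obtain ⟨ψ, hψ⟩ := I.good.reg
  let c : Ctx α :=
    { X := X, Y := Y, L := LL X d, R := RR X d', F := F, Fp := Fp, φ := φ, n := n,
      NL := NL, NR := NR, N1 := N1, N1' := N1', NP := Nat.card ψ.M
      Lext := fun u v h => LL_ext X d h
      Rext := fun u v h => RR_ext X d' h
      XY := I.good.sub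
      YL := fun y hy l hl => I.good.lL l hl y hy
      RY := fun r hr y hy => I.good.rR r hr y hy
      dL := I.good.dL
      dR := I.good.dR
      recL := hφ.recL
      recR := hφ.recR
      recXL := hφ.recXL
      recRX := hφ.recRX
      Ffac := I.fac
      Fpfac := hfac
      FFp := hFFp
      YXF := I.YXF
      stabR := hstabR
      stabL := hstabL
      colR := hφ.colR
      colL := hφ.colL
      bS := I.bd
      bE := fun w hw => atMost_isE_of_isS I.good w n (I.bd w hw)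
      bL := hNL
      bR := hNR
      b1 := hN1
      b1' := hN1'
      bP := fun w => atMost_prefix ψ hψ I.good.dR w }
  have hZF : ∀ z ∈ c.Z c.CC, z ∈ c.Fp ∧ z ∈ c.Sg ∧ z ∈ c.Sg' := by
    rintro z ⟨h1, h2, h3, _⟩
    rw [seg_all] at h1 h2 h3
    exact ⟨h1, h2, h3⟩
  have hreg : FC.Reg (c.Z c.CC) := Ctx.reg_Z (c := c) ⟨φ, I.sat⟩ ⟨φ, hsat⟩ I.good.reg _
  have hgood : Good X d d' (Y ∪ c.Z c.CC) := by
    refine I.good.union hne hreg (fun z hz => (hZF z hz).2.1.2.1) (fun z hz => (hZF z hz).2.2.2.1)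
      (fun z hz s => (hZF z hz).2.1.2.2 s) (fun z hz s => (hZF z hz).2.2.2.2 s) ?_ ?_
    · intro z g hz hzg hg
      exact Ctx.Z_CL (c := c) hz hzg hg
    · intro z g hz hzg hg
      exact Ctx.Z_CR (c := c) hz hzg hg
  refine ⟨Fp, Y ∪ c.Z c.CC, c.nn, ⟨hgood, hfac, hsat, ?_, ?_⟩, hFFp, j, hjFp, hj⟩
  · rintro y (hy | hy)
    · rcases I.YXF y hy with h | h
      · exact Or.inl h
      · exact Or.inr (Or.inl h)
    · exact Or.inr (hZF y hy).1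
  · intro w hw
    exact Ctx.bounded (c := c) hw

theorem induct {X : Set (List α)} {d d' : ℕ} (hX : Good X d d' X) (hne : X.Nonempty) {φ : FC α}
    (hφ : Cong X d d' φ) (k : ℕ) : ∀ (F Y : Set (List α)) (n : ℕ), Inv X d d' φ F Y n →
      ({e | ∃ u, u ∉ F ∧ φ.f u = e} : Set φ.M).ncard ≤ k →
      ∃ Y' n', Good X d d' Y' ∧ ∀ w, AtMost n' (isS (LL X d) (RR X d') Y' w) := by
  induction k with
  | zero =>
    intro F Y n I hk
    have h0 : ({e | ∃ u, u ∉ F ∧ φ.f u = e} : Set φ.M) = ∅ := by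
      rw [← Set.ncard_eq_zero (Set.toFinite _)]; omega
    refine ⟨Y, n, I.good, fun w => I.bd w ?_⟩
    by_contra hw
    have : φ.f w ∈ ({e | ∃ u, u ∉ F ∧ φ.f u = e} : Set φ.M) := ⟨w, hw, rfl⟩
    rw [h0] at this
    exact this
  | succ k ih =>
    intro F Y n I hk
    by_cases hF : ∃ j, j ∉ F
    · obtain ⟨Fp, Y', n', I', hsub, j, hj, hjF⟩ := step hX hne hφ I hF
      refine ih Fp Y' n' I' ?_
      have hlt : ({e | ∃ u, u ∉ Fp ∧ φ.f u = e} : Set φ.M).ncard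
          < ({e | ∃ u, u ∉ F ∧ φ.f u = e} : Set φ.M).ncard := by
        refine Set.ncard_lt_ncard ⟨?_, ?_⟩ (Set.toFinite _)
        · rintro e ⟨u, hu, rfl⟩
          exact ⟨u, fun h => hu (hsub h), rfl⟩
        · intro hcon
          have hmem : φ.f j ∈ ({e | ∃ u, u ∉ F ∧ φ.f u = e} : Set φ.M) := ⟨j, hjF, rfl⟩
          obtain ⟨u, hu, he⟩ := hcon hmem
          exact hu (I'.sat j u he.symm hj)
      omega
    · push Not at hF
      exact ⟨Y, n, I.good, fun w => I.bd w (hF w)⟩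

/-- the main theorem on good codes -/
theorem main_good {X : Set (List α)} {d d' : ℕ} (hX : Good X d d' X) (hne : X.Nonempty) :
    ∃ Y, Good X d d' Y ∧ ∀ w, ∃ (u v : List α) (S : List (List α)),
      S.flatten = u ++ w ++ v ∧ ∀ y ∈ S, y ∈ Y := by
  obtain ⟨φ, hφ⟩ := exists_cong hX
  obtain ⟨Y, n, hY, hn⟩ := induct hX hne hφ _ ∅ X 0
    ⟨hX, fun a v b h => h, fun u v _ h => h, fun y hy => Or.inl hy, fun w hw => hw.elim⟩ le_rfl
  exact ⟨Y, hY, fun w => Good.complete hne hY n hn w⟩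

end Pool.Agent.W_MP_733b23_lc
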